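import Pool.Agent.Work.MP_1ce445_n32.Interface

/-! # Block ASB: the assembly of the factorization (helper90) -/

set_option autoImplicit false

namespace Pool.Agent.Work.MP_1ce445_n32

open Finset Pool.Agent.Work.MP_1ce445_co_56 Pool.Agent.Work.MP_1ce445_lin

/-- a fixed point free involution of a finite set -/
theorem ASB_even {V : Type} [DecidableEq V] (A : Finset V) (f : V → V) (h1 : ∀ v ∈ A, f v ∈ A)
    (h2 : ∀ v, f (f v) = v) (h3 : ∀ v, f v ≠ v) : Even A.card := by
  have h := Finset.prod_involution (s := A) (f := fun _ => (-1 : ℤ)) (fun a _ => f a)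
    (fun a _ => by norm_num) (fun a _ _ => h3 a) (fun a ha => h1 a ha) (fun a _ => h2 a)
  rw [Finset.prod_const] at h
  by_contra hne
  rw [Nat.not_even_iff_odd] at hne
  rw [hne.neg_one_pow] at h
  norm_num at h

/-- preimage of a subset under an involution -/
theorem ASB_pre {V : Type} [DecidableEq V] (F R : Finset V) (f : V → V) (hF : ∀ v ∈ F, f v ∈ F)
    (h2 : ∀ v, f (f v) = v) (hR : R ⊆ F) : (F.filter (fun v => f v ∈ R)).card = R.card := by
  refine Finset.card_bij (fun v _ => f v) ?_ ?_ ?_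
  · intro v hv
    exact (mem_filter.1 hv).2
  · intro v _ w _ h
    have := congrArg f h
    simp only [h2] at this
    exact this
  · intro v hv
    refine ⟨f v, ?_, h2 v⟩
    rw [mem_filter, h2]
    exact ⟨hF v (hR hv), hv⟩

/-- a 2-regular graph on six points, union of two perfect matchings -/
theorem ASB_six {V : Type} [DecidableEq V] (F R : Finset V) (p q : V → V)
    (hpF : ∀ v ∈ F, p v ∈ F) (hqF : ∀ v ∈ F, q v ∈ F) (hp : ∀ v, p (p v) = v)
    (hq : ∀ v, q (q v) = v) (hp' : ∀ v, p v ≠ v) (hq' : ∀ v, q v ≠ v) (hR : R ⊆ F)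
    (hF : F.card = 6) (h : ∀ v ∈ F, ¬ (p v ∈ R ∧ q v ∈ R)) : R.card ≤ 2 := by
  have c1 := ASB_pre F R p hpF hp hR
  have c2 := ASB_pre F R q hqF hq hR
  have hd : Disjoint (F.filter (fun v => p v ∈ R)) (F.filter (fun v => q v ∈ R)) := by
    rw [Finset.disjoint_left]
    intro v h1 h2
    exact h v (mem_filter.1 h1).1 ⟨(mem_filter.1 h1).2, (mem_filter.1 h2).2⟩
  have hsub : F.filter (fun v => p v ∈ R) ∪ F.filter (fun v => q v ∈ R) ⊆ F :=
    Finset.union_subset (Finset.filter_subset _ _) (Finset.filter_subset _ _)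
  have hcu := card_union_of_disjoint hd
  have hle := card_le_card hsub
  by_contra hlt
  have h3 : R.card = 3 := by omega
  have heq : F.filter (fun v => p v ∈ R) ∪ F.filter (fun v => q v ∈ R) = F :=
    Finset.eq_of_subset_of_card_le hsub (by omega)
  have hone : ∀ v ∈ F, p v ∈ R ∨ q v ∈ R := by
    intro v hv
    rw [← heq, mem_union, mem_filter, mem_filter] at hv
    rcases hv with h1 | h1
    · exact Or.inl h1.2
    · exact Or.inr h1.2
  have eA : Even (R.filter (fun v => p v ∈ R)).card := by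
    apply ASB_even _ p _ hp hp'
    intro v hv
    rw [mem_filter] at hv ⊢
    rw [hp]
    exact ⟨hv.2, hv.1⟩
  have eB : Even (R.filter (fun v => q v ∈ R)).card := by
    apply ASB_even _ q _ hq hq'
    intro v hv
    rw [mem_filter] at hv ⊢
    rw [hq]
    exact ⟨hv.2, hv.1⟩
  have hdR : Disjoint (R.filter (fun v => p v ∈ R)) (R.filter (fun v => q v ∈ R)) := by
    rw [Finset.disjoint_left]
    intro v h1 h2
    exact h v (hR (mem_filter.1 h1).1) ⟨(mem_filter.1 h1).2, (mem_filter.1 h2).2⟩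
  have hRu : R.filter (fun v => p v ∈ R) ∪ R.filter (fun v => q v ∈ R) = R := by
    ext v
    rw [mem_union, mem_filter, mem_filter]
    constructor
    · rintro (h1 | h1) <;> exact h1.1
    · intro hv
      rcases hone v (hR hv) with h1 | h1
      · exact Or.inl ⟨hv, h1⟩
      · exact Or.inr ⟨hv, h1⟩
  have hcR := card_union_of_disjoint hdR
  rw [hRu, h3] at hcR
  have := eA.add eB
  rw [← hcR] at this
  exact absurd this (by decide)

/-- Data after the detachment. -/
structure ASB_D {V : Type} [Fintype V] [DecidableEq V] (m : ℕ) (cl : V → Option (ZMod m))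
    (ν : Fin 5 ⊕ (Fin 4 × ZMod m) → V → V) : Prop where
  cF : (univ.filter (fun v => cl v = none)).card = 6
  cK : ∀ t, (univ.filter (fun v => cl v = some t)).card = 4
  inv : ∀ c v, ν c (ν c v) = v
  ne : ∀ c v, ν c v ≠ v
  dis : ∀ c c' v, ν c v = ν c' v → c = c'
  cov : ∀ v w, v ≠ w → ∃ c, ν c v = w
  p0 : ∀ v, cl (ν (.inl 0) v) = cl v
  p1 : ∀ v, cl (ν (.inl 1) v) = cl v
  p2 : ∀ v, cl v = none → cl (ν (.inl 2) v) = none
  p3 : ∀ v, cl v = none → cl (ν (.inl 3) v) = none
  pt : ∀ t v, cl v = some t → cl (ν (.inr (0, t)) v) = some t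

/-- the factor which contains the edge of the colour `c` at a point of the class `a` -/
def ASB_fac {m : ℕ} : Fin 5 ⊕ (Fin 4 × ZMod m) → Option (ZMod m) → Fin 3 ⊕ (Fin 4 × ZMod m)
  | .inl 0, none => .inl 0
  | .inl 0, some t => .inr (0, t)
  | .inl 1, none => .inl 1
  | .inl 1, some t => .inr (0, t)
  | .inl 2, _ => .inl 0
  | .inl 3, _ => .inl 1
  | .inl 4, _ => .inl 2
  | .inr x, _ => .inr x

theorem ASB_fac_cl {V : Type} [Fintype V] [DecidableEq V] {m : ℕ} {cl : V → Option (ZMod m)}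
    {ν : Fin 5 ⊕ (Fin 4 × ZMod m) → V → V} (h : ASB_D m cl ν) (c : Fin 5 ⊕ (Fin 4 × ZMod m))
    (v : V) : ASB_fac c (cl (ν c v)) = ASB_fac c (cl v) := by
  rcases c with i | x
  · fin_cases i
    · show ASB_fac (.inl 0) (cl (ν (.inl 0) v)) = _
      rw [h.p0 v]; rfl
    · show ASB_fac (.inl 1) (cl (ν (.inl 1) v)) = _
      rw [h.p1 v]; rfl
    · rfl
    · rfl
    · rfl
  · rfl

/-- the factors -/
def ASB_g {V : Type} [Fintype V] [DecidableEq V] {m : ℕ} {cl : V → Option (ZMod m)}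
    {ν : Fin 5 ⊕ (Fin 4 × ZMod m) → V → V} (h : ASB_D m cl ν) (j : Fin 3 ⊕ (Fin 4 × ZMod m)) :
    SimpleGraph V where
  Adj v w := ∃ c, ν c v = w ∧ ASB_fac c (cl v) = j
  symm := ⟨fun v w ⟨c, hc, hj⟩ => ⟨c, by rw [← hc]; exact h.inv c v, by
    rw [← hc, ASB_fac_cl h]; exact hj⟩⟩
  loopless := ⟨fun v ⟨c, hc, _⟩ => h.ne c v hc⟩

theorem ASB_adj {V : Type} [Fintype V] [DecidableEq V] {m : ℕ} {cl : V → Option (ZMod m)}
    {ν : Fin 5 ⊕ (Fin 4 × ZMod m) → V → V} (h : ASB_D m cl ν) (j : Fin 3 ⊕ (Fin 4 × ZMod m))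
    (v w : V) : (ASB_g h j).Adj v w ↔ ∃ c, ν c v = w ∧ ASB_fac c (cl v) = j := Iff.rfl

/-- the main colour of a factor -/
def ASB_main {m : ℕ} : Fin 3 ⊕ (Fin 4 × ZMod m) → Fin 5 ⊕ (Fin 4 × ZMod m)
  | .inl 0 => .inl 2
  | .inl 1 => .inl 3
  | .inl 2 => .inl 4
  | .inr x => .inr x

theorem ASB_main_fac {m : ℕ} (j : Fin 3 ⊕ (Fin 4 × ZMod m)) (a : Option (ZMod m)) :
    ASB_fac (ASB_main j) a = j := by
  rcases j with i | x
  · fin_cases i <;> rfl
  · rfl

theorem ASB_min {V : Type} [Fintype V] [DecidableEq V] {m : ℕ} {cl : V → Option (ZMod m)}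
    {ν : Fin 5 ⊕ (Fin 4 × ZMod m) → V → V} (h : ASB_D m cl ν) (j : Fin 3 ⊕ (Fin 4 × ZMod m))
    (v : V) : ∃ w, (ASB_g h j).Adj v w :=
  ⟨ν (ASB_main j) v, (ASB_adj h j v _).2 ⟨ASB_main j, rfl, ASB_main_fac j _⟩⟩

theorem ASB_isfac {V : Type} [Fintype V] [DecidableEq V] {m : ℕ} {cl : V → Option (ZMod m)}
    {ν : Fin 5 ⊕ (Fin 4 × ZMod m) → V → V} (h : ASB_D m cl ν) : IsFactorization (ASB_g h) := by
  apply IsFactorization.of_adj
  · intro i j v w h1 h2
    rw [ASB_adj] at h1 h2
    obtain ⟨c, hc, hi⟩ := h1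
    obtain ⟨c', hc', hj⟩ := h2
    have := h.dis c c' v (hc.trans hc'.symm)
    subst this
    exact hi.symm.trans hj
  · intro v w hvw
    obtain ⟨c, hc⟩ := h.cov v w hvw
    exact ⟨_, (ASB_adj h _ v w).2 ⟨c, hc, rfl⟩⟩
  · exact ASB_min h

/-- a factor with only one colour -/
theorem ASB_perf {V : Type} [Fintype V] [DecidableEq V] {m : ℕ} {cl : V → Option (ZMod m)}
    {ν : Fin 5 ⊕ (Fin 4 × ZMod m) → V → V} (h : ASB_D m cl ν) (j : Fin 3 ⊕ (Fin 4 × ZMod m))
    (hj : ∀ c a, ASB_fac c a = j → c = ASB_main j) :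
    Fintype.card V ≤ gammaT (ASB_g h j) := by
  refine card_le_gammaT (ASB_min h j) (fun v => v) (fun v => ν (ASB_main j) v) ?_ ?_
  · intro v w hvw
    have h1 := congrArg (ν (ASB_main j)) hvw
    simp only [h.inv] at h1
    exact h1
  · intro x w hw
    obtain ⟨c, hc, hcj⟩ := (ASB_adj h j x w).1 hw
    have := hj c _ hcj
    subst this
    exact hc.symm

theorem ASB_perf2 {V : Type} [Fintype V] [DecidableEq V] {m : ℕ} {cl : V → Option (ZMod m)}
    {ν : Fin 5 ⊕ (Fin 4 × ZMod m) → V → V} (h : ASB_D m cl ν) :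
    Fintype.card V ≤ gammaT (ASB_g h (.inl 2)) := by
  apply ASB_perf h
  intro c a hc
  rcases c with i | x
  · fin_cases i
    · rcases a with _ | t <;> simp [ASB_fac] at hc
    · rcases a with _ | t <;> simp [ASB_fac] at hc
    · simp [ASB_fac] at hc
    · simp [ASB_fac] at hc
    · rfl
  · simp [ASB_fac] at hc

theorem ASB_perf3 {V : Type} [Fintype V] [DecidableEq V] {m : ℕ} {cl : V → Option (ZMod m)}
    {ν : Fin 5 ⊕ (Fin 4 × ZMod m) → V → V} (h : ASB_D m cl ν) (i : Fin 4) (hi : i ≠ 0)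
    (t : ZMod m) : Fintype.card V ≤ gammaT (ASB_g h (.inr (i, t))) := by
  apply ASB_perf h
  intro c a hc
  rcases c with l | x
  · fin_cases l
    · rcases a with _ | s
      · simp [ASB_fac] at hc
      · simp only [ASB_fac, Fin.zero_eta, Sum.inr.injEq, Prod.mk.injEq] at hc
        exact absurd hc.1.symm hi
    · rcases a with _ | s
      · simp [ASB_fac] at hc
      · simp only [ASB_fac, Fin.mk_one, Sum.inr.injEq, Prod.mk.injEq] at hc
        exact absurd hc.1.symm hi
    · simp [ASB_fac] at hc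
    · simp [ASB_fac] at hc
    · simp [ASB_fac] at hc
  · simp only [ASB_fac, Sum.inr.injEq] at hc
    rw [hc]; rfl

/-- the factors with a `K_4` -/
theorem ASB_K {V : Type} [Fintype V] [DecidableEq V] {m : ℕ} {cl : V → Option (ZMod m)}
    {ν : Fin 5 ⊕ (Fin 4 × ZMod m) → V → V} (h : ASB_D m cl ν) (t : ZMod m) :
    Fintype.card V - 2 ≤ gammaT (ASB_g h (.inr (0, t))) := by
  obtain ⟨S, hS, hc⟩ := exists_tds (ASB_min h (.inr (0, t)))
  rw [← hc]
  -- neighbours of a vertex outside the block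
  have hout : ∀ u x, cl u ≠ some t → (ASB_g h (.inr (0, t))).Adj u x → x = ν (.inr (0, t)) u := by
    intro u x hu ha
    obtain ⟨c, hcx, hcj⟩ := (ASB_adj h _ u x).1 ha
    rcases c with l | y
    · fin_cases l
      · rcases hcu : cl u with _ | s
        · rw [hcu] at hcj; simp [ASB_fac] at hcj
        · rw [hcu] at hcj
          simp only [ASB_fac, Fin.zero_eta, Sum.inr.injEq, Prod.mk.injEq, true_and] at hcj
          rw [hcj] at hcu
          exact absurd hcu hu
      · rcases hcu : cl u with _ | s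
        · rw [hcu] at hcj; simp [ASB_fac] at hcj
        · rw [hcu] at hcj
          simp only [ASB_fac, Fin.mk_one, Sum.inr.injEq, Prod.mk.injEq, true_and] at hcj
          rw [hcj] at hcu
          exact absurd hcu hu
      · simp [ASB_fac] at hcj
      · simp [ASB_fac] at hcj
      · simp [ASB_fac] at hcj
    · simp only [ASB_fac, Sum.inr.injEq] at hcj
      rw [hcj] at hcx
      exact hcx.symm
  -- neighbours of a vertex of the block are in the block
  have hin : ∀ u x, cl u = some t → (ASB_g h (.inr (0, t))).Adj u x → cl x = some t := by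
    intro u x hu ha
    obtain ⟨c, hcx, hcj⟩ := (ASB_adj h _ u x).1 ha
    rw [← hcx]
    rcases c with l | y
    · fin_cases l
      · exact (h.p0 u).trans hu
      · exact (h.p1 u).trans hu
      · simp [ASB_fac] at hcj
      · simp [ASB_fac] at hcj
      · simp [ASB_fac] at hcj
    · simp only [ASB_fac, Sum.inr.injEq] at hcj
      rw [hcj]
      exact h.pt t u hu
  have hRK : ∀ v ∈ Sᶜ, cl v = some t := by
    intro v hv
    by_contra hb
    have hb' : cl (ν (.inr (0, t)) v) ≠ some t := by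
      intro hh
      have h1 := h.pt t _ hh
      rw [h.inv] at h1
      exact hb h1
    obtain ⟨x, hx, ha⟩ := hS (ν (.inr (0, t)) v)
    have h1 := hout _ x hb' ha
    rw [h.inv] at h1
    rw [Finset.mem_compl] at hv
    exact hv (h1 ▸ hx)
  set K : Finset V := univ.filter (fun v => cl v = some t) with hK
  have hKc : K.card = 4 := h.cK t
  obtain ⟨v0, hv0⟩ : K.Nonempty := by
    rw [← Finset.card_pos]; omega
  rw [hK, mem_filter] at hv0
  obtain ⟨x, hx, hax⟩ := hS v0
  have hxK := hin v0 x hv0.2 hax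
  obtain ⟨y, hy, hay⟩ := hS x
  have hyK := hin x y hxK hay
  have hxy : x ≠ y := hay.ne
  have h2 : ({x, y} : Finset V) ⊆ K ∩ S := by
    intro z hz
    rw [mem_insert, mem_singleton] at hz
    rw [mem_inter, hK, mem_filter]
    rcases hz with rfl | rfl
    · exact ⟨⟨mem_univ _, hxK⟩, hx⟩
    · exact ⟨⟨mem_univ _, hyK⟩, hy⟩
  have h3 : 2 ≤ (K ∩ S).card := by
    have := card_le_card h2
    rw [card_pair hxy] at this
    exact this
  have h4 : Sᶜ ⊆ K \ S := by
    intro v hv
    rw [mem_sdiff, hK, mem_filter]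
    exact ⟨⟨mem_univ _, hRK v hv⟩, mem_compl.1 hv⟩
  have h5 := card_le_card h4
  have h6 := Finset.card_inter_add_card_sdiff K S
  have h7 : (Sᶜ).card + S.card = Fintype.card V := card_compl_add_card S
  omega

/-- the factors with a 2-regular graph on six points -/
theorem ASB_F {V : Type} [Fintype V] [DecidableEq V] {m : ℕ} {cl : V → Option (ZMod m)}
    {ν : Fin 5 ⊕ (Fin 4 × ZMod m) → V → V} (h : ASB_D m cl ν) (j : Fin 3 ⊕ (Fin 4 × ZMod m))
    (c0 c2 : Fin 5 ⊕ (Fin 4 × ZMod m)) (hcc : c0 ≠ c2)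
    (hj : ∀ c a, ASB_fac c a = j → c = c2 ∨ (c = c0 ∧ a = none))
    (hp0 : ∀ v, cl v = none → cl (ν c0 v) = none) (hp2 : ∀ v, cl v = none → cl (ν c2 v) = none) :
    Fintype.card V - 2 ≤ gammaT (ASB_g h j) := by
  obtain ⟨S, hS, hc⟩ := exists_tds (ASB_min h j)
  rw [← hc]
  have hout : ∀ u x, cl u ≠ none → (ASB_g h j).Adj u x → x = ν c2 u := by
    intro u x hu ha
    obtain ⟨c, hcx, hcj⟩ := (ASB_adj h _ u x).1 ha
    rcases hj c _ hcj with h1 | ⟨_, h1⟩
    · rw [h1] at hcx; exact hcx.symm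
    · exact absurd h1 hu
  have hRF : ∀ v ∈ Sᶜ, cl v = none := by
    intro v hv
    by_contra hb
    have hb' : cl (ν c2 v) ≠ none := by
      intro hh
      have h1 := hp2 _ hh
      rw [h.inv] at h1
      exact hb h1
    obtain ⟨x, hx, ha⟩ := hS (ν c2 v)
    have h1 := hout _ x hb' ha
    rw [h.inv] at h1
    rw [Finset.mem_compl] at hv
    exact hv (h1 ▸ hx)
  set F : Finset V := univ.filter (fun v => cl v = none) with hF
  have hmem : ∀ v, v ∈ F ↔ cl v = none := by
    intro v; rw [hF, mem_filter]; simp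
  have h6 : (Sᶜ).card ≤ 2 := by
    refine ASB_six F Sᶜ (ν c0) (ν c2) ?_ ?_ (h.inv c0) (h.inv c2) (h.ne c0) (h.ne c2) ?_ h.cF ?_
    · intro v hv
      rw [hmem] at hv ⊢
      exact hp0 v hv
    · intro v hv
      rw [hmem] at hv ⊢
      exact hp2 v hv
    · intro v hv
      rw [hmem]
      exact hRF v hv
    · rintro v hv ⟨h1, h2⟩
      obtain ⟨x, hx, ha⟩ := hS v
      obtain ⟨c, hcx, hcj⟩ := (ASB_adj h _ v x).1 ha
      rcases hj c _ hcj with h3 | ⟨h3, _⟩
      · rw [h3] at hcx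
        rw [hcx, mem_compl] at h2
        exact h2 hx
      · rw [h3] at hcx
        rw [hcx, mem_compl] at h1
        exact h1 hx
  have h7 : (Sᶜ).card + S.card = Fintype.card V := card_compl_add_card S
  omega

theorem ASB_F0 {V : Type} [Fintype V] [DecidableEq V] {m : ℕ} {cl : V → Option (ZMod m)}
    {ν : Fin 5 ⊕ (Fin 4 × ZMod m) → V → V} (h : ASB_D m cl ν) :
    Fintype.card V - 2 ≤ gammaT (ASB_g h (.inl 0)) := by
  refine ASB_F h (.inl 0) (.inl 0) (.inl 2) (by simp) ?_ (fun v hv => (h.p0 v).trans hv) h.p2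
  intro c a hc
  rcases c with i | x
  · fin_cases i
    · rcases a with _ | t
      · exact Or.inr ⟨rfl, rfl⟩
      · simp [ASB_fac] at hc
    · rcases a with _ | t <;> simp [ASB_fac] at hc
    · exact Or.inl rfl
    · simp [ASB_fac] at hc
    · simp [ASB_fac] at hc
  · simp [ASB_fac] at hc

theorem ASB_F1 {V : Type} [Fintype V] [DecidableEq V] {m : ℕ} {cl : V → Option (ZMod m)}
    {ν : Fin 5 ⊕ (Fin 4 × ZMod m) → V → V} (h : ASB_D m cl ν) :
    Fintype.card V - 2 ≤ gammaT (ASB_g h (.inl 1)) := by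
  refine ASB_F h (.inl 1) (.inl 1) (.inl 3) (by simp) ?_ (fun v hv => (h.p1 v).trans hv) h.p3
  intro c a hc
  rcases c with i | x
  · fin_cases i
    · rcases a with _ | t <;> simp [ASB_fac] at hc
    · rcases a with _ | t
      · exact Or.inr ⟨rfl, rfl⟩
      · simp [ASB_fac] at hc
    · simp [ASB_fac] at hc
    · exact Or.inl rfl
    · simp [ASB_fac] at hc
  · simp [ASB_fac] at hc

theorem ASB_card {V : Type} [Fintype V] [DecidableEq V] {m : ℕ} [NeZero m]
    {cl : V → Option (ZMod m)} {ν : Fin 5 ⊕ (Fin 4 × ZMod m) → V → V}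
    (h1 : (univ.filter (fun v => cl v = none)).card = 6)
    (h2 : ∀ t, (univ.filter (fun v => cl v = some t)).card = 4) : Fintype.card V = 4 * m + 6 := by
  have h3 := Finset.card_eq_sum_card_fiberwise (s := (univ : Finset V)) (t := univ) (f := cl)
    (fun v _ => mem_coe.2 (mem_univ _))
  rw [card_univ, Fintype.sum_option, h1] at h3
  rw [h3]
  simp only [h2, sum_const, card_univ, ZMod.card, smul_eq_mul]
  ring

theorem ASB_end {V : Type} [Fintype V] [DecidableEq V] {m : ℕ} [NeZero m]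
    {cl : V → Option (ZMod m)} {ν : Fin 5 ⊕ (Fin 4 × ZMod m) → V → V} (h : ASB_D m cl ν) :
    (4 * m + 6) ^ (3 * m + 1) * (4 * m + 4) ^ (m + 2) ≤ P (4 * m + 6) (4 * m + 3) := by
  have hV : Fintype.card V = 4 * m + 6 := ASB_card (ν := ν) h.cF h.cK
  have h1 := le_P (V := V) (ι := Fin 3 ⊕ (Fin 4 × ZMod m)) (n := 4 * m + 6) (k := 4 * m + 3)
    hV (by simp [ZMod.card]; ring) (ASB_isfac h)
  refine le_trans ?_ h1
  have e0 := ASB_F0 h
  have e1 := ASB_F1 h
  have e2 := ASB_perf2 h
  have e3 := ASB_perf3 h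
  have e4 := ASB_K h
  rw [hV] at e0 e1 e2 e3 e4
  have e5 : 4 * m + 6 - 2 = 4 * m + 4 := by omega
  rw [e5] at e0 e1 e4
  rw [Fintype.prod_sum_type, Fin.prod_univ_three, Fintype.prod_prod_type, Fin.prod_univ_four]
  have q0 : (4 * m + 4) ^ m ≤ ∏ t : ZMod m, gammaT (ASB_g h (.inr (0, t))) := by
    calc (4 * m + 4) ^ m = ∏ _t : ZMod m, (4 * m + 4) := by
          rw [prod_const, card_univ, ZMod.card]
      _ ≤ _ := Finset.prod_le_prod' fun t _ => e4 t
  have q1 : ∀ i : Fin 4, i ≠ 0 →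
      (4 * m + 6) ^ m ≤ ∏ t : ZMod m, gammaT (ASB_g h (.inr (i, t))) := by
    intro i hi
    calc (4 * m + 6) ^ m = ∏ _t : ZMod m, (4 * m + 6) := by
          rw [prod_const, card_univ, ZMod.card]
      _ ≤ _ := Finset.prod_le_prod' fun t _ => e3 i hi t
  have w1 := q1 1 (by decide)
  have w2 := q1 2 (by decide)
  have w3 := q1 3 (by decide)
  calc (4 * m + 6) ^ (3 * m + 1) * (4 * m + 4) ^ (m + 2)
      = ((4 * m + 4) * (4 * m + 4) * (4 * m + 6)) *
        ((4 * m + 4) ^ m * (4 * m + 6) ^ m * (4 * m + 6) ^ m * (4 * m + 6) ^ m) := by ring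
    _ ≤ _ := by
        apply Nat.mul_le_mul
        · exact Nat.mul_le_mul (Nat.mul_le_mul e0 e1) e2
        · exact Nat.mul_le_mul (Nat.mul_le_mul (Nat.mul_le_mul q0 w1) w2) w3

/-- a colour with all its edges at the class `a` inside `a` -/
theorem ASB_pres {V C : Type} [Fintype V] [DecidableEq V] [DecidableEq C] (cl : V → C) (f : V → V)
    (a : C) (n : ℕ) (h1 : (univ.filter (fun v => cl v = a)).card = n)
    (h2 : (univ.filter (fun v => cl v = a ∧ cl (f v) = a)).card = n) (v : V) (hv : cl v = a) :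
    cl (f v) = a := by
  have h3 : univ.filter (fun v => cl v = a ∧ cl (f v) = a) ⊆ univ.filter (fun v => cl v = a) := by
    intro w hw
    rw [mem_filter] at hw ⊢
    exact ⟨hw.1, hw.2.1⟩
  have h4 := Finset.eq_of_subset_of_card_le h3 (by omega)
  have h5 : v ∈ univ.filter (fun v => cl v = a) := by
    rw [mem_filter]; exact ⟨mem_univ _, hv⟩
  rw [← h4, mem_filter] at h5
  exact h5.2.2

theorem stmt_ASB (hDTC : Stmt_DTC) : Stmt_ASB := by
  intro m _ O hO
  have hcard : Fintype.card (Fin 5 ⊕ (Fin 4 × ZMod m)) = 4 * m + 5 := by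
    simp [ZMod.card]; ring
  let E : Fin (4 * m + 5) ≃ Fin 5 ⊕ (Fin 4 × ZMod m) := (Fintype.equivFinOfCardEq hcard).symm
  have hout : Pool.Agent.Work.MP_1ce445_low.Outline (C := Option (ZMod m)) (4 * m + 5) sz
      (fun i => O (E i)) := by
    refine ⟨?_, ?_, ?_, ?_, ?_, ?_⟩
    · intro a; unfold sz; split_ifs <;> norm_num
    · intro i a b; exact hO.symm _ a b
    · intro i a; exact hO.even _ a
    · intro i a; exact hO.row _ a
    · intro a b hab
      rw [E.sum_comp (fun c => O c a b), hO.off a b hab]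
    · intro a
      rw [E.sum_comp (fun c => O c a a), hO.diag a]
  obtain ⟨V, iV, dV, cl, μ, hR⟩ := hDTC (Option (ZMod m)) (4 * m + 5) sz _ hout
  have hcn : ∀ c a b, (univ.filter (fun v => cl v = a ∧ cl (μ (E.symm c) v) = b)).card =
      O c a b := by
    intro c a b
    have := hR.cnt (E.symm c) a b
    simp only [Equiv.apply_symm_apply] at this
    exact this
  have hcF : (univ.filter (fun v => cl v = none)).card = 6 := by
    rw [hR.card none]; rfl
  have hcK : ∀ t, (univ.filter (fun v => cl v = some t)).card = 4 := by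
    intro t; rw [hR.card (some t)]; rfl
  have hV : Fintype.card V = 4 * m + 6 :=
    ASB_card (ν := fun (_ : Fin 5 ⊕ (Fin 4 × ZMod m)) v => v) hcF hcK
  have hdis : ∀ c c' v, μ (E.symm c) v = μ (E.symm c') v → c = c' := by
    intro c c' v h
    exact E.symm.injective (hR.dis _ _ v h)
  have hcov : ∀ v w, v ≠ w → ∃ c, μ (E.symm c) v = w := by
    intro v w hvw
    have hinj : Function.Injective (fun c => μ (E.symm c) v) := fun c c' h => hdis c c' v h
    have himg : (univ.image (fun c => μ (E.symm c) v)) = univ.erase v := by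
      apply Finset.eq_of_subset_of_card_le
      · intro x hx
        rw [mem_image] at hx
        obtain ⟨c, _, rfl⟩ := hx
        rw [mem_erase]
        exact ⟨hR.ne _ v, mem_univ _⟩
      · rw [card_image_of_injective _ hinj, card_erase_of_mem (mem_univ _), card_univ, card_univ,
          hcard, hV]
        omega
    have : w ∈ univ.image (fun c => μ (E.symm c) v) := by
      rw [himg, mem_erase]
      exact ⟨hvw.symm, mem_univ _⟩
    rw [mem_image] at this
    obtain ⟨c, _, hc⟩ := this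
    exact ⟨c, hc⟩
  have hpres : ∀ c a, O c a a = sz a → ∀ v, cl v = a → cl (μ (E.symm c) v) = a := by
    intro c a h v hv
    exact ASB_pres cl (μ (E.symm c)) a (sz a) (hR.card a) (by rw [hcn, h]) v hv
  exact ASB_end (V := V) (cl := cl) (ν := fun c v => μ (E.symm c) v)
    { cF := hcF
      cK := hcK
      inv := fun c v => hR.inv _ v
      ne := fun c v => hR.ne _ v
      dis := hdis
      cov := hcov
      p0 := fun v => hpres (.inl 0) (cl v) (hO.w0 _) v rfl
      p1 := fun v => hpres (.inl 1) (cl v) (hO.w1 _) v rfl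
      p2 := fun v hv => hpres (.inl 2) none (by rw [hO.s2]; rfl) v hv
      p3 := fun v hv => hpres (.inl 3) none (by rw [hO.s3]; rfl) v hv
      pt := fun t v hv => hpres (.inr (0, t)) (some t) (by rw [hO.st]; rfl) v hv }

end Pool.Agent.Work.MP_1ce445_n32
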