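import Pool.Agent.Work.MP_1ce445_n32.Interface

/-!
Block CHA of the exact value of `P n (n - 3)`, `n % 4 = 2`: every good pair has a predecessor.
-/

namespace Pool.Agent.Work.MP_1ce445_n32

open Finset Pool.Agent.Work.MP_1ce445_co_56 Pool.Agent.Work.MP_1ce445_lin

/-- the predecessor of a pair -/
def CHA_pv {V : Type} [DecidableEq V] (N : V → Finset V) (Z A : Finset V) : Finset V :=
  ((Z.filter (fun u => A ⊆ N u)).biUnion N) \ A

lemma CHA_notwin {V : Type} [DecidableEq V] {N : V → Finset V} {Z : Finset V} (hT : Tgt N Z)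
    {c d : V} (hc : c ∈ Z) (hd : d ∈ Z) (hcd : c ≠ d) : N c ≠ N d := by
  intro h
  have h1 := hT.star {c} (by simpa using hc)
  rw [singleton_biUnion, card_singleton, hT.three c hc] at h1
  have h2 : ({c, d} : Finset V) ⊆ Z.filter (fun w => N w ⊆ N c) := by
    intro v hv
    rw [mem_insert, mem_singleton] at hv
    rw [mem_filter]
    rcases hv with rfl | rfl
    · exact ⟨hc, Subset.refl _⟩
    · exact ⟨hd, by rw [h]⟩
  have h3 := card_le_card h2
  rw [card_pair hcd] at h3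
  omega

lemma CHA_three {V : Type} [DecidableEq V] {a b c : V} (h : ({a, b, c} : Finset V).card = 3) :
    a ≠ b ∧ a ≠ c ∧ b ≠ c := by
  refine ⟨?_, ?_, ?_⟩
  · rintro rfl
    rw [insert_eq_of_mem (mem_insert_self _ _)] at h
    have := card_le_two (a := a) (b := c)
    omega
  · rintro rfl
    rw [insert_eq_of_mem (by simp)] at h
    have := card_le_two (a := b) (b := a)
    omega
  · rintro rfl
    rw [insert_eq_of_mem (mem_singleton_self b)] at h
    have := card_le_two (a := a) (b := b)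
    omega

lemma CHA_pv_eq {V : Type} [DecidableEq V] {N : V → Finset V} {Z : Finset V} (hT : Tgt N Z)
    {u u' s s' c d : V} (hu : u ∈ Z) (hu' : u' ∈ Z) (huu : u ≠ u') (h1 : N u = {s, c, d})
    (h2 : N u' = {s', c, d}) : CHA_pv N Z {c, d} = {s, s'} := by
  have k1 := hT.three u hu
  have k2 := hT.three u' hu'
  rw [h1] at k1
  rw [h2] at k2
  obtain ⟨a1, a2, a3⟩ := CHA_three k1
  obtain ⟨b1, b2, -⟩ := CHA_three k2
  have hcu : c ∈ N u := by rw [h1]; simp
  have hdu : d ∈ N u := by rw [h1]; simp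
  have hcu' : c ∈ N u' := by rw [h2]; simp
  have hdu' : d ∈ N u' := by rw [h2]; simp
  have hcZ : c ∈ Z := hT.closed u hu hcu
  have hdZ : d ∈ Z := hT.closed u hu hdu
  have hf : Z.filter (fun v => ({c, d} : Finset V) ⊆ N v) = {u, u'} := by
    ext v
    rw [mem_filter, mem_insert, mem_singleton]
    constructor
    · rintro ⟨hv, hs⟩
      by_contra hcon
      push Not at hcon
      have hcv : c ∈ N v := hs (by simp)
      have hdv : d ∈ N v := hs (by simp)
      have h3 : ({u, u', v} : Finset V).card = 3 :=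
        card_eq_three.2 ⟨u, u', v, huu, Ne.symm hcon.1, Ne.symm hcon.2, rfl⟩
      have e1 : ({u, u', v} : Finset V) = N c := by
        apply eq_of_subset_of_card_le
        · intro t ht
          simp only [mem_insert, mem_singleton] at ht
          rcases ht with rfl | rfl | rfl
          · exact hT.symm _ _ hcu
          · exact hT.symm _ _ hcu'
          · exact hT.symm _ _ hcv
        · rw [hT.three c hcZ, h3]
      have e2 : ({u, u', v} : Finset V) = N d := by
        apply eq_of_subset_of_card_le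
        · intro t ht
          simp only [mem_insert, mem_singleton] at ht
          rcases ht with rfl | rfl | rfl
          · exact hT.symm _ _ hdu
          · exact hT.symm _ _ hdu'
          · exact hT.symm _ _ hdv
        · rw [hT.three d hdZ, h3]
      exact CHA_notwin hT hcZ hdZ a3 (e1.symm.trans e2)
    · rintro (rfl | rfl)
      · refine ⟨hu, ?_⟩
        rw [h1]
        exact subset_insert _ _
      · refine ⟨hu', ?_⟩
        rw [h2]
        exact subset_insert _ _
  unfold CHA_pv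
  rw [hf, biUnion_insert, singleton_biUnion, h1, h2]
  ext t
  simp only [mem_sdiff, mem_union, mem_insert, mem_singleton, not_or]
  constructor
  · rintro ⟨(h | h | h) | (h | h | h), h3, h4⟩
    · exact Or.inl h
    · exact absurd h h3
    · exact absurd h h4
    · exact Or.inr h
    · exact absurd h h3
    · exact absurd h h4
  · rintro (rfl | rfl)
    · exact ⟨Or.inl (Or.inl rfl), a1, a2⟩
    · exact ⟨Or.inr (Or.inl rfl), b1, b2⟩

lemma CHA_swap {V : Type} [DecidableEq V] {N : V → Finset V}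
    {p q u1 u2 x y p3 q3 a w r g p' q' : V} (h : Lk N p q u1 u2 x y p3 q3 a w r g p' q') :
    Lk N p q u1 u2 x y p3 q3 a w r g q' p' where
  np := h.np
  nq := h.nq
  nu1 := h.nu1
  nu2 := h.nu2
  np3 := h.np3
  nq3 := h.nq3
  na := h.na
  nw := h.nw
  nr := by rw [h.nr, pair_comm p' q']
  ng := by rw [h.ng, pair_comm p' q']
  xy := h.xy
  pq3 := h.pq3
  rg := h.rg
  d1 := h.d1
  d2 := ⟨h.d2.2.1, h.d2.1, h.d2.2.2.2, h.d2.2.2.1⟩
  d3 := h.d3

lemma CHA_mem {V : Type} [DecidableEq V] {N : V → Finset V} {Z : Finset V} (hT : Tgt N Z)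
    {p q : V} (h : Good N Z p q) : p ∈ Z ∧ q ∈ Z := by
  obtain ⟨S, u1, u2, u3, x, y, z, hD⟩ := h
  have h1 : u1 ∈ Z := (mem_sdiff.1 hD.m1).1
  have h2 := hT.closed u1 h1
  rw [hD.n1] at h2
  exact ⟨h2 (by simp), h2 (by simp)⟩

lemma CHA_back {V : Type} [DecidableEq V] {N : V → Finset V} {Z : Finset V} (hT : Tgt N Z)
    {p q u1 u2 x y p3 q3 a w r g p' q' : V} (hp : p ∈ Z) (hq : q ∈ Z)
    (h : Lk N p q u1 u2 x y p3 q3 a w r g p' q') :
    CHA_pv N Z (CHA_pv N Z {p', q'}) = {p, q} := by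
  have hp3 : p3 ∈ Z := hT.closed p hp (by rw [h.np]; simp)
  have hq3 : q3 ∈ Z := hT.closed q hq (by rw [h.nq]; simp)
  have ha : a ∈ Z := hT.closed p3 hp3 (by rw [h.np3]; simp)
  have hw : w ∈ Z := hT.closed p3 hp3 (by rw [h.np3]; simp)
  have hr : r ∈ Z := hT.closed a ha (by rw [h.na]; simp)
  have hg : g ∈ Z := hT.closed w hw (by rw [h.nw]; simp)
  rw [CHA_pv_eq hT hr hg h.rg h.nr h.ng, CHA_pv_eq hT hp3 hq3 h.pq3 h.np3 h.nq3]

theorem stmt_CHA (h : Stmt_EXB) : Stmt_CHA := by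
  intro V _ N Z hT p q hG
  classical
  obtain ⟨Gd, hGd1, hGd2⟩ : ∃ Gd : Finset (Finset V),
      (∀ p q, Good N Z p q → ({p, q} : Finset V) ∈ Gd) ∧
      (∀ A ∈ Gd, ∃ p q, A = {p, q} ∧ Good N Z p q) := by
    refine ⟨Z.powerset.filter (fun A => ∃ p q, A = {p, q} ∧ Good N Z p q), ?_, ?_⟩
    · intro p q hpq
      rw [mem_filter, mem_powerset]
      refine ⟨?_, p, q, rfl, hpq⟩
      intro t ht
      rw [mem_insert, mem_singleton] at ht
      rcases ht with rfl | rfl
      · exact (CHA_mem hT hpq).1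
      · exact (CHA_mem hT hpq).2
    · intro A hA
      exact (mem_filter.1 hA).2
  have hstep : ∀ A (hA : A ∈ Gd), ∃ B : Finset V, B ∈ Gd ∧
      ∃ p q p' q' u1 u2 x y p3 q3 a w r g, A = {p, q} ∧ B = {p', q'} ∧ Good N Z p q ∧
        Lk N p q u1 u2 x y p3 q3 a w r g p' q' := by
    intro A hA
    obtain ⟨p, q, hA0, hpq⟩ := hGd2 A hA
    obtain ⟨u1, u2, x, y, p3, q3, a, w, r, g, p', q', hL, hG'⟩ := h N Z hT p q hpq
    exact ⟨{p', q'}, hGd1 p' q' hG', p, q, p', q', u1, u2, x, y, p3, q3, a, w, r, g, hA0, rfl,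
      hpq, hL⟩
  choose f hf1 hf2 using hstep
  have hpv : ∀ A (hA : A ∈ Gd), CHA_pv N Z (CHA_pv N Z (f A hA)) = A := by
    intro A hA
    obtain ⟨p, q, p', q', u1, u2, x, y, p3, q3, a, w, r, g, hA0, hB0, hG0, hL⟩ := hf2 A hA
    rw [hB0, hA0]
    exact CHA_back hT (CHA_mem hT hG0).1 (CHA_mem hT hG0).2 hL
  have hinj : ∀ A B (hA : A ∈ Gd) (hB : B ∈ Gd), f A hA = f B hB → A = B := by
    intro A B hA hB hAB
    rw [← hpv A hA, ← hpv B hB, hAB]
  obtain ⟨A, hA, hAf⟩ := Finset.surj_on_of_inj_on_of_card_le f hf1 hinj le_rfl {p, q}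
    (hGd1 p q hG)
  obtain ⟨p0, q0, p', q', u1, u2, x, y, p3, q3, a, w, r, g, hA0, hB0, hG0, hL⟩ := hf2 A hA
  rw [← hAf] at hB0
  have h1 : ({p, q} : Set V) = {p', q'} := by
    have h2 := congrArg (fun s : Finset V => (s : Set V)) hB0
    simpa only [coe_insert, coe_singleton] using h2
  rw [Set.pair_eq_pair_iff] at h1
  rcases h1 with ⟨rfl, rfl⟩ | ⟨rfl, rfl⟩
  · exact ⟨p0, q0, u1, u2, x, y, p3, q3, a, w, r, g, hG0, hL⟩
  · exact ⟨p0, q0, u1, u2, x, y, p3, q3, a, w, r, g, hG0, CHA_swap hL⟩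

end Pool.Agent.Work.MP_1ce445_n32
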