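import Pool.Agent.Work.MP_1ce445_n32.Interface

/-! # Block CHB: the set of the blocks is closed and divisible by four -/

namespace Pool.Agent.Work.MP_1ce445_n32

open Finset Pool.Agent.Work.MP_1ce445_co_56 Pool.Agent.Work.MP_1ce445_lin

/-- the block of `v`: `v`, its mates, and the common neighbours -/
def CHB_blk {V : Type} [DecidableEq V] (N : V → Finset V) (Z : Finset V) (v : V) : Finset V :=
  insert v (Z.filter (fun v' => v' ≠ v ∧ (N v ∩ N v').card = 2) ∪
    (Z.filter (fun v' => v' ≠ v ∧ (N v ∩ N v').card = 2)).biUnion (fun v' => N v ∩ N v'))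

lemma CHB_three {V : Type} [DecidableEq V] {s : Finset V} {a b c : V} (h : s = {a, b, c})
    (h3 : s.card = 3) : a ≠ b ∧ a ≠ c ∧ b ≠ c := by
  subst h
  refine ⟨?_, ?_, ?_⟩
  · rintro rfl
    have h4 : ({a, a, c} : Finset V) = {a, c} := by
      ext x
      simp only [mem_insert, mem_singleton]
      tauto
    rw [h4] at h3
    have := Finset.card_le_two (a := a) (b := c)
    omega
  · rintro rfl
    have h4 : ({a, b, a} : Finset V) = {a, b} := by
      ext x
      simp only [mem_insert, mem_singleton]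
      tauto
    rw [h4] at h3
    have := Finset.card_le_two (a := a) (b := b)
    omega
  · rintro rfl
    have h4 : ({a, b, b} : Finset V) = {a, b} := by
      ext x
      simp only [mem_insert, mem_singleton]
      tauto
    rw [h4] at h3
    have := Finset.card_le_two (a := a) (b := b)
    omega

lemma CHB_blk_eq {V : Type} [DecidableEq V] {N : V → Finset V} {Z : Finset V}
    (symm : ∀ v w, w ∈ N v → v ∈ N w) {v v' s t e e' : V}
    (hv : N v = {s, t, e}) (hv' : N v' = {s, t, e'}) (hZ : v' ∈ Z) (hne : v' ≠ v) (hst0 : s ≠ t)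
    (he : e ∉ N v') (hst : ∀ c, c ∈ N s → c ∈ N t → c = v ∨ c = v')
    (hse : ∀ c, c ∈ N s → c ∈ N e → c = v) (hte : ∀ c, c ∈ N t → c ∈ N e → c = v) :
    CHB_blk N Z v = {v, v', s, t} := by
  have hI : N v ∩ N v' = {s, t} := by
    ext c
    rw [mem_inter]
    constructor
    · rintro ⟨h1, h2⟩
      rw [hv] at h1
      simp only [mem_insert, mem_singleton] at h1 ⊢
      rcases h1 with h1 | h1 | h1
      · exact Or.inl h1
      · exact Or.inr h1
      · exact absurd (h1 ▸ h2) he
    · intro h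
      simp only [mem_insert, mem_singleton] at h
      rw [hv, hv']
      simp only [mem_insert, mem_singleton]
      tauto
  have hF : Z.filter (fun v' => v' ≠ v ∧ (N v ∩ N v').card = 2) = {v'} := by
    ext c
    rw [mem_filter, mem_singleton]
    constructor
    · rintro ⟨-, hcv, h2⟩
      obtain ⟨x1, x2, hx, hxe⟩ := card_eq_two.1 h2
      have h1 : x1 ∈ N v ∧ x1 ∈ N c := by
        have : x1 ∈ N v ∩ N c := by
          rw [hxe]
          simp
        exact mem_inter.1 this
      have h2 : x2 ∈ N v ∧ x2 ∈ N c := by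
        have : x2 ∈ N v ∩ N c := by
          rw [hxe]
          simp
        exact mem_inter.1 this
      have k1 := symm c x1 h1.2
      have k2 := symm c x2 h2.2
      have m1 := h1.1
      have m2 := h2.1
      rw [hv] at m1 m2
      simp only [mem_insert, mem_singleton] at m1 m2
      rcases m1 with m1 | m1 | m1 <;> rcases m2 with m2 | m2 | m2
      · exact absurd (m1.trans m2.symm) hx
      · rw [m1] at k1
        rw [m2] at k2
        exact (hst c k1 k2).resolve_left hcv
      · rw [m1] at k1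
        rw [m2] at k2
        exact absurd (hse c k1 k2) hcv
      · rw [m1] at k1
        rw [m2] at k2
        exact (hst c k2 k1).resolve_left hcv
      · exact absurd (m1.trans m2.symm) hx
      · rw [m1] at k1
        rw [m2] at k2
        exact absurd (hte c k1 k2) hcv
      · rw [m1] at k1
        rw [m2] at k2
        exact absurd (hse c k2 k1) hcv
      · rw [m1] at k1
        rw [m2] at k2
        exact absurd (hte c k2 k1) hcv
      · exact absurd (m1.trans m2.symm) hx
    · rintro rfl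
      refine ⟨hZ, hne, ?_⟩
      rw [hI]
      exact card_pair hst0
  unfold CHB_blk
  rw [hF, singleton_biUnion, hI]
  rfl

section

variable {V : Type} [DecidableEq V] {N : V → Finset V} {Z : Finset V}
  {p q u1 u2 x y p3 q3 a w r g p' q' : V}

lemma CHB_s1 (L : Lk N p q u1 u2 x y p3 q3 a w r g p' q') :
    Lk N q p u1 u2 x y q3 p3 a w r g p' q' where
  np := L.nq
  nq := L.np
  nu1 := by rw [L.nu1]; ext c; simp only [mem_insert, mem_singleton]; tauto
  nu2 := by rw [L.nu2]; ext c; simp only [mem_insert, mem_singleton]; tauto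
  np3 := L.nq3
  nq3 := L.np3
  na := by rw [L.na]; ext c; simp only [mem_insert, mem_singleton]; tauto
  nw := by rw [L.nw]; ext c; simp only [mem_insert, mem_singleton]; tauto
  nr := L.nr
  ng := L.ng
  xy := L.xy
  pq3 := L.pq3.symm
  rg := L.rg
  d1 := L.d1
  d2 := ⟨L.d2.2.2.1, L.d2.2.2.2, L.d2.1, L.d2.2.1⟩
  d3 := L.d3

lemma CHB_s2 (L : Lk N p q u1 u2 x y p3 q3 a w r g p' q') :
    Lk N p q u2 u1 y x p3 q3 a w r g p' q' where
  np := by rw [L.np]; ext c; simp only [mem_insert, mem_singleton]; tauto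
  nq := by rw [L.nq]; ext c; simp only [mem_insert, mem_singleton]; tauto
  nu1 := L.nu2
  nu2 := L.nu1
  np3 := L.np3
  nq3 := L.nq3
  na := L.na
  nw := L.nw
  nr := L.nr
  ng := L.ng
  xy := L.xy.symm
  pq3 := L.pq3
  rg := L.rg
  d1 := ⟨L.d1.2.1, L.d1.1, L.d1.2.2.2, L.d1.2.2.1⟩
  d2 := L.d2
  d3 := ⟨L.d3.2.1, L.d3.1, L.d3.2.2.2, L.d3.2.2.1⟩

lemma CHB_s3 (L : Lk N p q u1 u2 x y p3 q3 a w r g p' q') :
    Lk N p q u1 u2 x y p3 q3 w a g r p' q' where
  np := L.np
  nq := L.nq
  nu1 := L.nu1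
  nu2 := L.nu2
  np3 := by rw [L.np3]; ext c; simp only [mem_insert, mem_singleton]; tauto
  nq3 := by rw [L.nq3]; ext c; simp only [mem_insert, mem_singleton]; tauto
  na := L.nw
  nw := L.na
  nr := L.ng
  ng := L.nr
  xy := L.xy
  pq3 := L.pq3
  rg := L.rg.symm
  d1 := ⟨L.d1.2.2.1, L.d1.2.2.2, L.d1.1, L.d1.2.1⟩
  d2 := L.d2
  d3 := ⟨L.d3.2.2.1, L.d3.2.2.2, L.d3.1, L.d3.2.1⟩

/-- all vertices of a link are in `Z` -/
lemma CHB_mem (hT : Tgt N Z) (L : Lk N p q u1 u2 x y p3 q3 a w r g p' q') (hp : p ∈ Z) :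
    q ∈ Z ∧ u1 ∈ Z ∧ u2 ∈ Z ∧ x ∈ Z ∧ y ∈ Z ∧ p3 ∈ Z ∧ q3 ∈ Z ∧ a ∈ Z ∧ w ∈ Z ∧ r ∈ Z ∧ g ∈ Z ∧
      p' ∈ Z := by
  have hu1 : u1 ∈ Z := hT.closed p hp (by rw [L.np]; simp)
  have hu2 : u2 ∈ Z := hT.closed p hp (by rw [L.np]; simp)
  have hp3 : p3 ∈ Z := hT.closed p hp (by rw [L.np]; simp)
  have hq : q ∈ Z := hT.closed u1 hu1 (by rw [L.nu1]; simp)
  have hx : x ∈ Z := hT.closed u1 hu1 (by rw [L.nu1]; simp)
  have hy : y ∈ Z := hT.closed u2 hu2 (by rw [L.nu2]; simp)
  have hq3 : q3 ∈ Z := hT.closed q hq (by rw [L.nq]; simp)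
  have ha : a ∈ Z := hT.closed p3 hp3 (by rw [L.np3]; simp)
  have hw : w ∈ Z := hT.closed p3 hp3 (by rw [L.np3]; simp)
  have hr : r ∈ Z := hT.closed a ha (by rw [L.na]; simp)
  have hg : g ∈ Z := hT.closed w hw (by rw [L.nw]; simp)
  have hp' : p' ∈ Z := hT.closed r hr (by rw [L.nr]; simp)
  exact ⟨hq, hu1, hu2, hx, hy, hp3, hq3, ha, hw, hr, hg, hp'⟩

lemma CHB_b1 (hT : Tgt N Z) (L : Lk N p q u1 u2 x y p3 q3 a w r g p' q') (hp : p ∈ Z) :
    CHB_blk N Z p = {p, q, u1, u2} := by
  obtain ⟨hq, hu1, hu2, hx, hy, hp3, hq3, ha, hw, hr, hg, hp'⟩ := CHB_mem hT L hp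
  obtain ⟨e1, e2, e3⟩ := CHB_three L.np (hT.three p hp)
  obtain ⟨f1, f2, f3⟩ := CHB_three L.nu1 (hT.three u1 hu1)
  have hd := L.d1
  have hp3q : p3 ∉ N q := by
    rw [L.nq]
    simp only [mem_insert, mem_singleton]
    have := L.pq3
    tauto
  have hqa : q ≠ a := by
    rintro rfl
    exact hp3q (by rw [L.na]; simp)
  have hqw : q ≠ w := by
    rintro rfl
    exact hp3q (by rw [L.nw]; simp)
  apply CHB_blk_eq hT.symm L.np L.nq hq f1.symm e1 hp3q
  · intro c h1 h2
    rw [L.nu1] at h1
    rw [L.nu2] at h2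
    simp only [mem_insert, mem_singleton] at h1 h2
    have := L.xy
    rcases h1 with h1 | h1 | h1
    · exact Or.inl h1
    · exact Or.inr h1
    · rcases h2 with h2 | h2 | h2
      · exact Or.inl h2
      · exact Or.inr h2
      · exact absurd (h1.symm.trans h2) this
  · intro c h1 h2
    rw [L.nu1] at h1
    rw [L.np3] at h2
    simp only [mem_insert, mem_singleton] at h1 h2
    rcases h1 with h1 | h1 | h1
    · exact h1
    · rcases h2 with h2 | h2 | h2
      · exact h2
      · exact absurd (h1.symm.trans h2) hqa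
      · exact absurd (h1.symm.trans h2) hqw
    · rcases h2 with h2 | h2 | h2
      · exact h2
      · exact absurd (h2.symm.trans h1) hd.1
      · exact absurd (h2.symm.trans h1) hd.2.2.1
  · intro c h1 h2
    rw [L.nu2] at h1
    rw [L.np3] at h2
    simp only [mem_insert, mem_singleton] at h1 h2
    rcases h1 with h1 | h1 | h1
    · exact h1
    · rcases h2 with h2 | h2 | h2
      · exact h2
      · exact absurd (h1.symm.trans h2) hqa
      · exact absurd (h1.symm.trans h2) hqw
    · rcases h2 with h2 | h2 | h2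
      · exact h2
      · exact absurd (h2.symm.trans h1) hd.2.1
      · exact absurd (h2.symm.trans h1) hd.2.2.2

lemma CHB_b2 (hT : Tgt N Z) (L : Lk N p q u1 u2 x y p3 q3 a w r g p' q') (hp : p ∈ Z) :
    CHB_blk N Z u1 = {u1, u2, p, q} := by
  obtain ⟨hq, hu1, hu2, hx, hy, hp3, hq3, ha, hw, hr, hg, hp'⟩ := CHB_mem hT L hp
  obtain ⟨e1, e2, e3⟩ := CHB_three L.np (hT.three p hp)
  obtain ⟨f1, f2, f3⟩ := CHB_three L.nu1 (hT.three u1 hu1)
  have hd := L.d1
  have hxu : x ∉ N u2 := by
    rw [L.nu2]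
    simp only [mem_insert, mem_singleton]
    have := L.xy
    tauto
  apply CHB_blk_eq hT.symm L.nu1 L.nu2 hu2 e1.symm f1 hxu
  · intro c h1 h2
    rw [L.np] at h1
    rw [L.nq] at h2
    simp only [mem_insert, mem_singleton] at h1 h2
    have := L.pq3
    rcases h1 with h1 | h1 | h1
    · exact Or.inl h1
    · exact Or.inr h1
    · rcases h2 with h2 | h2 | h2
      · exact Or.inl h2
      · exact Or.inr h2
      · exact absurd (h1.symm.trans h2) this
  · intro c h1 h2
    have k := hT.symm x c h2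
    rw [L.np] at h1
    simp only [mem_insert, mem_singleton] at h1
    rcases h1 with h1 | h1 | h1
    · exact h1
    · rw [h1] at k
      exact absurd k hxu
    · rw [h1, L.np3] at k
      simp only [mem_insert, mem_singleton] at k
      rcases k with k | k | k
      · exact absurd k.symm f2
      · exact absurd k.symm hd.1
      · exact absurd k.symm hd.2.2.1
  · intro c h1 h2
    have k := hT.symm x c h2
    rw [L.nq] at h1
    simp only [mem_insert, mem_singleton] at h1
    rcases h1 with h1 | h1 | h1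
    · exact h1
    · rw [h1] at k
      exact absurd k hxu
    · rw [h1, L.nq3] at k
      simp only [mem_insert, mem_singleton] at k
      rcases k with k | k | k
      · exact absurd k.symm f3
      · exact absurd k.symm hd.1
      · exact absurd k.symm hd.2.2.1

lemma CHB_b3 (hT : Tgt N Z) (L : Lk N p q u1 u2 x y p3 q3 a w r g p' q') (hp : p ∈ Z) :
    CHB_blk N Z a = {a, w, p3, q3} := by
  obtain ⟨hq, hu1, hu2, hx, hy, hp3, hq3, ha, hw, hr, hg, hp'⟩ := CHB_mem hT L hp
  obtain ⟨e1, e2, e3⟩ := CHB_three L.na (hT.three a ha)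
  obtain ⟨f1, f2, f3⟩ := CHB_three L.ng (hT.three g hg)
  obtain ⟨g1, g2, g3⟩ := CHB_three L.np3 (hT.three p3 hp3)
  obtain ⟨i1, i2, i3⟩ := CHB_three L.nu1 (hT.three u1 hu1)
  have hd := L.d2
  have hrw : r ∉ N w := by
    rw [L.nw]
    simp only [mem_insert, mem_singleton]
    have := L.rg
    tauto
  apply CHB_blk_eq hT.symm L.na L.nw hw g3.symm L.pq3 hrw
  · intro c h1 h2
    rw [L.np3] at h1
    rw [L.nq3] at h2
    simp only [mem_insert, mem_singleton] at h1 h2
    rcases h1 with h1 | h1 | h1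
    · rcases h2 with h2 | h2 | h2
      · exact absurd (h1.symm.trans h2) i1
      · exact Or.inl h2
      · exact Or.inr h2
    · exact Or.inl h1
    · exact Or.inr h1
  · intro c h1 h2
    rw [L.np3] at h1
    rw [L.nr] at h2
    simp only [mem_insert, mem_singleton] at h1 h2
    rcases h2 with h2 | h2 | h2
    · exact h2
    · rcases h1 with h1 | h1 | h1
      · exact absurd (h1.symm.trans h2) hd.1
      · exact h1
      · exact absurd (h1.symm.trans h2) f1
    · rcases h1 with h1 | h1 | h1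
      · exact absurd (h1.symm.trans h2) hd.2.1
      · exact h1
      · exact absurd (h1.symm.trans h2) f2
  · intro c h1 h2
    rw [L.nq3] at h1
    rw [L.nr] at h2
    simp only [mem_insert, mem_singleton] at h1 h2
    rcases h2 with h2 | h2 | h2
    · exact h2
    · rcases h1 with h1 | h1 | h1
      · exact absurd (h1.symm.trans h2) hd.2.2.1
      · exact h1
      · exact absurd (h1.symm.trans h2) f1
    · rcases h1 with h1 | h1 | h1
      · exact absurd (h1.symm.trans h2) hd.2.2.2
      · exact h1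
      · exact absurd (h1.symm.trans h2) f2

lemma CHB_b4 (hT : Tgt N Z) (L : Lk N p q u1 u2 x y p3 q3 a w r g p' q') (hp : p ∈ Z) :
    CHB_blk N Z p3 = {p3, q3, a, w} := by
  obtain ⟨hq, hu1, hu2, hx, hy, hp3, hq3, ha, hw, hr, hg, hp'⟩ := CHB_mem hT L hp
  obtain ⟨e1, e2, e3⟩ := CHB_three L.nq (hT.three q hq)
  obtain ⟨g1, g2, g3⟩ := CHB_three L.np3 (hT.three p3 hp3)
  obtain ⟨i1, i2, i3⟩ := CHB_three L.nu1 (hT.three u1 hu1)
  have hd := L.d3
  have n1 : N p3 = {a, w, p} := by
    rw [L.np3]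
    ext c
    simp only [mem_insert, mem_singleton]
    tauto
  have n2 : N q3 = {a, w, q} := by
    rw [L.nq3]
    ext c
    simp only [mem_insert, mem_singleton]
    tauto
  have hpq : p ∉ N q3 := by
    rw [L.nq3]
    simp only [mem_insert, mem_singleton]
    tauto
  apply CHB_blk_eq hT.symm n1 n2 hq3 L.pq3.symm g3 hpq
  · intro c h1 h2
    rw [L.na] at h1
    rw [L.nw] at h2
    simp only [mem_insert, mem_singleton] at h1 h2
    rcases h1 with h1 | h1 | h1
    · exact Or.inl h1
    · exact Or.inr h1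
    · rcases h2 with h2 | h2 | h2
      · exact Or.inl h2
      · exact Or.inr h2
      · exact absurd (h1.symm.trans h2) L.rg
  · intro c h1 h2
    rw [L.na] at h1
    rw [L.np] at h2
    simp only [mem_insert, mem_singleton] at h1 h2
    rcases h1 with h1 | h1 | h1
    · exact h1
    · rcases h2 with h2 | h2 | h2
      · exact absurd (h2.symm.trans h1) e2
      · exact absurd (h2.symm.trans h1) e3
      · exact h2
    · rcases h2 with h2 | h2 | h2
      · exact absurd (h1.symm.trans h2) hd.1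
      · exact absurd (h1.symm.trans h2) hd.2.1
      · exact h2
  · intro c h1 h2
    rw [L.nw] at h1
    rw [L.np] at h2
    simp only [mem_insert, mem_singleton] at h1 h2
    rcases h1 with h1 | h1 | h1
    · exact h1
    · rcases h2 with h2 | h2 | h2
      · exact absurd (h2.symm.trans h1) e2
      · exact absurd (h2.symm.trans h1) e3
      · exact h2
    · rcases h2 with h2 | h2 | h2
      · exact absurd (h1.symm.trans h2) hd.2.2.1
      · exact absurd (h1.symm.trans h2) hd.2.2.2
      · exact h2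

/-- the first block of a link -/
lemma CHB_B1 (hT : Tgt N Z) (L : Lk N p q u1 u2 x y p3 q3 a w r g p' q') (hp : p ∈ Z) :
    (∀ v ∈ ({p, q, u1, u2} : Finset V), CHB_blk N Z v = {p, q, u1, u2}) ∧
      ({p, q, u1, u2} : Finset V).card = 4 ∧ ({p, q, u1, u2} : Finset V) ⊆ Z := by
  obtain ⟨hq, hu1, hu2, hx, hy, hp3, hq3, ha, hw, hr, hg, hp'⟩ := CHB_mem hT L hp
  refine ⟨?_, ?_, ?_⟩
  · intro v hv
    simp only [mem_insert, mem_singleton] at hv
    rcases hv with hv | hv | hv | hv
    · rw [hv, CHB_b1 hT L hp]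
    · rw [hv, CHB_b1 hT (CHB_s1 L) hq]
      ext c
      simp only [mem_insert, mem_singleton]
      tauto
    · rw [hv, CHB_b2 hT L hp]
      ext c
      simp only [mem_insert, mem_singleton]
      tauto
    · rw [hv, CHB_b2 hT (CHB_s2 L) hp]
      ext c
      simp only [mem_insert, mem_singleton]
      tauto
  · obtain ⟨e1, e2, e3⟩ := CHB_three L.np (hT.three p hp)
    obtain ⟨f1, f2, f3⟩ := CHB_three L.nu1 (hT.three u1 hu1)
    have k1 : p ≠ u1 := by
      intro h
      have h1 : p ∈ N u1 := by rw [L.nu1]; simp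
      rw [← h] at h1
      exact hT.irr p h1
    have k2 : p ≠ u2 := by
      intro h
      have h1 : p ∈ N u2 := by rw [L.nu2]; simp
      rw [← h] at h1
      exact hT.irr p h1
    have k3 : q ≠ u1 := by
      intro h
      have h1 : q ∈ N u1 := by rw [L.nu1]; simp
      rw [← h] at h1
      exact hT.irr q h1
    have k4 : q ≠ u2 := by
      intro h
      have h1 : q ∈ N u2 := by rw [L.nu2]; simp
      rw [← h] at h1
      exact hT.irr q h1
    rw [card_insert_of_notMem, card_insert_of_notMem, card_pair e1]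
    · simp only [mem_insert, mem_singleton]
      tauto
    · simp only [mem_insert, mem_singleton]
      tauto
  · intro v hv
    simp only [mem_insert, mem_singleton] at hv
    rcases hv with hv | hv | hv | hv <;> rw [hv] <;> assumption

/-- the second block of a link -/
lemma CHB_B2 (hT : Tgt N Z) (L : Lk N p q u1 u2 x y p3 q3 a w r g p' q') (hp : p ∈ Z) :
    (∀ v ∈ ({a, w, p3, q3} : Finset V), CHB_blk N Z v = {a, w, p3, q3}) ∧
      ({a, w, p3, q3} : Finset V).card = 4 ∧ ({a, w, p3, q3} : Finset V) ⊆ Z := by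
  obtain ⟨hq, hu1, hu2, hx, hy, hp3, hq3, ha, hw, hr, hg, hp'⟩ := CHB_mem hT L hp
  refine ⟨?_, ?_, ?_⟩
  · intro v hv
    simp only [mem_insert, mem_singleton] at hv
    rcases hv with hv | hv | hv | hv
    · rw [hv, CHB_b3 hT L hp]
    · rw [hv, CHB_b3 hT (CHB_s3 L) hp]
      ext c
      simp only [mem_insert, mem_singleton]
      tauto
    · rw [hv, CHB_b4 hT L hp]
      ext c
      simp only [mem_insert, mem_singleton]
      tauto
    · rw [hv, CHB_b4 hT (CHB_s1 L) hq]
      ext c
      simp only [mem_insert, mem_singleton]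
      tauto
  · obtain ⟨e1, e2, e3⟩ := CHB_three L.np3 (hT.three p3 hp3)
    have k1 : a ≠ p3 := by
      intro h
      have h1 : a ∈ N p3 := by rw [L.np3]; simp
      rw [← h] at h1
      exact hT.irr a h1
    have k2 : a ≠ q3 := by
      intro h
      have h1 : a ∈ N q3 := by rw [L.nq3]; simp
      rw [← h] at h1
      exact hT.irr a h1
    have k3 : w ≠ p3 := by
      intro h
      have h1 : w ∈ N p3 := by rw [L.np3]; simp
      rw [← h] at h1
      exact hT.irr w h1
    have k4 : w ≠ q3 := by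
      intro h
      have h1 : w ∈ N q3 := by rw [L.nq3]; simp
      rw [← h] at h1
      exact hT.irr w h1
    rw [card_insert_of_notMem, card_insert_of_notMem, card_pair L.pq3]
    · simp only [mem_insert, mem_singleton]
      tauto
    · simp only [mem_insert, mem_singleton]
      tauto
  · intro v hv
    simp only [mem_insert, mem_singleton] at hv
    rcases hv with hv | hv | hv | hv <;> rw [hv] <;> assumption

/-- a common neighbour of `p` and `q` is `u1` or `u2` -/
lemma CHB_c2 (hT : Tgt N Z) (L : Lk N p q u1 u2 x y p3 q3 a w r g p' q') {c : V}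
    (h1 : p ∈ N c) (h2 : q ∈ N c) : c = u1 ∨ c = u2 := by
  have k1 := hT.symm c p h1
  have k2 := hT.symm c q h2
  rw [L.np] at k1
  rw [L.nq] at k2
  simp only [mem_insert, mem_singleton] at k1 k2
  rcases k1 with k1 | k1 | k1
  · exact Or.inl k1
  · exact Or.inr k1
  · rcases k2 with k2 | k2 | k2
    · exact Or.inl k2
    · exact Or.inr k2
    · exact absurd (k1.symm.trans k2) L.pq3

end

lemma CHB_good {V : Type} [DecidableEq V] {N : V → Finset V} {Z : Finset V} (hT : Tgt N Z)
    {p q : V} (h : Good N Z p q) : p ∈ Z := by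
  obtain ⟨S, u1, u2, u3, x, y, z, hD⟩ := h
  have h1 : u1 ∈ Z := (mem_sdiff.1 hD.m1).1
  exact hT.closed u1 h1 (by rw [hD.n1]; simp)

/-- the blocks -/
def CHB_Bl {V : Type} [DecidableEq V] (N : V → Finset V) (Z B : Finset V) : Prop :=
  ∃ p q u1 u2 x y p3 q3 a w r g p' q', Good N Z p q ∧
    Lk N p q u1 u2 x y p3 q3 a w r g p' q' ∧ Good N Z p' q' ∧
    (B = {p, q, u1, u2} ∨ B = {a, w, p3, q3})

theorem stmt_CHB : Stmt_EXB → Stmt_CHA → Stmt_CHB := by
  intro hEXB hCHA V _ N Z hT hex
  classical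
  obtain ⟨Bl, hBl⟩ : ∃ Bl : Finset (Finset V), Bl = Z.powerset.filter (fun B => CHB_Bl N Z B) :=
    ⟨_, rfl⟩
  have hprop : ∀ B, CHB_Bl N Z B → (∀ v ∈ B, CHB_blk N Z v = B) ∧ B.card = 4 ∧ B ⊆ Z := by
    rintro B ⟨p, q, u1, u2, x, y, p3, q3, a, w, r, g, p', q', hg, L, hg', hB | hB⟩
    · rw [hB]
      exact CHB_B1 hT L (CHB_good hT hg)
    · rw [hB]
      exact CHB_B2 hT L (CHB_good hT hg)
  have hmem : ∀ B, B ∈ Bl ↔ CHB_Bl N Z B := by
    intro B
    rw [hBl, mem_filter, mem_powerset]
    exact ⟨fun h => h.2, fun h => ⟨(hprop B h).2.2, h⟩⟩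
  have hinT : ∀ v B, CHB_Bl N Z B → v ∈ B → v ∈ Bl.biUnion id := by
    intro v B hB hv
    exact mem_biUnion.2 ⟨B, (hmem B).2 hB, hv⟩
  -- the elements of a link
  have hlink : ∀ p q u1 u2 x y p3 q3 a w r g p' q', Good N Z p q →
      Lk N p q u1 u2 x y p3 q3 a w r g p' q' → Good N Z p' q' →
      p ∈ Bl.biUnion id ∧ q ∈ Bl.biUnion id ∧ u1 ∈ Bl.biUnion id ∧ u2 ∈ Bl.biUnion id ∧
      a ∈ Bl.biUnion id ∧ w ∈ Bl.biUnion id ∧ p3 ∈ Bl.biUnion id ∧ q3 ∈ Bl.biUnion id := by
    intro p q u1 u2 x y p3 q3 a w r g p' q' hg L hg'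
    have b1 : CHB_Bl N Z {p, q, u1, u2} :=
      ⟨p, q, u1, u2, x, y, p3, q3, a, w, r, g, p', q', hg, L, hg', Or.inl rfl⟩
    have b2 : CHB_Bl N Z {a, w, p3, q3} :=
      ⟨p, q, u1, u2, x, y, p3, q3, a, w, r, g, p', q', hg, L, hg', Or.inr rfl⟩
    exact ⟨hinT _ _ b1 (by simp), hinT _ _ b1 (by simp), hinT _ _ b1 (by simp),
      hinT _ _ b1 (by simp), hinT _ _ b2 (by simp), hinT _ _ b2 (by simp),
      hinT _ _ b2 (by simp), hinT _ _ b2 (by simp)⟩
  refine ⟨Bl.biUnion id, ?_, ?_, ?_, ?_⟩
  · intro v hv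
    obtain ⟨B, hB, hvB⟩ := mem_biUnion.1 hv
    exact (hprop B ((hmem B).1 hB)).2.2 hvB
  · obtain ⟨p, q, hg⟩ := hex
    obtain ⟨u1, u2, x, y, p3, q3, a, w, r, g, p', q', L, hg'⟩ := hEXB N Z hT p q hg
    exact ⟨p, (hlink p q u1 u2 x y p3 q3 a w r g p' q' hg L hg').1⟩
  · intro v hv
    obtain ⟨B, hB, hvB⟩ := mem_biUnion.1 hv
    obtain ⟨p, q, u1, u2, x, y, p3, q3, a, w, r, g, p', q', hg, L, hg', hB'⟩ := (hmem B).1 hB
    obtain ⟨tp, tq, tu1, tu2, ta, tw, tp3, tq3⟩ :=
      hlink p q u1 u2 x y p3 q3 a w r g p' q' hg L hg'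
    have hpZ := CHB_good hT hg
    obtain ⟨hq, hu1, hu2, -⟩ := CHB_mem hT L hpZ
    -- the next link
    obtain ⟨u1', u2', x', y', p3', q3', a', w', r', g', p'', q'', L', hg''⟩ :=
      hEXB N Z hT p' q' hg'
    obtain ⟨-, -, tu1', tu2', -⟩ :=
      hlink p' q' u1' u2' x' y' p3' q3' a' w' r' g' p'' q'' hg' L' hg''
    have tr : r ∈ Bl.biUnion id := by
      rcases CHB_c2 hT L' (c := r) (by rw [L.nr]; simp) (by rw [L.nr]; simp) with h | h
      · rw [h]; exact tu1'
      · rw [h]; exact tu2'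
    have tg : g ∈ Bl.biUnion id := by
      rcases CHB_c2 hT L' (c := g) (by rw [L.ng]; simp) (by rw [L.ng]; simp) with h | h
      · rw [h]; exact tu1'
      · rw [h]; exact tu2'
    -- the previous link
    obtain ⟨p0, q0, v1, v2, x0, y0, p03, q03, a0, w0, r0, g0, hg0, L0⟩ := hCHA N Z hT p q hg
    obtain ⟨-, -, -, -, ta0, tw0, -, -⟩ :=
      hlink p0 q0 v1 v2 x0 y0 p03 q03 a0 w0 r0 g0 p q hg0 L0 hg
    obtain ⟨f1, f2, f3⟩ := CHB_three L.nu1 (hT.three u1 hu1)
    obtain ⟨e1, e2, e3⟩ := CHB_three L.nu2 (hT.three u2 hu2)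
    have hr0 : ∀ c, c ≠ p → c ≠ q → c ∈ N r0 → c ∈ Bl.biUnion id := by
      intro c h1 h2 h3
      rw [L0.nr] at h3
      simp only [mem_insert, mem_singleton] at h3
      rcases h3 with h3 | h3 | h3
      · rw [h3]; exact ta0
      · exact absurd h3 h1
      · exact absurd h3 h2
    have hg0' : ∀ c, c ≠ p → c ≠ q → c ∈ N g0 → c ∈ Bl.biUnion id := by
      intro c h1 h2 h3
      rw [L0.ng] at h3
      simp only [mem_insert, mem_singleton] at h3
      rcases h3 with h3 | h3 | h3
      · rw [h3]; exact tw0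
      · exact absurd h3 h1
      · exact absurd h3 h2
    have cr := CHB_c2 hT L (c := r0) (by rw [L0.nr]; simp) (by rw [L0.nr]; simp)
    have cg := CHB_c2 hT L (c := g0) (by rw [L0.ng]; simp) (by rw [L0.ng]; simp)
    have hxm : x ∈ N u1 := by rw [L.nu1]; simp
    have hym : y ∈ N u2 := by rw [L.nu2]; simp
    have txy : x ∈ Bl.biUnion id ∧ y ∈ Bl.biUnion id := by
      rcases cr with cr | cr
      · rcases cg with cg | cg
        · exact absurd (cr.trans cg.symm) L0.rg
        · exact ⟨hr0 x f2.symm f3.symm (by rw [cr]; exact hxm),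
            hg0' y e2.symm e3.symm (by rw [cg]; exact hym)⟩
      · rcases cg with cg | cg
        · exact ⟨hg0' x f2.symm f3.symm (by rw [cg]; exact hxm),
            hr0 y e2.symm e3.symm (by rw [cr]; exact hym)⟩
        · exact absurd (cr.trans cg.symm) L0.rg
    intro c hc
    replace hvB : v ∈ B := hvB
    rcases hB' with hB' | hB'
    · rw [hB'] at hvB
      simp only [mem_insert, mem_singleton] at hvB
      rcases hvB with hv | hv | hv | hv
      · rw [hv, L.np] at hc
        simp only [mem_insert, mem_singleton] at hc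
        rcases hc with hc | hc | hc <;> rw [hc] <;> assumption
      · rw [hv, L.nq] at hc
        simp only [mem_insert, mem_singleton] at hc
        rcases hc with hc | hc | hc <;> rw [hc] <;> assumption
      · rw [hv, L.nu1] at hc
        simp only [mem_insert, mem_singleton] at hc
        rcases hc with hc | hc | hc
        · rw [hc]; exact tp
        · rw [hc]; exact tq
        · rw [hc]; exact txy.1
      · rw [hv, L.nu2] at hc
        simp only [mem_insert, mem_singleton] at hc
        rcases hc with hc | hc | hc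
        · rw [hc]; exact tp
        · rw [hc]; exact tq
        · rw [hc]; exact txy.2
    · rw [hB'] at hvB
      simp only [mem_insert, mem_singleton] at hvB
      rcases hvB with hv | hv | hv | hv
      · rw [hv, L.na] at hc
        simp only [mem_insert, mem_singleton] at hc
        rcases hc with hc | hc | hc <;> rw [hc] <;> assumption
      · rw [hv, L.nw] at hc
        simp only [mem_insert, mem_singleton] at hc
        rcases hc with hc | hc | hc <;> rw [hc] <;> assumption
      · rw [hv, L.np3] at hc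
        simp only [mem_insert, mem_singleton] at hc
        rcases hc with hc | hc | hc <;> rw [hc] <;> assumption
      · rw [hv, L.nq3] at hc
        simp only [mem_insert, mem_singleton] at hc
        rcases hc with hc | hc | hc <;> rw [hc] <;> assumption
  · have hdis : ∀ B ∈ Bl, ∀ B' ∈ Bl, B ≠ B' → Disjoint (id B) (id B') := by
      intro B hB B' hB' hne
      rw [disjoint_left]
      intro v hv hv'
      apply hne
      rw [← (hprop B ((hmem B).1 hB)).1 v hv, (hprop B' ((hmem B').1 hB')).1 v hv']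
    rw [card_biUnion hdis]
    apply dvd_sum
    intro B hB
    have h4 := (hprop B ((hmem B).1 hB)).2.1
    change 4 ∣ B.card
    rw [h4]

end Pool.Agent.Work.MP_1ce445_n32
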