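import Pool.Agent.Work.MP_1ce445_n32.Interface

/-!
Block CUB: the number of the vertices of a tight cubic system is divisible by 4.
-/

set_option autoImplicit false

namespace Pool.Agent.Work.MP_1ce445_n32

open Finset Pool.Agent.Work.MP_1ce445_co_56 Pool.Agent.Work.MP_1ce445_lin

theorem CUB_max {V : Type} [DecidableEq V] (N : V → Finset V) (Z : Finset V) :
    ∃ S, MaxPk N Z S := by
  classical
  obtain ⟨S, hS, hmax⟩ := exists_max_image (Z.powerset.filter (fun S => Pk N Z S)) Finset.card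
    ⟨∅, by
      rw [mem_filter, mem_powerset]
      refine ⟨empty_subset _, empty_subset _, ?_⟩
      intro a ha
      simp at ha⟩
  rw [mem_filter] at hS
  refine ⟨S, hS.2, fun S' hS' => hmax S' ?_⟩
  rw [mem_filter, mem_powerset]
  exact ⟨hS'.1, hS'⟩

theorem CUB_sdiff {V : Type} [DecidableEq V] {N : V → Finset V} {Z T : Finset V} (h : Tgt N Z)
    (hT : ∀ v ∈ T, N v ⊆ T) : Tgt N (Z \ T) where
  symm := h.symm
  irr := h.irr
  closed := by
    intro v hv w hw
    rw [mem_sdiff] at hv ⊢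
    refine ⟨h.closed v hv.1 hw, fun hwT => hv.2 ?_⟩
    exact hT w hwT (h.symm v w hw)
  three := fun v hv => h.three v (mem_sdiff.1 hv).1
  star := by
    intro X hX
    refine le_trans (Nat.add_le_add_left (card_le_card ?_) _) (h.star X (hX.trans sdiff_subset))
    exact filter_subset_filter _ sdiff_subset

theorem stmt_CUB (h1 : Stmt_PKF) (h2 : Stmt_DTL) (h3 : Stmt_CHB) : Stmt_CUB := by
  intro V _ N Z
  induction hn : Z.card using Nat.strong_induction_on generalizing Z with
  | _ n ih =>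
    intro h
    obtain ⟨S, hS⟩ := CUB_max N Z
    rcases (E2 N Z S).eq_empty_or_nonempty with hE | ⟨i, hi⟩
    · obtain ⟨-, -, -, h4⟩ := h1 N Z S h hS
      rw [hE, card_empty] at h4
      omega
    · obtain ⟨u1, u2, u3, p, q, x, y, z, hD, -⟩ := h2 N Z S h hS i hi
      obtain ⟨T, hTZ, ⟨v, hv⟩, hcl, h4⟩ := h3 N Z h ⟨p, q, S, u1, u2, u3, x, y, z, hD⟩
      have h5 : (Z \ T).card + T.card = Z.card := card_sdiff_add_card_eq_card hTZ
      have h6 : 0 < T.card := card_pos.2 ⟨v, hv⟩
      have h7 := ih (Z \ T).card (by omega) (Z \ T) rfl (CUB_sdiff h hcl)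
      rw [← hn, ← h5]
      exact Nat.dvd_add h7 h4

end Pool.Agent.Work.MP_1ce445_n32
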