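import Pool.Agent.Work.MP_1ce445_n32.Interface
import Pool.Agent.Work.MP_1ce445_low.STE
import Pool.Agent.Work.MP_1ce445_low.INT
import Pool.Agent.Work.MP_1ce445_low.BAS0
import Pool.Agent.Work.MP_1ce445_low.DET

/-!
Block DTC (MP_1ce445_co): detachment with the right numbers for every colour.
-/

namespace Pool.Agent.Work.MP_1ce445_n32

open Finset Pool.Agent.Work.MP_1ce445_co_56 Pool.Agent.Work.MP_1ce445_lin
open Pool.Agent.Work.MP_1ce445_low (Outline etaS MS det_card det_getD_self det_getD_ne bas0_ex)

theorem DTC_base (C : Type) [Fintype C] [DecidableEq C] (k : ℕ) (η : C → ℕ) (M : Fin k → C → C → ℕ)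
    (hO : Outline k η M) (h1 : ∀ a, η a = 1) : ∃ μ : Fin k → C → C, RlC k η M id μ := by
  have hrow : ∀ i a, ∃ b, ∀ c, M i a c = if c = b then 1 else 0 := by
    intro i a
    apply bas0_ex
    rw [hO.row i a, h1 a]
  choose μ hμ using hrow
  have hself : ∀ i a, M i a (μ i a) = 1 := by
    intro i a
    rw [hμ i a]; simp
  have heq : ∀ i a c, M i a c ≠ 0 → c = μ i a := by
    intro i a c hc
    by_contra hne
    rw [hμ i a c, if_neg hne] at hc
    exact hc rfl
  refine ⟨μ, ?_, ?_, ?_, ?_, ?_⟩
  · intro a
    rw [h1 a]
    have : univ.filter (fun v : C => (id : C → C) v = a) = {a} := by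
      ext v; simp
    rw [this]; simp
  · intro i v
    symm
    apply heq
    rw [hO.symm i (μ i v) v, hself i v]
    exact one_ne_zero
  · intro i v hv
    have h2 := hO.diag v
    rw [h1 v] at h2
    have h3 : ∑ i, M i v v = 0 := by omega
    have h4 := (Finset.sum_eq_zero_iff.mp h3) i (Finset.mem_univ i)
    have h5 := hself i v
    rw [hv, h4] at h5
    exact absurd h5 (by norm_num)
  · intro i j v hij
    by_contra hne
    have hv : v ≠ μ i v := by
      intro hv
      have h2 := hO.diag v
      rw [h1 v] at h2
      have h3 : ∑ i, M i v v = 0 := by omega
      have h4 := (Finset.sum_eq_zero_iff.mp h3) i (Finset.mem_univ i)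
      have h5 := hself i v
      rw [← hv, h4] at h5
      exact absurd h5 (by norm_num)
    have h2 := hO.off v (μ i v) hv
    rw [h1, h1] at h2
    have h3 : M i v (μ i v) + M j v (μ i v) ≤ ∑ i', M i' v (μ i v) := by
      have : ∑ i' ∈ ({i, j} : Finset (Fin k)), M i' v (μ i v) ≤ ∑ i', M i' v (μ i v) :=
        Finset.sum_le_sum_of_subset (Finset.subset_univ _)
      rw [Finset.sum_pair hne] at this
      exact this
    have h4 := hself i v
    have h5 : M j v (μ i v) = 1 := by rw [hij]; exact hself j v
    omega
  · intro i a b
    rw [hμ i a b]
    by_cases hb : b = μ i a
    · rw [if_pos hb]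
      have : univ.filter (fun v : C => (id : C → C) v = a ∧ (id : C → C) (μ i v) = b) = {a} := by
        ext v
        simp only [id, mem_filter, mem_univ, true_and, mem_singleton]
        constructor
        · exact fun h => h.1
        · intro h; subst h; exact ⟨rfl, hb.symm⟩
      rw [this]; simp
    · rw [if_neg hb]
      have : univ.filter (fun v : C => (id : C → C) v = a ∧ (id : C → C) (μ i v) = b) = ∅ := by
        ext v
        simp only [id, mem_filter, mem_univ, true_and, notMem_empty, iff_false, not_and]
        intro h h'
        subst h
        exact hb h'.symm
      rw [this]; simp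

theorem stmt_DTC : Stmt_DTC := by
  have hSTE : Pool.Agent.Work.MP_1ce445_low.Stmt_STE :=
    Pool.Agent.Work.MP_1ce445_low.stmt_STE Pool.Agent.Work.MP_1ce445_low.p_INT
  have main : ∀ N : ℕ, ∀ (C : Type) [Fintype C] [DecidableEq C] (k : ℕ) (η : C → ℕ) (M : Fin k → C → C → ℕ),
      ∑ a, (η a - 1) = N → Outline k η M →
      ∃ (V : Type) (_ : Fintype V) (_ : DecidableEq V) (cl : V → C) (μ : Fin k → V → V), RlC k η M cl μ := by
    intro N
    induction N with
    | zero =>
      intro C _ _ k η M hN hO
      have h1 : ∀ a, η a = 1 := by
        intro a
        have h2 := (Finset.sum_eq_zero_iff.mp hN) a (Finset.mem_univ a)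
        have h3 := hO.pos a
        omega
      obtain ⟨μ, hμ⟩ := DTC_base C k η M hO h1
      exact ⟨C, inferInstance, inferInstance, id, μ, hμ⟩
    | succ N ih =>
      intro C _ _ k η M hN hO
      obtain ⟨a, ha⟩ : ∃ a, 2 ≤ η a := by
        by_contra hcon
        push Not at hcon
        have : ∑ a, (η a - 1) = 0 := by
          apply Finset.sum_eq_zero
          intro a _
          have := hcon a
          omega
        omega
      obtain ⟨f, hO', hf1, hf2⟩ := hSTE C k η M a hO ha
      have hsum : ∑ o, (etaS a η o - 1) = N := by
        rw [Fintype.sum_option]
        have e1 : etaS a η none - 1 = 0 := rfl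
        rw [e1, zero_add]
        have e2 : ∀ b : C, etaS a η (some b) - 1 + (if b = a then 1 else 0) = η b - 1 := by
          intro b
          by_cases hb : b = a
          · subst hb
            simp only [etaS, if_true]
            omega
          · simp only [etaS, if_neg hb]
            omega
        have e3 : ∑ b, (etaS a η (some b) - 1) + 1 = N + 1 := by
          rw [← hN, ← Finset.sum_congr rfl (fun b _ => e2 b), Finset.sum_add_distrib]
          simp
        omega
      obtain ⟨V, iV, dV, cl', μ, hR⟩ := ih (Option C) k (etaS a η) (MS a f M) hsum hO'
      letI := iV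
      letI := dV
      refine ⟨V, iV, dV, fun v => (cl' v).getD a, μ, ?_⟩
      -- counts
      have hc : ∀ i, ∀ o o' : Option C, ∑ v, (if cl' v = o then 1 else 0) * (if cl' (μ i v) = o' then 1 else 0)
          = MS a f M i o o' := by
        intro i o o'
        rw [← hR.cnt i o o', det_card]
      have hc1 : ∀ o : Option C, ∑ v, (if cl' v = o then 1 else 0) = etaS a η o := by
        intro o
        rw [← hR.card o, Finset.card_filter]
      refine ⟨?_, hR.inv, hR.ne, hR.dis, ?_⟩
      · intro b
        rw [Finset.card_filter]
        by_cases hb : b = a
        · subst hb
          rw [Finset.sum_congr rfl (fun v _ => det_getD_self b (cl' v)), Finset.sum_add_distrib, hc1, hc1]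
          simp only [etaS, if_true]
          omega
        · rw [Finset.sum_congr rfl (fun v _ => det_getD_ne a b hb (cl' v)), hc1]
          simp only [etaS, if_neg hb]
      · intro i b b'
        rw [det_card]
        by_cases hb : b = a
        · subst hb
          by_cases hb' : b' = b
          · subst hb'
            have h1 : ∀ v, (if (cl' v).getD b' = b' then 1 else 0 : ℕ) * (if (cl' (μ i v)).getD b' = b' then 1 else 0)
                = (if cl' v = none then 1 else 0) * (if cl' (μ i v) = none then 1 else 0)
                + (if cl' v = none then 1 else 0) * (if cl' (μ i v) = some b' then 1 else 0)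
                + (if cl' v = some b' then 1 else 0) * (if cl' (μ i v) = none then 1 else 0)
                + (if cl' v = some b' then 1 else 0) * (if cl' (μ i v) = some b' then 1 else 0) := by
              intro v
              rw [det_getD_self, det_getD_self]
              ring
            rw [Finset.sum_congr rfl (fun v _ => h1 v)]
            simp only [Finset.sum_add_distrib]
            rw [hc, hc, hc, hc]
            have h2 := hf2 i
            simp only [MS, if_true]
            by_cases h3 : f i = b'
            · have := h2 h3
              simp only [if_pos h3]
              omega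
            · simp only [if_neg h3]
              omega
          · have h1 : ∀ v, (if (cl' v).getD b = b then 1 else 0 : ℕ) * (if (cl' (μ i v)).getD b = b' then 1 else 0)
                = (if cl' v = none then 1 else 0) * (if cl' (μ i v) = some b' then 1 else 0)
                + (if cl' v = some b then 1 else 0) * (if cl' (μ i v) = some b' then 1 else 0) := by
              intro v
              rw [det_getD_self, det_getD_ne b b' hb']
              ring
            rw [Finset.sum_congr rfl (fun v _ => h1 v)]
            simp only [Finset.sum_add_distrib]
            rw [hc, hc]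
            have h2 := hf1 i
            simp only [MS, if_true, if_neg hb']
            by_cases h3 : f i = b'
            · rw [h3] at h2
              simp only [if_pos h3]
              omega
            · simp only [if_neg h3]
              omega
        · by_cases hb' : b' = a
          · subst hb'
            have h1 : ∀ v, (if (cl' v).getD b' = b then 1 else 0 : ℕ) * (if (cl' (μ i v)).getD b' = b' then 1 else 0)
                = (if cl' v = some b then 1 else 0) * (if cl' (μ i v) = none then 1 else 0)
                + (if cl' v = some b then 1 else 0) * (if cl' (μ i v) = some b' then 1 else 0) := by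
              intro v
              rw [det_getD_self, det_getD_ne b' b hb]
              ring
            rw [Finset.sum_congr rfl (fun v _ => h1 v)]
            simp only [Finset.sum_add_distrib]
            rw [hc, hc]
            have h2 := hf1 i
            have h4 := hO.symm i b b'
            simp only [MS, if_true, if_neg hb]
            by_cases h3 : f i = b
            · rw [h3] at h2
              simp only [if_pos h3]
              omega
            · simp only [if_neg h3]
              omega
          · have h1 : ∀ v, (if (cl' v).getD a = b then 1 else 0 : ℕ) * (if (cl' (μ i v)).getD a = b' then 1 else 0)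
                = (if cl' v = some b then 1 else 0) * (if cl' (μ i v) = some b' then 1 else 0) := by
              intro v
              rw [det_getD_ne a b hb, det_getD_ne a b' hb']
            rw [Finset.sum_congr rfl (fun v _ => h1 v)]
            rw [hc]
            simp only [MS, if_neg hb, if_neg hb']
  intro C _ _ k η M hO
  exact main _ C k η M rfl hO

end Pool.Agent.Work.MP_1ce445_n32
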