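import Pool.Agent.Work.MP_1ce445_n32.Interface

/-!
Block DTL: in a tight cubic system every edge of the multigraph of a maximal packing is in a double triangle.
-/

set_option autoImplicit false

namespace Pool.Agent.Work.MP_1ce445_n32

open Finset Pool.Agent.Work.MP_1ce445_co_56 Pool.Agent.Work.MP_1ce445_lin

/-- no twins -/
theorem DTL_twin {V : Type} [DecidableEq V] {N : V → Finset V} {Z : Finset V} (h : Tgt N Z)
    {u v : V} (hu : u ∈ Z) (hv : v ∈ Z) (huv : u ≠ v) (hN : N u = N v) : False := by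
  have h1 := h.star {u} (singleton_subset_iff.2 hu)
  rw [singleton_biUnion, h.three u hu, card_singleton] at h1
  have h2 : ({u, v} : Finset V) ⊆ Z.filter (fun w => N w ⊆ N u) := by
    intro w hw
    rw [mem_insert, mem_singleton] at hw
    rw [mem_filter]
    rcases hw with rfl | rfl
    · exact ⟨hu, Subset.refl _⟩
    · exact ⟨hv, by rw [hN]⟩
  have h3 := card_le_card h2
  rw [card_pair huv] at h3
  omega

theorem DTL_three {V : Type} [DecidableEq V] {A : Finset V} {a b c : V} (hA : A.card = 3)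
    (ha : a ∈ A) (hb : b ∈ A) (hc : c ∈ A) (hab : a ≠ b) (hac : a ≠ c) (hbc : b ≠ c) :
    A = {a, b, c} := by
  symm
  refine eq_of_subset_of_card_le ?_ ?_
  · intro w hw
    simp only [mem_insert, mem_singleton] at hw
    rcases hw with rfl | rfl | rfl <;> assumption
  · rw [hA, card_eq_three.2 ⟨a, b, c, hab, hac, hbc, rfl⟩]

theorem DTL_Un {V : Type} [DecidableEq V] {N : V → Finset V} {Z S : Finset V} {u : V}
    (hu : u ∈ Un N Z S) : u ∈ Z ∧ ∀ s ∈ S, u ∉ N s := by
  unfold Un at hu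
  rw [mem_sdiff, mem_biUnion] at hu
  exact ⟨hu.1, fun s hs hus => hu.2 ⟨s, hs, hus⟩⟩

/-- the matching has at most a quarter of the edges -/
theorem DTL_le (h1 : Stmt_PKF) {V : Type} [DecidableEq V] {N : V → Finset V} {Z S M : Finset V}
    (h : Tgt N Z) (hS : MaxPk N Z S) (hM : M ⊆ E2 N Z S)
    (hm : Mg (fun w => N w ∩ Un N Z S) M) : 4 * M.card ≤ (E2 N Z S).card := by
  obtain ⟨-, -, hp2, hp3⟩ := h1 N Z S h hS
  set U := Un N Z S with hU
  set B := M.biUnion (fun w => N w ∩ U) with hB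
  have hBU : B ⊆ U := by
    intro w hw
    obtain ⟨v, -, hv⟩ := mem_biUnion.1 hw
    exact (mem_inter.1 hv).2
  have hBc : B.card = 2 * M.card := by
    rw [hB, card_biUnion (fun i hi j hj hij => hm i hi j hj hij)]
    rw [sum_congr rfl (g := fun _ => 2), sum_const, smul_eq_mul, mul_comm]
    intro w hw
    have := hM hw
    unfold E2 at this
    exact (mem_filter.1 this).2
  have hne : ∀ u ∈ Z, ∃ w, w ∈ N u := by
    intro u hu
    have h4 : (N u).Nonempty := by
      rw [← card_pos, h.three u hu]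
      norm_num
    exact h4
  have hch : ∀ u : V, ∃ w, u ∈ Z → w ∈ N u := by
    intro u
    by_cases hu : u ∈ Z
    · obtain ⟨w, hw⟩ := hne u hu
      exact ⟨w, fun _ => hw⟩
    · exact ⟨u, fun h => absurd h hu⟩
  choose f hf using hch
  set T := (U \ B).image f with hT
  have hTc : T.card ≤ U.card - 2 * M.card := by
    refine card_image_le.trans ?_
    rw [card_sdiff_of_subset hBU, hBc]
  have hBle : 2 * M.card ≤ U.card := by
    rw [← hBc]
    exact card_le_card hBU
  have hUZ : U ⊆ Z := fun u hu => (DTL_Un hu).1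
  have hSZ : S ⊆ Z := hS.1.1
  have hMZ : M ⊆ Z := by
    intro w hw
    have := hM hw
    unfold E2 at this
    exact (mem_sdiff.1 (mem_filter.1 this).1).1
  have hTZ : T ⊆ Z := by
    intro w hw
    obtain ⟨u, hu, rfl⟩ := mem_image.1 hw
    have huZ := hUZ (mem_sdiff.1 hu).1
    exact h.closed u huZ (hf u huZ)
  have hXZ : S ∪ M ∪ T ⊆ Z := union_subset (union_subset hSZ hMZ) hTZ
  have hcov : (S ∪ M ∪ T).biUnion N = Z := by
    apply Subset.antisymm
    · intro w hw
      obtain ⟨v, hv, hwv⟩ := mem_biUnion.1 hw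
      exact h.closed v (hXZ hv) hwv
    · intro w hw
      rw [mem_biUnion]
      by_cases hwU : w ∈ U
      · by_cases hwB : w ∈ B
        · obtain ⟨v, hv, hwv⟩ := mem_biUnion.1 hwB
          exact ⟨v, mem_union_left _ (mem_union_right _ hv), (mem_inter.1 hwv).1⟩
        · exact ⟨f w, mem_union_right _ (mem_image_of_mem f (mem_sdiff.2 ⟨hwU, hwB⟩)),
            h.symm _ _ (hf w hw)⟩
      · have : w ∈ S.biUnion N := by
          by_contra hcon
          exact hwU (by rw [hU]; unfold Un; exact mem_sdiff.2 ⟨hw, hcon⟩)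
        obtain ⟨v, hv, hwv⟩ := mem_biUnion.1 this
        exact ⟨v, mem_union_left _ (mem_union_left _ hv), hwv⟩
  have hst := h.star (S ∪ M ∪ T) hXZ
  rw [hcov, filter_true_of_mem (fun w hw => h.closed w hw)] at hst
  have hc1 := card_union_le (S ∪ M) T
  have hc2 := card_union_le S M
  omega

theorem DTL_deg {V : Type} [DecidableEq V] {N : V → Finset V} {Z S : Finset V} (h : Tgt N Z)
    (x : V) : ((E2 N Z S).filter (fun j => x ∈ N j ∩ Un N Z S)).card ≤ 3 := by
  rcases ((E2 N Z S).filter (fun j => x ∈ N j ∩ Un N Z S)).eq_empty_or_nonempty with h0 | ⟨j, hj⟩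
  · rw [h0, card_empty]
    omega
  · have hx : x ∈ Z := (DTL_Un (mem_inter.1 (mem_filter.1 hj).2).2).1
    rw [← h.three x hx]
    refine card_le_card ?_
    intro i hi
    exact h.symm _ _ (mem_inter.1 (mem_filter.1 hi).2).1

theorem DTL_mult {V : Type} [DecidableEq V] {N : V → Finset V} {Z S : Finset V} (h : Tgt N Z)
    {i : V} (hi : i ∈ E2 N Z S) :
    ((E2 N Z S).filter (fun j => N j ∩ Un N Z S = N i ∩ Un N Z S)).card ≤ 2 := by
  by_contra hcon
  push Not at hcon
  have h2 : (N i ∩ Un N Z S).card = 2 := by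
    unfold E2 at hi
    exact (mem_filter.1 hi).2
  obtain ⟨u, v, huv, he⟩ := card_eq_two.1 h2
  have hu : u ∈ N i ∩ Un N Z S := by rw [he]; simp
  have hv : v ∈ N i ∩ Un N Z S := by rw [he]; simp
  have huZ := (DTL_Un (mem_inter.1 hu).2).1
  have hvZ := (DTL_Un (mem_inter.1 hv).2).1
  have key : ∀ w, w ∈ N i ∩ Un N Z S → w ∈ Z →
      (E2 N Z S).filter (fun j => N j ∩ Un N Z S = N i ∩ Un N Z S) = N w := by
    intro w hw hwZ
    refine eq_of_subset_of_card_le ?_ ?_
    · intro j hj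
      have hj2 := (mem_filter.1 hj).2
      rw [← hj2] at hw
      exact h.symm _ _ (mem_inter.1 hw).1
    · rw [h.three w hwZ]
      omega
  exact DTL_twin h huZ hvZ huv ((key u hu huZ).symm.trans (key v hv hvZ))

theorem stmt_DTL (h1 : Stmt_PKF) (h2 : Stmt_MMB) : Stmt_DTL := by
  intro V _ N Z S h hS i hi
  obtain ⟨M, hMJ, hM, hcase⟩ := h2 (fun w => N w ∩ Un N Z S) (E2 N Z S)
    (fun j hj => by
      unfold E2 at hj
      exact (mem_filter.1 hj).2) (fun x => DTL_deg h x) (fun j hj => DTL_mult h hj)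
  have hle := DTL_le h1 h hS hMJ hM
  obtain ⟨htr, -, -, -⟩ := h1 N Z S h hS
  have hD : DTU (fun w => N w ∩ Un N Z S) (E2 N Z S) := by
    rcases hcase with hc | hc
    · omega
    · exact hc.2
  obtain ⟨u1, u2, u3, p, q, x, y, D, hii⟩ := hD i hi
  have tp : N p ∩ Un N Z S = {u1, u2} := D.ep
  have tq : N q ∩ Un N Z S = {u1, u2} := D.eq
  have tx : N x ∩ Un N Z S = {u1, u3} := D.ex
  have ty : N y ∩ Un N Z S = {u2, u3} := D.ey
  have a1 : u1 ∈ N p ∩ Un N Z S := by rw [tp]; simp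
  have a2 : u2 ∈ N p ∩ Un N Z S := by rw [tp]; simp
  have b1 : u1 ∈ N q ∩ Un N Z S := by rw [tq]; simp
  have b2 : u2 ∈ N q ∩ Un N Z S := by rw [tq]; simp
  have c1 : u1 ∈ N x ∩ Un N Z S := by rw [tx]; simp
  have c3 : u3 ∈ N x ∩ Un N Z S := by rw [tx]; simp
  have d2 : u2 ∈ N y ∩ Un N Z S := by rw [ty]; simp
  have d3 : u3 ∈ N y ∩ Un N Z S := by rw [ty]; simp
  have m1 := (mem_inter.1 a1).2
  have m2 := (mem_inter.1 a2).2
  have m3 := (mem_inter.1 c3).2
  have z1 := (DTL_Un m1).1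
  have z2 := (DTL_Un m2).1
  have z3 := (DTL_Un m3).1
  have n2x : u2 ∉ N x ∩ Un N Z S := by
    rw [tx]
    simp [D.u12.symm, D.u23]
  have n1y : u1 ∉ N y ∩ Un N Z S := by
    rw [ty]
    simp [D.u12, D.u13]
  have n3p : u3 ∉ N p ∩ Un N Z S := by
    rw [tp]
    simp [D.u13.symm, D.u23.symm]
  have n3q : u3 ∉ N q ∩ Un N Z S := by
    rw [tq]
    simp [D.u13.symm, D.u23.symm]
  have px : p ≠ x := fun hh => n2x (hh ▸ a2)
  have qx : q ≠ x := fun hh => n2x (hh ▸ b2)
  have py : p ≠ y := fun hh => n1y (hh ▸ a1)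
  have qy : q ≠ y := fun hh => n1y (hh ▸ b1)
  have xy : x ≠ y := fun hh => n1y (hh ▸ c1)
  have k1 : N u1 = {p, q, x} := DTL_three (h.three u1 z1) (h.symm _ _ (mem_inter.1 a1).1)
    (h.symm _ _ (mem_inter.1 b1).1) (h.symm _ _ (mem_inter.1 c1).1) D.pq px qx
  have k2 : N u2 = {p, q, y} := DTL_three (h.three u2 z2) (h.symm _ _ (mem_inter.1 a2).1)
    (h.symm _ _ (mem_inter.1 b2).1) (h.symm _ _ (mem_inter.1 d2).1) D.pq py qy
  have hx3 : x ∈ N u3 := h.symm _ _ (mem_inter.1 c3).1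
  have hy3 : y ∈ N u3 := h.symm _ _ (mem_inter.1 d3).1
  obtain ⟨z, hz⟩ : (N u3 \ {x, y}).Nonempty := by
    rw [← card_pos]
    have h5 : ({x, y} : Finset V) ⊆ N u3 := by
      intro w hw
      rw [mem_insert, mem_singleton] at hw
      rcases hw with rfl | rfl <;> assumption
    rw [card_sdiff_of_subset h5, card_pair xy, h.three u3 z3]
    norm_num
  rw [mem_sdiff, mem_insert, mem_singleton, not_or] at hz
  obtain ⟨hz3, hzx, hzy⟩ := hz
  have k3 : N u3 = {x, y, z} := DTL_three (h.three u3 z3) hx3 hy3 hz3 xy (Ne.symm hzx)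
    (Ne.symm hzy)
  have hzZ : z ∈ Z := h.closed u3 z3 hz3
  have hz3' : u3 ∈ N z := h.symm _ _ hz3
  have hzS : z ∉ S := fun hh => (DTL_Un m3).2 z hh hz3'
  have hmem : u3 ∈ N z ∩ Un N Z S := mem_inter.2 ⟨hz3', m3⟩
  have tz : N z ∩ Un N Z S = {u3} := by
    rcases htr z hzZ hzS with hc | hc
    · obtain ⟨w, hw⟩ := card_eq_one.1 hc
      rw [hw, mem_singleton] at hmem
      rw [hw, hmem]
    · exfalso
      have hzE : z ∈ E2 N Z S := by
        unfold E2
        exact mem_filter.2 ⟨mem_sdiff.2 ⟨hzZ, hzS⟩, hc⟩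
      rcases D.all z hzE (Or.inr (Or.inr hmem)) with hh | hh | hh | hh
      · exact n3p (hh ▸ hmem)
      · exact n3q (hh ▸ hmem)
      · exact hzx hh
      · exact hzy hh
  exact ⟨u1, u2, u3, p, q, x, y, z, ⟨hS, m1, m2, m3, D.u12, D.u13, D.u23, k1, k2, k3, D.pq, xy,
    tp, tq, tx, ty, tz⟩, hii⟩

end Pool.Agent.Work.MP_1ce445_n32
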