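import Pool.Agent.Work.MP_1ce445_n32.Interface

/-! Block EN2: the exact value for `n % 4 = 2` from the upper bound UPO and the lower bound LOO. -/

namespace Pool.Agent.Work.MP_1ce445_n32

theorem stmt_EN2 (hU : Stmt_UPO) (hL : Stmt_LOO) : Stmt_EN2 := by
  intro n hn h18
  obtain ⟨q, rfl⟩ : ∃ q, n = 4 * q + 2 := ⟨n / 4, by omega⟩
  have hq : 4 ≤ q := by omega
  have e1 : 4 * q + 2 - 3 = 4 * q - 1 := by omega
  have e2 : (4 * q + 2) / 4 = q := by omega
  have e3 : 4 * q + 2 - 4 - q = 3 * q - 2 := by omega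
  have e4 : 4 * q + 2 - 2 = 4 * q := by omega
  rw [e1, e2, e3, e4]
  exact le_antisymm (hU q (by omega)) (hL q hq)

end Pool.Agent.Work.MP_1ce445_n32
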