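import Pool.Agent.Work.MP_1ce445_n32.Interface

/-! Block EXA: exchange at a double triangle. -/

namespace Pool.Agent.Work.MP_1ce445_n32

open Finset Pool.Agent.Work.MP_1ce445_co_56 Pool.Agent.Work.MP_1ce445_lin

theorem EXA_mem_Un {V : Type} [DecidableEq V] (N : V → Finset V) (Z S : Finset V) (u : V) :
    u ∈ Un N Z S ↔ u ∈ Z ∧ ∀ b ∈ S, u ∉ N b := by
  unfold Un
  simp

theorem EXA_nt {V : Type} [DecidableEq V] {N : V → Finset V} {Z : Finset V} (hT : Tgt N Z)
    {v v' : V} (hv : v ∈ Z) (hv' : v' ∈ Z) (h : N v = N v') : v = v' := by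
  by_contra hne
  have h1 := hT.star {v} (by simpa using hv)
  rw [singleton_biUnion, hT.three v hv] at h1
  have h2 : ({v, v'} : Finset V) ⊆ Z.filter (fun w => N w ⊆ N v) := by
    intro w hw
    rw [mem_insert, mem_singleton] at hw
    rw [mem_filter]
    rcases hw with rfl | rfl
    · exact ⟨hv, Subset.refl _⟩
    · exact ⟨hv', by rw [h]⟩
  have h3 := card_le_card h2
  rw [card_pair hne] at h3
  rw [card_singleton] at h1
  omega

theorem EXA_third {V : Type} [DecidableEq V] {s : Finset V} (hs : s.card = 3) {a b : V}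
    (ha : a ∈ s) (hb : b ∈ s) (hab : a ≠ b) : ∃ c, s = {a, b, c} ∧ c ≠ a ∧ c ≠ b := by
  have h1 : ((s.erase a).erase b).card = 1 := by
    rw [card_erase_of_mem (mem_erase.2 ⟨hab.symm, hb⟩), card_erase_of_mem ha, hs]
  obtain ⟨c, hc⟩ := card_eq_one.1 h1
  have hc' : c ∈ (s.erase a).erase b := by rw [hc]; simp
  rw [mem_erase, mem_erase] at hc'
  refine ⟨c, ?_, hc'.2.1, hc'.1⟩
  ext t
  constructor
  · intro ht
    by_cases h2 : t = a
    · simp [h2]
    · by_cases h3 : t = b
      · simp [h3]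
      · have h4 : t ∈ (s.erase a).erase b := mem_erase.2 ⟨h3, mem_erase.2 ⟨h2, ht⟩⟩
        rw [hc, mem_singleton] at h4
        simp [h4]
  · intro ht
    simp only [mem_insert, mem_singleton] at ht
    rcases ht with rfl | rfl | rfl
    · exact ha
    · exact hb
    · exact hc'.2.2

theorem EXA_swap {V : Type} [DecidableEq V] {N : V → Finset V} {Z S : Finset V}
    {u1 u2 u3 p q x y z : V} (D : DT N Z S u1 u2 u3 p q x y z) : DT N Z S u2 u1 u3 p q y x z where
  hS := D.hS
  m1 := D.m2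
  m2 := D.m1
  m3 := D.m3
  u12 := D.u12.symm
  u13 := D.u23
  u23 := D.u13
  n1 := D.n2
  n2 := D.n1
  n3 := by rw [D.n3]; exact insert_comm x y {z}
  pq := D.pq
  xy := D.xy.symm
  tp := by rw [D.tp]; exact pair_comm u1 u2
  tq := by rw [D.tq]; exact pair_comm u1 u2
  tx := D.ty
  ty := D.tx
  tz := D.tz

/-- `c` is one of the two outer edges at `v3`. -/
theorem EXA_fin {V : Type} [DecidableEq V] {N : V → Finset V} {Z S : Finset V}
    {v1 v2 v3 p' q' a w z' q q3 r : V} (D : DT N Z S v1 v2 v3 p' q' a w z')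
    (h1 : q3 = v3) (h2 : q = z') (h3 : N a ∩ Un N Z S = {q3, r}) (h4 : r ≠ q3) :
    DT N Z S r v2 q3 p' q' a w q := by
  have h5 : r ∈ N a ∩ Un N Z S := by rw [h3]; simp
  rw [D.tx, mem_insert, mem_singleton] at h5
  rcases h5 with h5 | h5
  · subst h1 h2 h5
    exact D
  · exact absurd (h5.trans h1.symm) h4

theorem EXA_core {V : Type} [DecidableEq V] {N : V → Finset V} {Z S : Finset V}
    {v1 v2 v3 p' q' x' y' z' a q q3 r : V} (D : DT N Z S v1 v2 v3 p' q' x' y' z')
    (ha : a = p' ∨ a = q' ∨ a = x' ∨ a = y') (hta : N a ∩ Un N Z S = {q3, r}) (hr : r ≠ q3)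
    (htq : N q ∩ Un N Z S = {q3}) (hq : q ∈ N q3) :
    ∃ g w, DT N Z S r g q3 p' q' a w q := by
  have hc : (N q ∩ Un N Z S).card = 1 := by rw [htq]; simp
  have cp : q ≠ p' := by
    rintro rfl
    rw [D.tp, card_pair D.u12] at hc
    omega
  have cq : q ≠ q' := by
    rintro rfl
    rw [D.tq, card_pair D.u12] at hc
    omega
  have cx : q ≠ x' := by
    rintro rfl
    rw [D.tx, card_pair D.u13] at hc
    omega
  have cy : q ≠ y' := by
    rintro rfl
    rw [D.ty, card_pair D.u23] at hc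
    omega
  have h1 : q3 ≠ v1 := by
    rintro rfl
    rw [D.n1] at hq
    simp only [mem_insert, mem_singleton] at hq
    tauto
  have h2 : q3 ≠ v2 := by
    rintro rfl
    rw [D.n2] at hq
    simp only [mem_insert, mem_singleton] at hq
    tauto
  have h0 : q3 ∈ N a ∩ Un N Z S := by rw [hta]; simp
  have h3 : q3 = v3 ∧ (a = x' ∨ a = y') := by
    rcases ha with rfl | rfl | rfl | rfl
    · rw [D.tp, mem_insert, mem_singleton] at h0
      tauto
    · rw [D.tq, mem_insert, mem_singleton] at h0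
      tauto
    · rw [D.tx, mem_insert, mem_singleton] at h0
      tauto
    · rw [D.ty, mem_insert, mem_singleton] at h0
      tauto
  obtain ⟨h3, h4⟩ := h3
  have h5 : q = z' := by
    rw [h3, D.n3] at hq
    simp only [mem_insert, mem_singleton] at hq
    tauto
  rcases h4 with rfl | rfl
  · exact ⟨v2, y', EXA_fin D h3 h5 hta hr⟩
  · exact ⟨v1, x', EXA_fin (EXA_swap D) h3 h5 hta hr⟩

theorem stmt_EXA : Stmt_PKF → Stmt_DTL → Stmt_EXA := by
  intro hPKF hDTL V _ N Z S u1 u2 u3 p q x y z hT D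
  have hSZ : S ⊆ Z := D.hS.1.1
  have hU1 := (EXA_mem_Un N Z S u1).1 D.m1
  have hU2 := (EXA_mem_Un N Z S u2).1 D.m2
  have hp1 : p ∈ N u1 := by rw [D.n1]; simp
  have hp2 : p ∈ N u2 := by rw [D.n2]; simp
  have hq1 : q ∈ N u1 := by rw [D.n1]; simp
  have hq2 : q ∈ N u2 := by rw [D.n2]; simp
  have hpZ : p ∈ Z := hT.closed u1 hU1.1 hp1
  have hqZ : q ∈ Z := hT.closed u1 hU1.1 hq1
  have h1p : u1 ∈ N p := hT.symm _ _ hp1
  have h2p : u2 ∈ N p := hT.symm _ _ hp2
  have h1q : u1 ∈ N q := hT.symm _ _ hq1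
  have h2q : u2 ∈ N q := hT.symm _ _ hq2
  obtain ⟨p3, hNp, hp31, hp32⟩ := EXA_third (hT.three p hpZ) h1p h2p D.u12
  obtain ⟨q3, hNq, hq31, hq32⟩ := EXA_third (hT.three q hqZ) h1q h2q D.u12
  have hp3p : p3 ∈ N p := by rw [hNp]; simp
  have hq3q : q3 ∈ N q := by rw [hNq]; simp
  have hp3Z : p3 ∈ Z := hT.closed p hpZ hp3p
  have hq3Z : q3 ∈ Z := hT.closed q hqZ hq3q
  have hp3U : p3 ∉ Un N Z S := by
    intro h
    have h' : p3 ∈ N p ∩ Un N Z S := mem_inter.2 ⟨hp3p, h⟩
    rw [D.tp, mem_insert, mem_singleton] at h'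
    tauto
  have hq3U : q3 ∉ Un N Z S := by
    intro h
    have h' : q3 ∈ N q ∩ Un N Z S := mem_inter.2 ⟨hq3q, h⟩
    rw [D.tq, mem_insert, mem_singleton] at h'
    tauto
  have hp3q3 : p3 ≠ q3 := by
    intro h
    apply D.pq
    apply EXA_nt hT hpZ hqZ
    rw [hNp, hNq, h]
  have hpS : p ∉ S := fun h => hU1.2 p h h1p
  have hqS : q ∉ S := fun h => hU1.2 q h h1q
  obtain ⟨a, haS, hp3a⟩ : ∃ a ∈ S, p3 ∈ N a := by
    by_contra h
    push Not at h
    exact hp3U ((EXA_mem_Un N Z S p3).2 ⟨hp3Z, h⟩)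
  have haZ : a ∈ Z := hSZ haS
  have hdis : ∀ b ∈ S, b ≠ a → ∀ t ∈ N a, t ∉ N b := by
    intro b hb hba t ht ht'
    exact (disjoint_left.1 (D.hS.1.2 a haS b hb (Ne.symm hba)) ht) ht'
  -- the new packing
  have hpe : p ∉ S.erase a := fun h => hpS (mem_of_mem_erase h)
  have hcard : (insert p (S.erase a)).card = S.card := by
    rw [card_insert_of_notMem hpe, card_erase_of_mem haS]
    have := card_pos.2 ⟨a, haS⟩
    omega
  have hdp : ∀ b ∈ S.erase a, Disjoint (N p) (N b) := by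
    intro b hb
    rw [mem_erase] at hb
    rw [disjoint_left]
    intro t ht ht'
    rw [hNp] at ht
    simp only [mem_insert, mem_singleton] at ht
    rcases ht with rfl | rfl | rfl
    · exact hU1.2 b hb.2 ht'
    · exact hU2.2 b hb.2 ht'
    · exact hdis b hb.2 hb.1 _ hp3a ht'
  have hPk1 : Pk N Z (insert p (S.erase a)) := by
    refine ⟨?_, ?_⟩
    · intro t ht
      rw [mem_insert] at ht
      rcases ht with rfl | ht
      · exact hpZ
      · exact hSZ (mem_of_mem_erase ht)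
    · intro b hb c hc hbc
      rw [mem_insert] at hb hc
      rcases hb with rfl | hb
      · rcases hc with rfl | hc
        · exact absurd rfl hbc
        · exact hdp c hc
      · rcases hc with rfl | hc
        · exact (hdp b hb).symm
        · exact D.hS.1.2 b (mem_of_mem_erase hb) c (mem_of_mem_erase hc) hbc
  have hMax1 : MaxPk N Z (insert p (S.erase a)) :=
    ⟨hPk1, fun S' hS' => by rw [hcard]; exact D.hS.2 S' hS'⟩
  have hU' : ∀ t, t ∈ Un N Z (insert p (S.erase a)) ↔ t ∈ Z ∧ t ∉ N p ∧ ∀ b ∈ S, b ≠ a → t ∉ N b := by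
    intro t
    rw [EXA_mem_Un]
    constructor
    · rintro ⟨h1, h2⟩
      exact ⟨h1, h2 p (mem_insert_self _ _), fun b hb hba => h2 b (mem_insert_of_mem (mem_erase.2 ⟨hba, hb⟩))⟩
    · rintro ⟨h1, h2, h3⟩
      refine ⟨h1, fun b hb => ?_⟩
      rw [mem_insert, mem_erase] at hb
      rcases hb with rfl | hb
      · exact h2
      · exact h3 b hb.2 hb.1
  have hq1S : q ∉ insert p (S.erase a) := by
    intro h
    rw [mem_insert, mem_erase] at h
    rcases h with h | h
    · exact D.pq h.symm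
    · exact hqS h.2
  have hq3U1 : q3 ∈ Un N Z (insert p (S.erase a)) := by
    have h1 := (hPKF N Z _ hT hMax1).1 q hqZ hq1S
    have h2 : (N q ∩ Un N Z (insert p (S.erase a))).Nonempty := by
      rw [← card_pos]
      omega
    obtain ⟨t, ht⟩ := h2
    rw [mem_inter] at ht
    have h3 := (hU' t).1 ht.2
    have h4 := ht.1
    rw [hNq] at h4
    simp only [mem_insert, mem_singleton] at h4
    rcases h4 with rfl | rfl | rfl
    · exact absurd h1p h3.2.1
    · exact absurd h2p h3.2.1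
    · exact ht.2
  have hq3a : q3 ∈ N a := by
    by_contra h
    apply hq3U
    rw [EXA_mem_Un]
    refine ⟨hq3Z, fun b hb => ?_⟩
    by_cases hba : b = a
    · rw [hba]; exact h
    · exact ((hU' q3).1 hq3U1).2.2 b hb hba
  obtain ⟨r, hNa, hrp3, hrq3⟩ := EXA_third (hT.three a haZ) hp3a hq3a hp3q3
  have hra : r ∈ N a := by rw [hNa]; simp
  have hrU : r ∉ Un N Z S := fun h => ((EXA_mem_Un N Z S r).1 h).2 a haS hra
  have hrp : r ∉ N p := by
    intro h
    rw [hNp] at h
    simp only [mem_insert, mem_singleton] at h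
    rcases h with rfl | rfl | h
    · exact hU1.2 a haS hra
    · exact hU2.2 a haS hra
    · exact hrp3 h
  have hrU1 : r ∈ Un N Z (insert p (S.erase a)) :=
    (hU' r).2 ⟨hT.closed a haZ hra, hrp, fun b hb hba => hdis b hb hba r hra⟩
  have hta : N a ∩ Un N Z (insert p (S.erase a)) = {q3, r} := by
    ext t
    rw [mem_inter, mem_insert, mem_singleton]
    constructor
    · rintro ⟨h1, h2⟩
      rw [hNa] at h1
      simp only [mem_insert, mem_singleton] at h1
      rcases h1 with rfl | h1 | h1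
      · exact absurd hp3p ((hU' _).1 h2).2.1
      · exact Or.inl h1
      · exact Or.inr h1
    · rintro (rfl | rfl)
      · exact ⟨hq3a, hq3U1⟩
      · exact ⟨hra, hrU1⟩
  have htq : N q ∩ Un N Z (insert p (S.erase a)) = {q3} := by
    ext t
    rw [mem_inter, mem_singleton]
    constructor
    · rintro ⟨h1, h2⟩
      rw [hNq] at h1
      simp only [mem_insert, mem_singleton] at h1
      rcases h1 with rfl | rfl | h1
      · exact absurd h1p ((hU' _).1 h2).2.1
      · exact absurd h2p ((hU' _).1 h2).2.1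
      · exact h1
    · rintro rfl
      exact ⟨hq3q, hq3U1⟩
  have haE : a ∈ E2 N Z (insert p (S.erase a)) := by
    unfold E2
    rw [mem_filter, mem_sdiff]
    refine ⟨⟨haZ, ?_⟩, ?_⟩
    · intro h
      rw [mem_insert, mem_erase] at h
      rcases h with h | h
      · exact hpS (h ▸ haS)
      · exact h.1 rfl
    · rw [hta, card_pair hrq3.symm]
  obtain ⟨v1, v2, v3, p', q', x', y', z', D1, ha'⟩ := hDTL N Z _ hT hMax1 a haE
  obtain ⟨g, w, D2⟩ := EXA_core D1 ha' hta hrq3 htq (hT.symm _ _ hq3q)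
  have hg := (hU' g).1 D2.m2
  refine ⟨a, p3, q3, r, g, w, p', q', haS, hNp, hNq, hNa, hp3U, hq3U, hrU, hp3q3, hrp3.symm, hrq3.symm,
    ?_, ?_, ?_, D2⟩
  · rw [EXA_mem_Un]
    refine ⟨hg.1, fun b hb => ?_⟩
    by_cases hba : b = a
    · rw [hba, hNa]
      intro h
      simp only [mem_insert, mem_singleton] at h
      rcases h with rfl | h | h
      · exact hg.2.1 hp3p
      · exact D2.u23 h
      · exact D2.u12 h.symm
    · exact hg.2.2 b hb hba
  · rintro rfl
    exact hg.2.1 h1p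
  · rintro rfl
    exact hg.2.1 h2p

end Pool.Agent.Work.MP_1ce445_n32
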