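import Pool.Agent.Work.MP_1ce445_n32.Interface

/-!
Block EXB: the local structure at a good pair.
-/

namespace Pool.Agent.Work.MP_1ce445_n32

open Finset Pool.Agent.Work.MP_1ce445_co_56 Pool.Agent.Work.MP_1ce445_lin

lemma EXB_twin {V : Type} [DecidableEq V] {N : V → Finset V} {Z : Finset V} (hT : Tgt N Z)
    {v v' : V} (hv : v ∈ Z) (hv' : v' ∈ Z) (hne : v ≠ v') : N v ≠ N v' := by
  intro h
  have h1 := hT.star {v} (singleton_subset_iff.2 hv)
  rw [singleton_biUnion, hT.three v hv, card_singleton] at h1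
  have h2 : ({v, v'} : Finset V) ⊆ Z.filter (fun w => N w ⊆ N v) := by
    intro w hw
    rw [mem_insert, mem_singleton] at hw
    rcases hw with rfl | rfl
    · exact mem_filter.2 ⟨hv, Subset.rfl⟩
    · exact mem_filter.2 ⟨hv', by rw [h]⟩
  have h3 := card_le_card h2
  rw [card_pair hne] at h3
  omega

lemma EXB_eq {V : Type} [DecidableEq V] {N : V → Finset V} {Z : Finset V} (hT : Tgt N Z)
    {v s t u : V} (hv : v ∈ Z) (hs : s ∈ N v) (ht : t ∈ N v) (hu : u ∈ N v) (hst : s ≠ t)
    (hsu : s ≠ u) (htu : t ≠ u) : N v = {s, t, u} := by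
  symm
  apply eq_of_subset_of_card_le
  · intro w hw
    simp only [mem_insert, mem_singleton] at hw
    rcases hw with rfl | rfl | rfl <;> assumption
  · rw [hT.three v hv, card_eq_three.2 ⟨s, t, u, hst, hsu, htu, rfl⟩]

lemma EXB_ne {V : Type} [DecidableEq V] {N : V → Finset V} {Z : Finset V} (hT : Tgt N Z)
    {v s t u : V} (hv : v ∈ Z) (h : N v = {s, t, u}) : s ≠ t ∧ s ≠ u ∧ t ≠ u := by
  have h1 := hT.three v hv
  rw [h] at h1
  refine ⟨?_, ?_, ?_⟩
  · rintro rfl
    have h2 : ({s, s, u} : Finset V) = {s, u} := by simp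
    rw [h2] at h1
    have := card_le_two (a := s) (b := u)
    omega
  · rintro rfl
    have h2 : ({s, t, s} : Finset V) = {s, t} := by
      ext z
      simp only [mem_insert, mem_singleton]
      tauto
    rw [h2] at h1
    have := card_le_two (a := s) (b := t)
    omega
  · rintro rfl
    have h2 : ({s, t, t} : Finset V) = {s, t} := by simp
    rw [h2] at h1
    have := card_le_two (a := s) (b := t)
    omega

theorem stmt_EXB (h : Stmt_EXA) : Stmt_EXB := by
  intro V _ N Z hT p q hG
  obtain ⟨S, u1, u2, u3, x, y, z, D⟩ := hG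
  have D' : DT N Z S u1 u2 u3 q p x y z :=
    { hS := D.hS
      m1 := D.m1
      m2 := D.m2
      m3 := D.m3
      u12 := D.u12
      u13 := D.u13
      u23 := D.u23
      n1 := by
        rw [D.n1]
        ext v
        simp only [mem_insert, mem_singleton]
        tauto
      n2 := by
        rw [D.n2]
        ext v
        simp only [mem_insert, mem_singleton]
        tauto
      n3 := D.n3
      pq := D.pq.symm
      xy := D.xy
      tp := D.tq
      tq := D.tp
      tx := D.tx
      ty := D.ty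
      tz := D.tz }
  obtain ⟨a, p3, q3, r, g, w, p', q', haS, hNp, hNq, hNa, hp3U, hq3U, hrU, hpq3, hp3r, hq3r, hgU,
    hgu1, hgu2, E1⟩ := h N Z S u1 u2 u3 p q x y z hT D
  obtain ⟨a2, p32, q32, r2, g2, w2, p2, q2, haS2, hNq2, hNp2, hNa2, hp3U2, hq3U2, hrU2, hpq32,
    hp3r2, hq3r2, hgU2, hgu12, hgu22, E2⟩ := h N Z S u1 u2 u3 q p x y z hT D'
  have hUZ : ∀ S' v, v ∈ Un N Z S' → v ∈ Z := fun S' v hv => (mem_sdiff.1 hv).1
  -- `p32 = q3`, `q32 = p3`
  have hU1 : ∀ v, v ∉ Un N Z S → v ≠ u1 ∧ v ≠ u2 := fun v hv =>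
    ⟨fun h1 => hv (h1 ▸ D.m1), fun h1 => hv (h1 ▸ D.m2)⟩
  have e1 : p32 = q3 := by
    have h1 : q3 ∈ N q := by rw [hNq]; simp
    rw [hNq2] at h1
    simp only [mem_insert, mem_singleton] at h1
    rcases h1 with h1 | h1 | h1
    · exact absurd h1 (hU1 q3 hq3U).1
    · exact absurd h1 (hU1 q3 hq3U).2
    · exact h1.symm
  have e2 : q32 = p3 := by
    have h1 : p3 ∈ N p := by rw [hNp]; simp
    rw [hNp2] at h1
    simp only [mem_insert, mem_singleton] at h1
    rcases h1 with h1 | h1 | h1
    · exact absurd h1 (hU1 p3 hp3U).1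
    · exact absurd h1 (hU1 p3 hp3U).2
    · exact h1.symm
  subst e1
  subst e2
  have e3 : a2 = a := by
    by_contra hne
    have h1 := D.hS.1.2 a2 haS2 a haS hne
    have h2 : q32 ∈ N a2 := by rw [hNa2]; simp
    have h3 : q32 ∈ N a := by rw [hNa]; simp
    exact disjoint_left.1 h1 h2 h3
  subst e3
  have e4 : r2 = r := by
    have h1 : r ∈ N a2 := by rw [hNa]; simp
    rw [hNa2] at h1
    simp only [mem_insert, mem_singleton] at h1
    rcases h1 with h1 | h1 | h1
    · exact absurd h1.symm hq3r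
    · exact absurd h1.symm hp3r
    · exact h1.symm
  subst e4
  have hrZ : r2 ∈ Z := hUZ _ _ E1.m1
  have hgZ : g ∈ Z := hUZ _ _ E1.m2
  have hg2Z : g2 ∈ Z := hUZ _ _ E2.m2
  obtain ⟨hpq', hp'a, hq'a⟩ := EXB_ne hT hrZ E1.n1
  obtain ⟨hpq2, hp2a, hq2a⟩ := EXB_ne hT hrZ E2.n1
  have hp2 : p2 = p' ∨ p2 = q' := by
    have h1 : p2 ∈ N r2 := by rw [E2.n1]; simp
    rw [E1.n1] at h1
    simp only [mem_insert, mem_singleton] at h1
    rcases h1 with h1 | h1 | h1
    · exact Or.inl h1
    · exact Or.inr h1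
    · exact absurd h1 hp2a
  have hq2 : q2 = p' ∨ q2 = q' := by
    have h1 : q2 ∈ N r2 := by rw [E2.n1]; simp
    rw [E1.n1] at h1
    simp only [mem_insert, mem_singleton] at h1
    rcases h1 with h1 | h1 | h1
    · exact Or.inl h1
    · exact Or.inr h1
    · exact absurd h1 hq2a
  have hNg2 : N g2 = {p', q', w2} := by
    rw [E2.n2]
    rcases hp2 with rfl | rfl
    · rcases hq2 with rfl | rfl
      · exact absurd rfl hpq2
      · rfl
    · rcases hq2 with rfl | rfl
      · ext v
        simp only [mem_insert, mem_singleton]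
        tauto
      · exact absurd rfl hpq2
  have hp'Z : p' ∈ Z := hT.closed r2 hrZ (by rw [E1.n1]; simp)
  have hq'Z : q' ∈ Z := hT.closed r2 hrZ (by rw [E1.n1]; simp)
  have hrp' : r2 ∈ N p' := hT.symm _ _ (by rw [E1.n1]; simp)
  have hrq' : r2 ∈ N q' := hT.symm _ _ (by rw [E1.n1]; simp)
  have hgp' : g ∈ N p' := hT.symm _ _ (by rw [E1.n2]; simp)
  have hgq' : g ∈ N q' := hT.symm _ _ (by rw [E1.n2]; simp)
  have hg2p' : g2 ∈ N p' := hT.symm _ _ (by rw [hNg2]; simp)
  have hg2q' : g2 ∈ N q' := hT.symm _ _ (by rw [hNg2]; simp)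
  have e5 : g2 = g := by
    by_contra hne
    have h1 := EXB_eq hT hp'Z hrp' hgp' hg2p' E1.u12 E2.u12 (Ne.symm hne)
    have h2 := EXB_eq hT hq'Z hrq' hgq' hg2q' E1.u12 E2.u12 (Ne.symm hne)
    exact EXB_twin hT hp'Z hq'Z hpq' (h1.trans h2.symm)
  subst e5
  obtain ⟨_, hp'w, hq'w⟩ := EXB_ne hT hgZ E1.n2
  have e6 : w2 = w := by
    have h1 : w ∈ N g2 := by rw [E1.n2]; simp
    rw [hNg2] at h1
    simp only [mem_insert, mem_singleton] at h1
    rcases h1 with h1 | h1 | h1
    · exact absurd h1.symm hp'w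
    · exact absurd h1.symm hq'w
    · exact h1.symm
  subst e6
  have hwZ : w2 ∈ Z := hT.closed g2 hgZ (by rw [E1.n2]; simp)
  have hgp3 : q32 ≠ g2 := fun h1 => hp3U (h1 ▸ hgU)
  have hgq3 : p32 ≠ g2 := fun h1 => hq3U (h1 ▸ hgU)
  have hNw : N w2 = {q32, p32, g2} := by
    apply EXB_eq hT hwZ _ _ _ hpq3 hgp3 hgq3
    · exact hT.symm _ _ (by rw [E2.n3]; simp)
    · exact hT.symm _ _ (by rw [E1.n3]; simp)
    · exact hT.symm _ _ (by rw [E1.n2]; simp)
  have hxS : ∀ v u, u ∈ Un N Z S → u ∈ N v → v ∉ S := fun v u hu huv hvS =>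
    (mem_sdiff.1 hu).2 (mem_biUnion.2 ⟨v, hvS, huv⟩)
  have hu1x : u1 ∈ N x := hT.symm _ _ (by rw [D.n1]; simp)
  have hu2y : u2 ∈ N y := hT.symm _ _ (by rw [D.n2]; simp)
  have hru := hU1 r2 hrU
  have hp3u := hU1 q32 hp3U
  have hq3u := hU1 p32 hq3U
  refine ⟨u1, u2, x, y, q32, p32, a2, w2, r2, g2, p', q', ?_, ⟨_, r2, g2, p32, a2, w2, q, E1⟩⟩
  exact
    { np := hNp
      nq := hNq
      nu1 := D.n1
      nu2 := D.n2
      np3 := by
        rw [E2.n3]
        ext v
        simp only [mem_insert, mem_singleton]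
        tauto
      nq3 := by
        rw [E1.n3]
        ext v
        simp only [mem_insert, mem_singleton]
        tauto
      na := hNa
      nw := hNw
      nr := by
        rw [E1.n1]
        ext v
        simp only [mem_insert, mem_singleton]
        tauto
      ng := by
        rw [E1.n2]
        ext v
        simp only [mem_insert, mem_singleton]
        tauto
      xy := D.xy
      pq3 := hpq3
      rg := E1.u12
      d1 := by
        refine ⟨?_, ?_, ?_, ?_⟩
        · intro h1
          exact hxS x u1 D.m1 hu1x (h1 ▸ haS)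
        · intro h1
          exact hxS y u2 D.m2 hu2y (h1 ▸ haS)
        · intro h1
          rw [← h1, hNw] at hu1x
          simp only [mem_insert, mem_singleton] at hu1x
          rcases hu1x with h2 | h2 | h2
          · exact hp3u.1 h2.symm
          · exact hq3u.1 h2.symm
          · exact hgu1 h2.symm
        · intro h1
          rw [← h1, hNw] at hu2y
          simp only [mem_insert, mem_singleton] at hu2y
          rcases hu2y with h2 | h2 | h2
          · exact hp3u.2 h2.symm
          · exact hq3u.2 h2.symm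
          · exact hgu2 h2.symm
      d2 := by
        refine ⟨?_, ?_, ?_, ?_⟩
        · intro h1
          rw [← h1, hNp] at hrp'
          simp only [mem_insert, mem_singleton] at hrp'
          rcases hrp' with h2 | h2 | h2
          · exact hru.1 h2
          · exact hru.2 h2
          · exact hp3r h2.symm
        · intro h1
          rw [← h1, hNp] at hrq'
          simp only [mem_insert, mem_singleton] at hrq'
          rcases hrq' with h2 | h2 | h2
          · exact hru.1 h2
          · exact hru.2 h2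
          · exact hp3r h2.symm
        · intro h1
          rw [← h1, hNq] at hrp'
          simp only [mem_insert, mem_singleton] at hrp'
          rcases hrp' with h2 | h2 | h2
          · exact hru.1 h2
          · exact hru.2 h2
          · exact hq3r h2.symm
        · intro h1
          rw [← h1, hNq] at hrq'
          simp only [mem_insert, mem_singleton] at hrq'
          rcases hrq' with h2 | h2 | h2
          · exact hru.1 h2
          · exact hru.2 h2
          · exact hq3r h2.symm
      d3 := ⟨hru.1, hru.2, hgu1, hgu2⟩ }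

end Pool.Agent.Work.MP_1ce445_n32
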