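import Pool.Agent.Work.MP_1ce445_n32.Interface

/-!
Block LOO: the construction for `n = 4 q + 2`, all `q ≥ 4`.
-/

namespace Pool.Agent.Work.MP_1ce445_n32

open Finset Pool.Agent.Work.MP_1ce445_co_56 Pool.Agent.Work.MP_1ce445_lin

theorem stmt_LOO (h1 : Stmt_OUO) (h2 : Stmt_OUE) (h3 : Stmt_ASB) : Stmt_LOO := by
  intro q hq
  obtain ⟨m, rfl⟩ : ∃ m, q = m + 1 := ⟨q - 1, by omega⟩
  have hm : 3 ≤ m := by omega
  haveI : NeZero m := ⟨by omega⟩
  have hO : ∃ O, O6 m O := by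
    rcases Nat.even_or_odd m with he | ho
    · have h4 : 4 ≤ m := by
        obtain ⟨r, hr⟩ := he
        omega
      exact h2 m h4 he
    · exact h1 m hm ho
  obtain ⟨O, hO⟩ := hO
  have h := h3 m O hO
  have e1 : 4 * (m + 1) + 2 = 4 * m + 6 := by ring
  have e2 : 3 * (m + 1) - 2 = 3 * m + 1 := by omega
  have e3 : 4 * (m + 1) = 4 * m + 4 := by ring
  have e4 : m + 1 + 1 = m + 2 := by ring
  have e5 : 4 * (m + 1) - 1 = 4 * m + 3 := by omega
  rw [e1, e2, e5, e3, e4]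
  exact h

end Pool.Agent.Work.MP_1ce445_n32
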