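import Pool.Agent.Work.MP_1ce445_n32.Interface

namespace Pool.Agent.Work.MP_1ce445_n32

open Finset Pool.Agent.Work.MP_1ce445_co_56 Pool.Agent.Work.MP_1ce445_lin

section MMB

variable {X ι : Type} [DecidableEq X] [DecidableEq ι]

/-- the strong conclusion -/
def MMB_C (e : ι → Finset X) (J : Finset ι) : Prop :=
  ∃ M ⊆ J, Mg e M ∧ (J.card < 4 * M.card ∨ (J.card = 4 * M.card ∧ DTU e J ∧
    ∀ i ∈ M, ∀ x ∈ e i, (J.filter (fun j => x ∈ e j)).card = 3))

/-- the hypotheses -/
def MMB_H (e : ι → Finset X) (J : Finset ι) : Prop :=
  (∀ i ∈ J, (e i).card = 2) ∧ (∀ x, (J.filter (fun j => x ∈ e j)).card ≤ 3) ∧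
    (∀ i ∈ J, (J.filter (fun j => e j = e i)).card ≤ 2)

lemma MMB_H_sub {e : ι → Finset X} {J K : Finset ι} (h : MMB_H e J) (hK : K ⊆ J) : MMB_H e K := by
  refine ⟨fun i hi => h.1 i (hK hi), fun x => ?_, fun i hi => ?_⟩
  · exact (Finset.card_le_card (Finset.filter_subset_filter _ hK)).trans (h.2.1 x)
  · exact (Finset.card_le_card (Finset.filter_subset_filter _ hK)).trans (h.2.2 i (hK hi))

/-- a double triangle is split off -/
lemma MMB_tri {e : ι → Finset X} {J J' M' : Finset ι} (hsub : J' ⊆ J) {u1 u2 u3 : X}
    {p q x y : ι} (u12 : u1 ≠ u2) (u13 : u1 ≠ u3) (u23 : u2 ≠ u3) (mp : p ∈ J) (mq : q ∈ J)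
    (mx : x ∈ J) (my : y ∈ J) (pq : p ≠ q) (ep : e p = {u1, u2}) (eq : e q = {u1, u2})
    (ex : e x = {u1, u3}) (ey : e y = {u2, u3})
    (hL : ∀ j ∈ J, j ∉ J' → j = p ∨ j = q ∨ j = x ∨ j = y)
    (hav : ∀ j ∈ J', u1 ∉ e j ∧ u2 ∉ e j ∧ u3 ∉ e j) (hcard : J.card = J'.card + 4)
    (hM' : M' ⊆ J') (hMg : Mg e M') (h4 : J'.card = 4 * M'.card) (hD : DTU e J')
    (hdeg : ∀ i ∈ M', ∀ z ∈ e i, (J'.filter (fun j => z ∈ e j)).card = 3) : MMB_C e J := by
  have hpJ' : p ∉ J' := fun h => (hav p h).1 (by rw [ep]; simp)
  have hall : ∀ j ∈ J, (u1 ∈ e j ∨ u2 ∈ e j ∨ u3 ∈ e j) → j = p ∨ j = q ∨ j = x ∨ j = y := by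
    intro j hj h
    apply hL j hj
    intro hj'
    have := hav j hj'
    tauto
  have hT : DTr e J u1 u2 u3 p q x y := ⟨mp, mq, mx, my, pq, u12, u13, u23, ep, eq, ex, ey, hall⟩
  have hsmall : ∀ j ∈ J, j ∉ J' → ∀ z ∈ e j, z = u1 ∨ z = u2 ∨ z = u3 := by
    intro j hj hj' z hz
    rcases hL j hj hj' with rfl | rfl | rfl | rfl
    · rw [ep] at hz
      simp only [mem_insert, mem_singleton] at hz
      tauto
    · rw [eq] at hz
      simp only [mem_insert, mem_singleton] at hz
      tauto
    · rw [ex] at hz
      simp only [mem_insert, mem_singleton] at hz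
      tauto
    · rw [ey] at hz
      simp only [mem_insert, mem_singleton] at hz
      tauto
  have hxp : x ≠ p := by
    rintro rfl
    have : u3 ∈ e x := by rw [ex]; simp
    rw [ep] at this
    simp only [mem_insert, mem_singleton] at this
    rcases this with h | h
    · exact u13 h.symm
    · exact u23 h.symm
  have hxq : x ≠ q := by
    rintro rfl
    have : u3 ∈ e x := by rw [ex]; simp
    rw [eq] at this
    simp only [mem_insert, mem_singleton] at this
    rcases this with h | h
    · exact u13 h.symm
    · exact u23 h.symm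
  have hyp : y ≠ p := by
    rintro rfl
    have : u3 ∈ e y := by rw [ey]; simp
    rw [ep] at this
    simp only [mem_insert, mem_singleton] at this
    rcases this with h | h
    · exact u13 h.symm
    · exact u23 h.symm
  have hyq : y ≠ q := by
    rintro rfl
    have : u3 ∈ e y := by rw [ey]; simp
    rw [eq] at this
    simp only [mem_insert, mem_singleton] at this
    rcases this with h | h
    · exact u13 h.symm
    · exact u23 h.symm
  refine ⟨insert p M', Finset.insert_subset mp (hM'.trans hsub), ?_, Or.inr ⟨?_, ?_, ?_⟩⟩
  · intro i hi j hj hij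
    rw [mem_insert] at hi hj
    rcases hi with rfl | hi
    · rcases hj with rfl | hj
      · exact absurd rfl hij
      · rw [ep, disjoint_left]
        intro z hz hz'
        simp only [mem_insert, mem_singleton] at hz
        have := hav j (hM' hj)
        rcases hz with rfl | rfl
        · exact this.1 hz'
        · exact this.2.1 hz'
    · rcases hj with rfl | hj
      · rw [ep, disjoint_right]
        intro z hz hz'
        simp only [mem_insert, mem_singleton] at hz
        have := hav i (hM' hi)
        rcases hz with rfl | rfl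
        · exact this.1 hz'
        · exact this.2.1 hz'
      · exact hMg i hi j hj hij
  · rw [card_insert_of_notMem (fun h => hpJ' (hM' h)), hcard, h4]
    ring
  · intro i hi
    by_cases hi' : i ∈ J'
    · obtain ⟨v1, v2, v3, p', q', x', y', hT', hi''⟩ := hD i hi'
      refine ⟨v1, v2, v3, p', q', x', y', ⟨hsub hT'.mp, hsub hT'.mq, hsub hT'.mx, hsub hT'.my,
        hT'.pq, hT'.u12, hT'.u13, hT'.u23, hT'.ep, hT'.eq, hT'.ex, hT'.ey, ?_⟩, hi''⟩
      intro j hj hmeet
      by_cases hj' : j ∈ J'
      · exact hT'.all j hj' hmeet
      · exfalso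
        have hv : ∀ z, (z = v1 ∨ z = v2 ∨ z = v3) → ¬ (z = u1 ∨ z = u2 ∨ z = u3) := by
          intro z hz hzu
          have hz1 : ∃ j ∈ J', z ∈ e j := by
            rcases hz with rfl | rfl | rfl
            · exact ⟨p', hT'.mp, by rw [hT'.ep]; simp⟩
            · exact ⟨p', hT'.mp, by rw [hT'.ep]; simp⟩
            · exact ⟨x', hT'.mx, by rw [hT'.ex]; simp⟩
          obtain ⟨j0, hj0, hz0⟩ := hz1
          have := hav j0 hj0
          rcases hzu with rfl | rfl | rfl
          · exact this.1 hz0
          · exact this.2.1 hz0
          · exact this.2.2 hz0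
        rcases hmeet with h | h | h
        · exact hv v1 (Or.inl rfl) (hsmall j hj hj' v1 h)
        · exact hv v2 (Or.inr (Or.inl rfl)) (hsmall j hj hj' v2 h)
        · exact hv v3 (Or.inr (Or.inr rfl)) (hsmall j hj hj' v3 h)
    · exact ⟨u1, u2, u3, p, q, x, y, hT, hL i hi hi'⟩
  · intro i hi z hz
    rw [mem_insert] at hi
    rcases hi with rfl | hi
    · rw [ep] at hz
      simp only [mem_insert, mem_singleton] at hz
      rcases hz with rfl | rfl
      · have h5 : J.filter (fun j => z ∈ e j) = {i, q, x} := by
          ext j
          simp only [mem_filter, mem_insert, mem_singleton]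
          constructor
          · rintro ⟨hj, hzj⟩
            rcases hall j hj (Or.inl hzj) with h | h | h | h
            · exact Or.inl h
            · exact Or.inr (Or.inl h)
            · exact Or.inr (Or.inr h)
            · rw [h, ey] at hzj
              simp only [mem_insert, mem_singleton] at hzj
              rcases hzj with h | h
              · exact absurd h u12
              · exact absurd h u13
          · rintro (rfl | rfl | rfl)
            · exact ⟨mp, by rw [ep]; simp⟩
            · exact ⟨mq, by rw [eq]; simp⟩
            · exact ⟨mx, by rw [ex]; simp⟩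
        rw [h5]
        exact Finset.card_eq_three.mpr ⟨i, q, x, pq, hxp.symm, hxq.symm, rfl⟩
      · have h5 : J.filter (fun j => z ∈ e j) = {i, q, y} := by
          ext j
          simp only [mem_filter, mem_insert, mem_singleton]
          constructor
          · rintro ⟨hj, hzj⟩
            rcases hall j hj (Or.inr (Or.inl hzj)) with h | h | h | h
            · exact Or.inl h
            · exact Or.inr (Or.inl h)
            · rw [h, ex] at hzj
              simp only [mem_insert, mem_singleton] at hzj
              rcases hzj with h | h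
              · exact absurd h.symm u12
              · exact absurd h u23
            · exact Or.inr (Or.inr h)
          · rintro (rfl | rfl | rfl)
            · exact ⟨mp, by rw [ep]; simp⟩
            · exact ⟨mq, by rw [eq]; simp⟩
            · exact ⟨my, by rw [ey]; simp⟩
        rw [h5]
        exact Finset.card_eq_three.mpr ⟨i, q, y, pq, hyp.symm, hyq.symm, rfl⟩
    · have h5 : J.filter (fun j => z ∈ e j) = J'.filter (fun j => z ∈ e j) := by
        ext j
        simp only [mem_filter]
        constructor
        · rintro ⟨hj, hzj⟩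
          refine ⟨?_, hzj⟩
          by_contra hj'
          have h6 := hav i (hM' hi)
          rcases hsmall j hj hj' z hzj with rfl | rfl | rfl
          · exact h6.1 hz
          · exact h6.2.1 hz
          · exact h6.2.2 hz
        · rintro ⟨hj, hzj⟩
          exact ⟨hsub hj, hzj⟩
      rw [h5]
      exact hdeg i hi z hz

/-- every vertex of a double triangle is on two edges -/
lemma MMB_two {e : ι → Finset X} {J : Finset ι} {u1 u2 u3 : X} {p q x y : ι}
    (hT : DTr e J u1 u2 u3 p q x y) {s : X} {j : ι} (hj : j = p ∨ j = q ∨ j = x ∨ j = y)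
    (hs : s ∈ e j) : ∃ a ∈ J, ∃ b ∈ J, a ≠ b ∧ s ∈ e a ∧ s ∈ e b := by
  have h1 : s = u1 ∨ s = u2 ∨ s = u3 := by
    rcases hj with rfl | rfl | rfl | rfl
    · rw [hT.ep] at hs
      simp only [mem_insert, mem_singleton] at hs
      tauto
    · rw [hT.eq] at hs
      simp only [mem_insert, mem_singleton] at hs
      tauto
    · rw [hT.ex] at hs
      simp only [mem_insert, mem_singleton] at hs
      tauto
    · rw [hT.ey] at hs
      simp only [mem_insert, mem_singleton] at hs
      tauto
  rcases h1 with rfl | rfl | rfl
  · exact ⟨p, hT.mp, q, hT.mq, hT.pq, by rw [hT.ep]; simp, by rw [hT.eq]; simp⟩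
  · exact ⟨p, hT.mp, q, hT.mq, hT.pq, by rw [hT.ep]; simp, by rw [hT.eq]; simp⟩
  · refine ⟨x, hT.mx, y, hT.my, ?_, by rw [hT.ex]; simp, by rw [hT.ey]; simp⟩
    rintro rfl
    have h2 : u1 ∈ e x := by rw [hT.ex]; simp
    rw [hT.ey] at h2
    simp only [mem_insert, mem_singleton] at h2
    rcases h2 with h | h
    · exact hT.u12 h
    · exact hT.u13 h

/-- the edges which meet `{u, v}` -/
lemma MMB_cnt (e : ι → Finset X) (J : Finset ι) (i : ι) {u v : X} (hi : e i = {u, v}) :
    (J.filter (fun j => ¬ Disjoint (e i) (e j))).card =
      (J.filter (fun j => u ∈ e j ∧ v ∉ e j)).card + (J.filter (fun j => v ∈ e j ∧ u ∉ e j)).card +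
      (J.filter (fun j => u ∈ e j ∧ v ∈ e j)).card ∧
    (J.filter (fun j => u ∈ e j)).card = (J.filter (fun j => u ∈ e j ∧ v ∉ e j)).card +
      (J.filter (fun j => u ∈ e j ∧ v ∈ e j)).card ∧
    (J.filter (fun j => v ∈ e j)).card = (J.filter (fun j => v ∈ e j ∧ u ∉ e j)).card +
      (J.filter (fun j => u ∈ e j ∧ v ∈ e j)).card := by
  have hd : ∀ j, ¬ Disjoint (e i) (e j) ↔ (u ∈ e j ∨ v ∈ e j) := by
    intro j
    rw [hi, Finset.not_disjoint_iff]
    simp
  refine ⟨?_, ?_, ?_⟩
  · rw [← Finset.card_union_of_disjoint, ← Finset.card_union_of_disjoint]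
    · congr 1
      ext j
      simp only [mem_filter, mem_union, hd]
      tauto
    · rw [disjoint_left]
      intro j hj hj'
      simp only [mem_filter, mem_union] at hj hj'
      tauto
    · rw [disjoint_left]
      intro j hj hj'
      simp only [mem_filter] at hj hj'
      tauto
  · rw [← Finset.card_union_of_disjoint]
    · congr 1
      ext j
      simp only [mem_filter, mem_union]
      tauto
    · rw [disjoint_left]
      intro j hj hj'
      simp only [mem_filter] at hj hj'
      tauto
  · rw [← Finset.card_union_of_disjoint]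
    · congr 1
      ext j
      simp only [mem_filter, mem_union]
      tauto
    · rw [disjoint_left]
      intro j hj hj'
      simp only [mem_filter] at hj hj'
      tauto

/-- the other end of an edge -/
lemma MMB_end {s : Finset X} (h : s.card = 2) {u : X} (hu : u ∈ s) : ∃ t, t ≠ u ∧ s = {u, t} := by
  obtain ⟨a, b, hab, rfl⟩ := Finset.card_eq_two.mp h
  simp only [mem_insert, mem_singleton] at hu
  rcases hu with rfl | rfl
  · exact ⟨b, hab.symm, rfl⟩
  · exact ⟨a, hab, Finset.pair_comm _ _⟩

theorem MMB_main (mmc : Stmt_MMC) (e : ι → Finset X) (J : Finset ι) : MMB_H e J → MMB_C e J := by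
  induction J using Finset.strongInduction with
  | H J ih =>
    intro hH
    obtain ⟨h1, h2, h3⟩ := hH
    by_cases hemp : J = ∅
    · subst hemp
      refine ⟨∅, subset_rfl, ?_, Or.inr ⟨by simp, ?_, ?_⟩⟩
      · intro i hi
        simp at hi
      · intro i hi
        simp at hi
      · intro i hi
        simp at hi
    by_cases hsm : ∃ i ∈ J, (J.filter (fun j => ¬ Disjoint (e i) (e j))).card ≤ 4
    · obtain ⟨i, hi, hL4⟩ := hsm
      have hsubJ : J.filter (fun j => Disjoint (e i) (e j)) ⊆ J := Finset.filter_subset _ _
      have hcardLJ : (J.filter (fun j => Disjoint (e i) (e j))).card +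
          (J.filter (fun j => ¬ Disjoint (e i) (e j))).card = J.card :=
        Finset.card_filter_add_card_filter_not _
      have hii : ¬ Disjoint (e i) (e i) := by
        intro h
        rw [disjoint_self, Finset.bot_eq_empty] at h
        have := h1 i hi
        rw [h] at this
        simp at this
      have hss : J.filter (fun j => Disjoint (e i) (e j)) ⊂ J := by
        rw [Finset.ssubset_iff_of_subset hsubJ]
        refine ⟨i, hi, ?_⟩
        intro h
        exact hii (Finset.mem_filter.mp h).2
      obtain ⟨M', hM', hMg, hor⟩ := ih _ hss (MMB_H_sub ⟨h1, h2, h3⟩ hsubJ)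
      have hM'd : ∀ m ∈ M', Disjoint (e i) (e m) := fun m hm => (Finset.mem_filter.mp (hM' hm)).2
      have hiM' : i ∉ M' := fun h => hii (hM'd i h)
      have hins : Mg e (insert i M') := by
        intro a ha b hb hab
        rw [mem_insert] at ha hb
        rcases ha with rfl | ha
        · rcases hb with rfl | hb
          · exact absurd rfl hab
          · exact hM'd b hb
        · rcases hb with rfl | hb
          · exact (hM'd a ha).symm
          · exact hMg a ha b hb hab
      have hinsJ : insert i M' ⊆ J := Finset.insert_subset hi (hM'.trans hsubJ)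
      have hinsc : (insert i M').card = M'.card + 1 := Finset.card_insert_of_notMem hiM'
      by_cases hL3 : (J.filter (fun j => ¬ Disjoint (e i) (e j))).card ≤ 3
      · refine ⟨insert i M', hinsJ, hins, Or.inl ?_⟩
        rcases hor with h | h
        · omega
        · have := h.1
          omega
      rcases hor with h | ⟨h4, hD, hdeg⟩
      · exact ⟨insert i M', hinsJ, hins, Or.inl (by omega)⟩
      obtain ⟨u, v, huv, heuv⟩ := Finset.card_eq_two.mp (h1 i hi)
      obtain ⟨hc1, hc2, hc3⟩ := MMB_cnt e J i heuv
      have hdu := h2 u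
      have hdv := h2 v
      have hDi : i ∈ J.filter (fun j => u ∈ e j ∧ v ∈ e j) := by
        rw [mem_filter, heuv]
        simp [hi]
      have hDpos := Finset.card_pos.mpr ⟨i, hDi⟩
      have hAu : (J.filter (fun j => u ∈ e j ∧ v ∉ e j)).Nonempty := by
        rw [← Finset.card_pos]
        omega
      have hAv : (J.filter (fun j => v ∈ e j ∧ u ∉ e j)).Nonempty := by
        rw [← Finset.card_pos]
        omega
      have hJ'uv : ∀ j ∈ J.filter (fun j => Disjoint (e i) (e j)), u ∉ e j ∧ v ∉ e j := by
        intro j hj
        have hj2 := (Finset.mem_filter.mp hj).2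
        rw [heuv, disjoint_left] at hj2
        exact ⟨hj2 (by simp), hj2 (by simp)⟩
      have hnJ' : ∀ j, (u ∈ e j ∨ v ∈ e j) → j ∉ J.filter (fun j => Disjoint (e i) (e j)) := by
        intro j hj hj'
        have := hJ'uv j hj'
        tauto
      have hinJ' : ∀ j ∈ J, j ∉ J.filter (fun j => Disjoint (e i) (e j)) → u ∈ e j ∨ v ∈ e j := by
        intro j hj hj'
        by_contra hcon
        push Not at hcon
        apply hj'
        rw [mem_filter]
        refine ⟨hj, ?_⟩
        rw [heuv, disjoint_left]
        intro z hz
        simp only [mem_insert, mem_singleton] at hz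
        rcases hz with rfl | rfl
        · exact hcon.1
        · exact hcon.2
      -- a vertex covered by `M'` is on no edge outside `J'`
      have hcov : ∀ j ∈ J, (u ∈ e j ∨ v ∈ e j) → ∀ m ∈ M', ∀ z ∈ e m, z ∉ e j := by
        intro j hj hjuv m hm z hz hzj
        have h5 := hdeg m hm z hz
        have h6 : insert j ((J.filter (fun j => Disjoint (e i) (e j))).filter (fun j => z ∈ e j)) ⊆
            J.filter (fun j => z ∈ e j) := by
          intro a ha
          rw [mem_insert] at ha
          rcases ha with rfl | ha
          · exact Finset.mem_filter.mpr ⟨hj, hzj⟩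
          · rw [mem_filter] at ha
            exact Finset.mem_filter.mpr ⟨hsubJ ha.1, ha.2⟩
        have h7 := Finset.card_le_card h6
        rw [Finset.card_insert_of_notMem, h5] at h7
        · have := h2 z
          omega
        · intro h8
          exact hnJ' j hjuv (Finset.mem_filter.mp h8).1
      by_cases hB : ∃ j1 ∈ J.filter (fun j => u ∈ e j ∧ v ∉ e j),
          ∃ j2 ∈ J.filter (fun j => v ∈ e j ∧ u ∉ e j), Disjoint (e j1) (e j2)
      · obtain ⟨j1, hj1, j2, hj2, hdis⟩ := hB
        rw [mem_filter] at hj1 hj2
        have hj1M : j1 ∉ M' := fun h => hnJ' j1 (Or.inl hj1.2.1) (hM' h)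
        have hj2M : j2 ∉ M' := fun h => hnJ' j2 (Or.inr hj2.2.1) (hM' h)
        have hj12 : j1 ≠ j2 := by
          rintro rfl
          exact hj2.2.2 hj1.2.1
        refine ⟨insert j1 (insert j2 M'), ?_, ?_, Or.inl ?_⟩
        · exact Finset.insert_subset hj1.1 (Finset.insert_subset hj2.1 (hM'.trans hsubJ))
        · have hd1 : ∀ m ∈ M', Disjoint (e j1) (e m) := by
            intro m hm
            rw [disjoint_right]
            intro z hz
            exact hcov j1 hj1.1 (Or.inl hj1.2.1) m hm z hz
          have hd2 : ∀ m ∈ M', Disjoint (e j2) (e m) := by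
            intro m hm
            rw [disjoint_right]
            intro z hz
            exact hcov j2 hj2.1 (Or.inr hj2.2.1) m hm z hz
          intro a ha b hb hab
          rw [mem_insert, mem_insert] at ha hb
          rcases ha with rfl | rfl | ha
          · rcases hb with rfl | rfl | hb
            · exact absurd rfl hab
            · exact hdis
            · exact hd1 b hb
          · rcases hb with rfl | rfl | hb
            · exact hdis.symm
            · exact absurd rfl hab
            · exact hd2 b hb
          · rcases hb with rfl | rfl | hb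
            · exact (hd1 a ha).symm
            · exact (hd2 a ha).symm
            · exact hMg a ha b hb hab
        · rw [Finset.card_insert_of_notMem, Finset.card_insert_of_notMem hj2M]
          · omega
          · rw [mem_insert]
            rintro (h | h)
            · exact hj12 h
            · exact hj1M h
      · push Not at hB
        obtain ⟨j2, hj2⟩ := hAv
        have hj2' := Finset.mem_filter.mp hj2
        obtain ⟨s, hsv, hej2⟩ := MMB_end (h1 j2 hj2'.1) hj2'.2.1
        have hsu : s ≠ u := by
          rintro rfl
          apply hj2'.2.2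
          rw [hej2]
          simp
        have hAue : ∀ j ∈ J.filter (fun j => u ∈ e j ∧ v ∉ e j), e j = {u, s} := by
          intro j hj
          have hj' := Finset.mem_filter.mp hj
          obtain ⟨t, htu, hejt⟩ := MMB_end (h1 j hj'.1) hj'.2.1
          have h5 := hB j hj j2 hj2
          rw [Finset.not_disjoint_iff] at h5
          obtain ⟨z, hz1, hz2⟩ := h5
          rw [hejt] at hz1
          rw [hej2] at hz2
          simp only [mem_insert, mem_singleton] at hz1 hz2
          rcases hz1 with rfl | rfl
          · rcases hz2 with h | h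
            · exact absurd h huv
            · exact absurd h.symm hsu
          · rcases hz2 with h | h
            · exfalso
              apply hj'.2.2
              rw [hejt, ← h]
              simp
            · rw [hejt, h]
        obtain ⟨j1, hj1⟩ := hAu
        have hj1' := Finset.mem_filter.mp hj1
        have hej1 := hAue j1 hj1
        have hAve : ∀ j ∈ J.filter (fun j => v ∈ e j ∧ u ∉ e j), e j = {v, s} := by
          intro j hj
          have hj' := Finset.mem_filter.mp hj
          obtain ⟨t, htv, hejt⟩ := MMB_end (h1 j hj'.1) hj'.2.1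
          have h5 := hB j1 hj1 j hj
          rw [Finset.not_disjoint_iff] at h5
          obtain ⟨z, hz1, hz2⟩ := h5
          rw [hej1] at hz1
          rw [hejt] at hz2
          simp only [mem_insert, mem_singleton] at hz1 hz2
          rcases hz1 with rfl | rfl
          · rcases hz2 with h | h
            · exact absurd h huv
            · exfalso
              apply hj'.2.2
              rw [hejt, ← h]
              simp
          · rcases hz2 with h | h
            · exact absurd h hsv
            · rw [hejt, h]
        have hDe : ∀ j ∈ J.filter (fun j => u ∈ e j ∧ v ∈ e j), e j = {u, v} := by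
          intro j hj
          have hj' := Finset.mem_filter.mp hj
          symm
          apply Finset.eq_of_subset_of_card_le
          · intro z hz
            simp only [mem_insert, mem_singleton] at hz
            rcases hz with rfl | rfl
            · exact hj'.2.1
            · exact hj'.2.2
          · rw [h1 j hj'.1, Finset.card_pair huv]
        have hj12 : j1 ≠ j2 := by
          rintro rfl
          exact hj2'.2.2 hj1'.2.1
        -- `s` is on no edge of `J'`
        have hsJ' : ∀ j ∈ J.filter (fun j => Disjoint (e i) (e j)), s ∉ e j := by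
          intro j hj hs
          obtain ⟨v1, v2, v3, p', q', x', y', hT', hj''⟩ := hD j hj
          obtain ⟨a, ha, b, hb, hab, hsa, hsb⟩ := MMB_two hT' hj'' hs
          have h6 : insert j1 (insert j2 {a, b}) ⊆ J.filter (fun j => s ∈ e j) := by
            intro z hz
            simp only [mem_insert, mem_singleton] at hz
            rw [mem_filter]
            rcases hz with rfl | rfl | rfl | rfl
            · exact ⟨hj1'.1, by rw [hej1]; simp⟩
            · exact ⟨hj2'.1, by rw [hej2]; simp⟩
            · exact ⟨hsubJ ha, hsa⟩
            · exact ⟨hsubJ hb, hsb⟩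
          have h7 := Finset.card_le_card h6
          have hja : ∀ c ∈ J.filter (fun j => Disjoint (e i) (e j)), j1 ≠ c ∧ j2 ≠ c := by
            intro c hc
            refine ⟨?_, ?_⟩
            · rintro rfl
              exact hnJ' j1 (Or.inl hj1'.2.1) hc
            · rintro rfl
              exact hnJ' j2 (Or.inr hj2'.2.1) hc
          rw [Finset.card_insert_of_notMem, Finset.card_insert_of_notMem,
            Finset.card_pair hab] at h7
          · have := h2 s
            omega
          · simp only [mem_insert, mem_singleton, not_or]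
            exact ⟨(hja a ha).2, (hja b hb).2⟩
          · simp only [mem_insert, mem_singleton, not_or]
            exact ⟨hj12, (hja a ha).1, (hja b hb).1⟩
        have hcard : J.card = (J.filter (fun j => Disjoint (e i) (e j))).card + 4 := by omega
        have hapos := Finset.card_pos.mpr ⟨j1, hj1⟩
        have hbpos := Finset.card_pos.mpr ⟨j2, hj2⟩
        have hsplit : ∀ j ∈ J, j ∉ J.filter (fun j => Disjoint (e i) (e j)) →
            j ∈ J.filter (fun j => u ∈ e j ∧ v ∉ e j) ∨ j ∈ J.filter (fun j => v ∈ e j ∧ u ∉ e j) ∨
            j ∈ J.filter (fun j => u ∈ e j ∧ v ∈ e j) := by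
          intro j hj hj'
          have := hinJ' j hj hj'
          simp only [mem_filter]
          tauto
        have hav : ∀ j ∈ J.filter (fun j => Disjoint (e i) (e j)), u ∉ e j ∧ v ∉ e j ∧ s ∉ e j :=
          fun j hj => ⟨(hJ'uv j hj).1, (hJ'uv j hj).2, hsJ' j hj⟩
        have hcase : ((J.filter (fun j => u ∈ e j ∧ v ∉ e j)).card = 1 ∧
            (J.filter (fun j => v ∈ e j ∧ u ∉ e j)).card = 1 ∧
            (J.filter (fun j => u ∈ e j ∧ v ∈ e j)).card = 2) ∨
            ((J.filter (fun j => u ∈ e j ∧ v ∉ e j)).card = 2 ∧
            (J.filter (fun j => v ∈ e j ∧ u ∉ e j)).card = 1 ∧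
            (J.filter (fun j => u ∈ e j ∧ v ∈ e j)).card = 1) ∨
            ((J.filter (fun j => u ∈ e j ∧ v ∉ e j)).card = 1 ∧
            (J.filter (fun j => v ∈ e j ∧ u ∉ e j)).card = 2 ∧
            (J.filter (fun j => u ∈ e j ∧ v ∈ e j)).card = 1) := by omega
        rcases hcase with ⟨ha, hb, hc⟩ | ⟨ha, hb, hc⟩ | ⟨ha, hb, hc⟩
        · obtain ⟨x, hx⟩ := Finset.card_eq_one.mp ha
          obtain ⟨y, hy⟩ := Finset.card_eq_one.mp hb
          obtain ⟨p, q, hpq, hpq'⟩ := Finset.card_eq_two.mp hc
          rw [hx, hy, hpq'] at hsplit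
          have hxm : x ∈ J.filter (fun j => u ∈ e j ∧ v ∉ e j) := by rw [hx]; simp
          have hym : y ∈ J.filter (fun j => v ∈ e j ∧ u ∉ e j) := by rw [hy]; simp
          have hpm : p ∈ J.filter (fun j => u ∈ e j ∧ v ∈ e j) := by rw [hpq']; simp
          have hqm : q ∈ J.filter (fun j => u ∈ e j ∧ v ∈ e j) := by rw [hpq']; simp
          refine MMB_tri hsubJ (u1 := u) (u2 := v) (u3 := s) (p := p) (q := q) (x := x) (y := y)
            huv hsu.symm hsv.symm (mem_filter.mp hpm).1 (mem_filter.mp hqm).1
            (mem_filter.mp hxm).1 (mem_filter.mp hym).1 hpq (hDe p hpm) (hDe q hqm) (hAue x hxm)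
            (hAve y hym) ?_ hav hcard hM' hMg h4 hD hdeg
          intro j hj hj'
          have := hsplit j hj hj'
          simp only [mem_singleton, mem_insert] at this
          tauto
        · obtain ⟨p, q, hpq, hpq'⟩ := Finset.card_eq_two.mp ha
          obtain ⟨y, hy⟩ := Finset.card_eq_one.mp hb
          obtain ⟨x, hx⟩ := Finset.card_eq_one.mp hc
          rw [hx, hy, hpq'] at hsplit
          have hpm : p ∈ J.filter (fun j => u ∈ e j ∧ v ∉ e j) := by rw [hpq']; simp
          have hqm : q ∈ J.filter (fun j => u ∈ e j ∧ v ∉ e j) := by rw [hpq']; simp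
          have hym : y ∈ J.filter (fun j => v ∈ e j ∧ u ∉ e j) := by rw [hy]; simp
          have hxm : x ∈ J.filter (fun j => u ∈ e j ∧ v ∈ e j) := by rw [hx]; simp
          refine MMB_tri hsubJ (u1 := u) (u2 := s) (u3 := v) (p := p) (q := q) (x := x) (y := y)
            hsu.symm huv hsv (mem_filter.mp hpm).1 (mem_filter.mp hqm).1
            (mem_filter.mp hxm).1 (mem_filter.mp hym).1 hpq (hAue p hpm) (hAue q hqm) (hDe x hxm)
            ((hAve y hym).trans (Finset.pair_comm _ _)) ?_ ?_ hcard hM' hMg h4 hD hdeg
          · intro j hj hj'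
            have := hsplit j hj hj'
            simp only [mem_singleton, mem_insert] at this
            tauto
          · intro j hj
            have := hav j hj
            tauto
        · obtain ⟨y, hy⟩ := Finset.card_eq_one.mp ha
          obtain ⟨p, q, hpq, hpq'⟩ := Finset.card_eq_two.mp hb
          obtain ⟨x, hx⟩ := Finset.card_eq_one.mp hc
          rw [hx, hy, hpq'] at hsplit
          have hym : y ∈ J.filter (fun j => u ∈ e j ∧ v ∉ e j) := by rw [hy]; simp
          have hpm : p ∈ J.filter (fun j => v ∈ e j ∧ u ∉ e j) := by rw [hpq']; simp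
          have hqm : q ∈ J.filter (fun j => v ∈ e j ∧ u ∉ e j) := by rw [hpq']; simp
          have hxm : x ∈ J.filter (fun j => u ∈ e j ∧ v ∈ e j) := by rw [hx]; simp
          refine MMB_tri hsubJ (u1 := v) (u2 := s) (u3 := u) (p := p) (q := q) (x := x) (y := y)
            hsv.symm huv.symm hsu (mem_filter.mp hpm).1 (mem_filter.mp hqm).1
            (mem_filter.mp hxm).1 (mem_filter.mp hym).1 hpq (hAve p hpm) (hAve q hqm)
            ((hDe x hxm).trans (Finset.pair_comm _ _))
            ((hAue y hym).trans (Finset.pair_comm _ _)) ?_ ?_ hcard hM' hMg h4 hD hdeg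
          · intro j hj hj'
            have := hsplit j hj hj'
            simp only [mem_singleton, mem_insert] at this
            tauto
          · intro j hj
            have := hav j hj
            tauto
    · push Not at hsm
      have hkey : ∀ i ∈ J, (∀ x ∈ e i, (J.filter (fun j => x ∈ e j)).card = 3) ∧
          ∀ j ∈ J, e i = e j → i = j := by
        intro i hi
        obtain ⟨u, v, huv, heuv⟩ := Finset.card_eq_two.mp (h1 i hi)
        obtain ⟨hc1, hc2, hc3⟩ := MMB_cnt e J i heuv
        have hdu := h2 u
        have hdv := h2 v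
        have hDi : i ∈ J.filter (fun j => u ∈ e j ∧ v ∈ e j) := by
          rw [mem_filter, heuv]
          simp [hi]
        have hDpos := Finset.card_pos.mpr ⟨i, hDi⟩
        have h5 := hsm i hi
        refine ⟨?_, ?_⟩
        · intro x hx
          rw [heuv] at hx
          simp only [mem_insert, mem_singleton] at hx
          rcases hx with rfl | rfl
          · omega
          · omega
        · intro j hj hij
          have hD1 : (J.filter (fun j => u ∈ e j ∧ v ∈ e j)).card ≤ 1 := by omega
          apply Finset.card_le_one.mp hD1 i hDi j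
          rw [mem_filter, ← hij, heuv]
          simp [hj]
      obtain ⟨M, hM, hMg, hlt⟩ := mmc e J (Finset.nonempty_iff_ne_empty.mpr hemp) h1
        (fun i hi => (hkey i hi).1) (fun i hi j hj hij => (hkey i hi).2 j hj hij)
      exact ⟨M, hM, hMg, Or.inl hlt⟩

end MMB

theorem stmt_MMB : Stmt_MMC → Stmt_MMB := by
  intro mmc X ι _ _ e J h1 h2 h3
  obtain ⟨M, hM, hMg, hor⟩ := MMB_main mmc e J ⟨h1, h2, h3⟩
  refine ⟨M, hM, hMg, ?_⟩
  rcases hor with h | h
  · exact Or.inl h
  · exact Or.inr ⟨h.1, h.2.1⟩

end Pool.Agent.Work.MP_1ce445_n32
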