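import Pool.Agent.Work.MP_1ce445_n32.Interface

namespace Pool.Agent.Work.MP_1ce445_n32

open Finset Pool.Agent.Work.MP_1ce445_co_56 Pool.Agent.Work.MP_1ce445_lin

/-- the situation of the block -/
structure MMC_H {X ι : Type} [DecidableEq X] [DecidableEq ι] (e : ι → Finset X) (J M : Finset ι) : Prop where
  two : ∀ i ∈ J, (e i).card = 2
  three : ∀ i ∈ J, ∀ x ∈ e i, (J.filter (fun j => x ∈ e j)).card = 3
  simple : ∀ i ∈ J, ∀ j ∈ J, e i = e j → i = j
  MJ : M ⊆ J
  mg : Mg e M
  max : ∀ M' ⊆ J, Mg e M' → M'.card ≤ M.card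

/-- the edges with an end which is not covered -/
def MMC_F {X ι : Type} [DecidableEq X] [DecidableEq ι] (e : ι → Finset X) (J M : Finset ι) : Finset ι :=
  J.filter (fun j => ¬ e j ⊆ M.biUnion e)

/-- the edges at `x` with an end which is not covered -/
def MMC_D {X ι : Type} [DecidableEq X] [DecidableEq ι] (e : ι → Finset X) (J M : Finset ι) (x : X) : Finset ι :=
  (MMC_F e J M).filter (fun j => x ∈ e j)

section MMCsec

variable {X ι : Type} [DecidableEq X] [DecidableEq ι] {e : ι → Finset X} {J M : Finset ι}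

theorem MMC_aug (h : MMC_H e J M) (R N : Finset ι) (hR : R ⊆ M) (hN : N ⊆ J) (hg : Mg e N)
    (hd : ∀ j ∈ N, ∀ m ∈ M, m ∉ R → Disjoint (e j) (e m)) : N.card ≤ R.card := by
  have h1 : Disjoint (M \ R) N := by
    rw [disjoint_left]
    intro m hm hmN
    rw [mem_sdiff] at hm
    have h2 := hd m hmN m hm.1 hm.2
    rw [disjoint_self, bot_eq_empty] at h2
    have h3 := h.two m (hN hmN)
    rw [h2] at h3
    simp at h3
  have h4 : Mg e ((M \ R) ∪ N) := by
    intro i hi j hj hij
    rw [mem_union, mem_sdiff] at hi hj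
    rcases hi with hi | hi
    · rcases hj with hj | hj
      · exact h.mg i hi.1 j hj.1 hij
      · exact (hd j hj i hi.1 hi.2).symm
    · rcases hj with hj | hj
      · exact hd i hi j hj.1 hj.2
      · exact hg i hi j hj hij
  have h5 : (M \ R) ∪ N ⊆ J := union_subset (sdiff_subset.trans h.MJ) hN
  have h6 := h.max _ h5 h4
  rw [card_union_of_disjoint h1] at h6
  have h7 := card_sdiff_add_card_eq_card hR
  omega

theorem MMC_memF {j : ι} (hj : j ∈ MMC_F e J M) : j ∈ J := (mem_filter.1 hj).1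

theorem MMC_form (h : MMC_H e J M) {j : ι} (hj : j ∈ MMC_F e J M) {x : X} (hx : x ∈ e j)
    (hxA : x ∈ M.biUnion e) : ∃ b, b ∉ M.biUnion e ∧ b ≠ x ∧ e j = {x, b} := by
  obtain ⟨p, q, hpq, he⟩ := card_eq_two.1 (h.two j (MMC_memF hj))
  have h1 := (mem_filter.1 hj).2
  rw [he] at hx h1
  rw [mem_insert, mem_singleton] at hx
  have hns : p ∉ M.biUnion e ∨ q ∉ M.biUnion e := by
    by_contra hc
    push Not at hc
    apply h1
    intro y hy
    rw [mem_insert, mem_singleton] at hy
    rcases hy with rfl | rfl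
    · exact hc.1
    · exact hc.2
  rcases hx with rfl | rfl
  · rcases hns with h2 | h2
    · exact absurd hxA h2
    · exact ⟨q, h2, hpq.symm, he⟩
  · rcases hns with h2 | h2
    · exact ⟨p, h2, hpq, by rw [he, pair_comm]⟩
    · exact absurd hxA h2

theorem MMC_meet (h : MMC_H e J M) {j : ι} (hj : j ∈ J) : ∃ x ∈ e j, x ∈ M.biUnion e := by
  by_contra hc
  push Not at hc
  have h1 := MMC_aug h ∅ {j} (empty_subset _) (by simpa using hj)
    (by
      intro a ha b hb hab
      rw [mem_singleton] at ha hb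
      exact absurd (ha.trans hb.symm) hab)
    (by
      intro a ha m hm _
      rw [mem_singleton] at ha
      rw [ha, disjoint_left]
      intro x hx hxm
      exact hc x hx (mem_biUnion.2 ⟨m, hm, hxm⟩))
  simp at h1

/-- the only edge of the matching at a covered vertex -/
theorem MMC_only (h : MMC_H e J M) {i m : ι} {x : X} (hi : i ∈ M) (hm : m ∈ M) (hx : x ∈ e i) (hmx : x ∈ e m) :
    m = i := by
  by_contra hc
  exact disjoint_left.1 (h.mg m hm i hi hc) hmx hx

theorem MMC_k1 (h : MMC_H e J M) {i j j' : ι} {u v b b' : X} (hi : i ∈ M) (hei : e i = {u, v}) (huv : u ≠ v)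
    (hj : j ∈ J) (hj' : j' ∈ J) (hej : e j = {u, b}) (hej' : e j' = {v, b'})
    (hb : b ∉ M.biUnion e) (hb' : b' ∉ M.biUnion e) : b = b' := by
  by_contra hbb
  have hu : u ∈ M.biUnion e := mem_biUnion.2 ⟨i, hi, by rw [hei]; simp⟩
  have hv : v ∈ M.biUnion e := mem_biUnion.2 ⟨i, hi, by rw [hei]; simp⟩
  have hub : u ≠ b' := fun hh => hb' (hh ▸ hu)
  have hvb : v ≠ b := fun hh => hb (hh ▸ hv)
  have hdj : Disjoint (e j) (e j') := by
    rw [hej, hej', disjoint_left]
    intro x hx hx'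
    rw [mem_insert, mem_singleton] at hx hx'
    rcases hx with rfl | rfl
    · rcases hx' with hh | hh
      · exact huv hh
      · exact hub hh
    · rcases hx' with hh | hh
      · exact hvb hh.symm
      · exact hbb hh
  have hne : j ≠ j' := by
    intro hh
    rw [hh, disjoint_self, bot_eq_empty] at hdj
    have := h.two j' hj'
    rw [hdj] at this
    simp at this
  have h1 := MMC_aug h {i} {j, j'} (by simpa using hi)
    (by
      intro a ha
      rw [mem_insert, mem_singleton] at ha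
      rcases ha with rfl | rfl
      · exact hj
      · exact hj')
    (by
      intro a ha c hc hac
      rw [mem_insert, mem_singleton] at ha hc
      rcases ha with rfl | rfl
      · rcases hc with rfl | rfl
        · exact absurd rfl hac
        · exact hdj
      · rcases hc with rfl | rfl
        · exact hdj.symm
        · exact absurd rfl hac)
    (by
      intro a ha m hm hmi
      rw [mem_singleton] at hmi
      rw [mem_insert, mem_singleton] at ha
      rw [disjoint_left]
      intro x hx hxm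
      have hxA : x ∈ M.biUnion e := mem_biUnion.2 ⟨m, hm, hxm⟩
      rcases ha with rfl | rfl
      · rw [hej, mem_insert, mem_singleton] at hx
        rcases hx with rfl | rfl
        · exact hmi (MMC_only h hi hm (by rw [hei]; simp) hxm)
        · exact hb hxA
      · rw [hej', mem_insert, mem_singleton] at hx
        rcases hx with rfl | rfl
        · exact hmi (MMC_only h hi hm (by rw [hei]; simp) hxm)
        · exact hb' hxA)
  rw [card_pair hne, card_singleton] at h1
  omega

theorem MMC_k2 (h : MMC_H e J M) {i i' j k k' : ι} {u v g w b b' : X} (hi : i ∈ M) (hi' : i' ∈ M) (hii : i ≠ i')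
    (hei : e i = {u, v}) (huv : u ≠ v) (hei' : e i' = {g, w}) (hgw : g ≠ w)
    (hj : j ∈ J) (hej : e j = {v, g}) (hk : k ∈ J) (hk' : k' ∈ J) (hek : e k = {u, b}) (hek' : e k' = {w, b'})
    (hb : b ∉ M.biUnion e) (hb' : b' ∉ M.biUnion e) : b = b' := by
  by_contra hbb
  have hu : u ∈ M.biUnion e := mem_biUnion.2 ⟨i, hi, by rw [hei]; simp⟩
  have hv : v ∈ M.biUnion e := mem_biUnion.2 ⟨i, hi, by rw [hei]; simp⟩
  have hg : g ∈ M.biUnion e := mem_biUnion.2 ⟨i', hi', by rw [hei']; simp⟩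
  have hw : w ∈ M.biUnion e := mem_biUnion.2 ⟨i', hi', by rw [hei']; simp⟩
  have hub : u ≠ b' := fun hh => hb' (hh ▸ hu)
  have hvb : v ≠ b := fun hh => hb (hh ▸ hv)
  have hvb' : v ≠ b' := fun hh => hb' (hh ▸ hv)
  have hgb : g ≠ b := fun hh => hb (hh ▸ hg)
  have hgb' : g ≠ b' := fun hh => hb' (hh ▸ hg)
  have hwb : w ≠ b := fun hh => hb (hh ▸ hw)
  have hdi : Disjoint (e i) (e i') := h.mg i hi i' hi' hii
  have hug : u ≠ g := fun hh => disjoint_left.1 hdi (show u ∈ e i by rw [hei]; simp) (by rw [hei', hh]; simp)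
  have huw : u ≠ w := fun hh => disjoint_left.1 hdi (show u ∈ e i by rw [hei]; simp) (by rw [hei', hh]; simp)
  have hvw : v ≠ w := fun hh => disjoint_left.1 hdi (show v ∈ e i by rw [hei]; simp) (by rw [hei', hh]; simp)
  have hd1 : Disjoint (e k) (e j) := by
    rw [hek, hej, disjoint_left]
    intro x hx hx'
    rw [mem_insert, mem_singleton] at hx hx'
    rcases hx with rfl | rfl
    · rcases hx' with hh | hh
      · exact huv hh
      · exact hug hh
    · rcases hx' with hh | hh
      · exact hvb hh.symm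
      · exact hgb hh.symm
  have hd2 : Disjoint (e k) (e k') := by
    rw [hek, hek', disjoint_left]
    intro x hx hx'
    rw [mem_insert, mem_singleton] at hx hx'
    rcases hx with rfl | rfl
    · rcases hx' with hh | hh
      · exact huw hh
      · exact hub hh
    · rcases hx' with hh | hh
      · exact hwb hh.symm
      · exact hbb hh
  have hd3 : Disjoint (e j) (e k') := by
    rw [hej, hek', disjoint_left]
    intro x hx hx'
    rw [mem_insert, mem_singleton] at hx hx'
    rcases hx with rfl | rfl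
    · rcases hx' with hh | hh
      · exact hvw hh
      · exact hvb' hh
    · rcases hx' with hh | hh
      · exact hgw hh
      · exact hgb' hh
  have hself : ∀ a ∈ J, ¬ Disjoint (e a) (e a) := by
    intro a ha hh
    rw [disjoint_self, bot_eq_empty] at hh
    have := h.two a ha
    rw [hh] at this
    simp at this
  have hn1 : k ≠ j := fun hh => hself j hj (hh ▸ hd1)
  have hn2 : k ≠ k' := fun hh => hself k' hk' (hh ▸ hd2)
  have hn3 : j ≠ k' := fun hh => hself k' hk' (hh ▸ hd3)
  have h1 := MMC_aug h {i, i'} {k, j, k'}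
    (by
      intro a ha
      rw [mem_insert, mem_singleton] at ha
      rcases ha with rfl | rfl
      · exact hi
      · exact hi')
    (by
      intro a ha
      rw [mem_insert, mem_insert, mem_singleton] at ha
      rcases ha with rfl | rfl | rfl
      · exact hk
      · exact hj
      · exact hk')
    (by
      intro a ha c hc hac
      rw [mem_insert, mem_insert, mem_singleton] at ha hc
      rcases ha with rfl | rfl | rfl
      · rcases hc with rfl | rfl | rfl
        · exact absurd rfl hac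
        · exact hd1
        · exact hd2
      · rcases hc with rfl | rfl | rfl
        · exact hd1.symm
        · exact absurd rfl hac
        · exact hd3
      · rcases hc with rfl | rfl | rfl
        · exact hd2.symm
        · exact hd3.symm
        · exact absurd rfl hac)
    (by
      intro a ha m hm hmi
      rw [mem_insert, mem_singleton] at hmi
      push Not at hmi
      rw [mem_insert, mem_insert, mem_singleton] at ha
      rw [disjoint_left]
      intro x hx hxm
      have hxA : x ∈ M.biUnion e := mem_biUnion.2 ⟨m, hm, hxm⟩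
      rcases ha with rfl | rfl | rfl
      · rw [hek, mem_insert, mem_singleton] at hx
        rcases hx with rfl | rfl
        · exact hmi.1 (MMC_only h hi hm (by rw [hei]; simp) hxm)
        · exact hb hxA
      · rw [hej, mem_insert, mem_singleton] at hx
        rcases hx with rfl | rfl
        · exact hmi.1 (MMC_only h hi hm (by rw [hei]; simp) hxm)
        · exact hmi.2 (MMC_only h hi' hm (by rw [hei']; simp) hxm)
      · rw [hek', mem_insert, mem_singleton] at hx
        rcases hx with rfl | rfl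
        · exact hmi.2 (MMC_only h hi' hm (by rw [hei']; simp) hxm)
        · exact hb' hxA)
  rw [card_pair hii, card_insert_of_notMem (by
    rw [mem_insert, mem_singleton]
    push Not
    exact ⟨hn1, hn2⟩), card_pair hn3] at h1
  omega

theorem MMC_memD {j : ι} {x : X} (hj : j ∈ MMC_D e J M x) : j ∈ MMC_F e J M ∧ x ∈ e j := mem_filter.1 hj

theorem MMC_Dform (h : MMC_H e J M) {i j : ι} {x : X} (hi : i ∈ M) (hx : x ∈ e i) (hj : j ∈ MMC_D e J M x) :
    j ∈ J ∧ ∃ b, b ∉ M.biUnion e ∧ b ≠ x ∧ e j = {x, b} :=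
  ⟨MMC_memF (MMC_memD hj).1, MMC_form h (MMC_memD hj).1 (MMC_memD hj).2 (mem_biUnion.2 ⟨i, hi, hx⟩)⟩

/-- if both ends of an edge of the matching have such edges, then there is one at every end -/
theorem MMC_one (h : MMC_H e J M) {i : ι} {u v : X} (hi : i ∈ M) (hei : e i = {u, v}) (huv : u ≠ v)
    (hv : (MMC_D e J M v).Nonempty) : (MMC_D e J M u).card ≤ 1 := by
  obtain ⟨j', hj'⟩ := hv
  obtain ⟨hj'J, b', hb', hvb', hej'⟩ := MMC_Dform h hi (by rw [hei]; simp) hj'
  rw [card_le_one]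
  intro j1 hj1 j2 hj2
  obtain ⟨hj1J, b1, hb1, -, hej1⟩ := MMC_Dform h hi (by rw [hei]; simp) hj1
  obtain ⟨hj2J, b2, hb2, -, hej2⟩ := MMC_Dform h hi (by rw [hei]; simp) hj2
  have e1 := MMC_k1 h hi hei huv hj1J hj'J hej1 hej' hb1 hb'
  have e2 := MMC_k1 h hi hei huv hj2J hj'J hej2 hej' hb2 hb'
  apply h.simple j1 hj1J j2 hj2J
  rw [hej1, hej2, e1, e2]

/-- `i` itself is at `u` -/
theorem MMC_le2 (h : MMC_H e J M) {i : ι} {u : X} (hi : i ∈ M) (hu : u ∈ e i) (T : Finset ι)
    (hT : ∀ t ∈ T, t ∈ J ∧ u ∈ e t ∧ t ∉ MMC_F e J M) : (MMC_D e J M u).card + T.card ≤ 3 := by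
  have h1 := h.three i (h.MJ hi) u hu
  have h2 : Disjoint (MMC_D e J M u) T := by
    rw [disjoint_left]
    intro t ht htT
    exact (hT t htT).2.2 (MMC_memD ht).1
  rw [← card_union_of_disjoint h2, ← h1]
  apply card_le_card
  intro t ht
  rw [mem_union] at ht
  rw [mem_filter]
  rcases ht with ht | ht
  · exact ⟨MMC_memF (MMC_memD ht).1, (MMC_memD ht).2⟩
  · exact ⟨(hT t ht).1, (hT t ht).2.1⟩

theorem MMC_MnotF {i : ι} (hi : i ∈ M) : i ∉ MMC_F e J M := by
  intro hh
  exact (mem_filter.1 hh).2 (subset_biUnion_of_mem e hi)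

theorem MMC_sum (h : MMC_H e J M) {i : ι} {u v : X} (hi : i ∈ M) (hei : e i = {u, v}) (huv : u ≠ v) :
    (MMC_D e J M u).card + (MMC_D e J M v).card ≤ 2 := by
  have hei' : e i = {v, u} := by rw [hei, pair_comm]
  have h1 := MMC_le2 h hi (u := u) (by rw [hei]; simp) {i} (by
    intro t ht
    rw [mem_singleton] at ht
    rw [ht]
    exact ⟨h.MJ hi, by rw [hei]; simp, MMC_MnotF hi⟩)
  have h2 := MMC_le2 h hi (u := v) (by rw [hei]; simp) {i} (by
    intro t ht
    rw [mem_singleton] at ht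
    rw [ht]
    exact ⟨h.MJ hi, by rw [hei]; simp, MMC_MnotF hi⟩)
  rw [card_singleton] at h1 h2
  rcases (MMC_D e J M v).eq_empty_or_nonempty with h3 | h3
  · rw [h3, card_empty]
    omega
  · rcases (MMC_D e J M u).eq_empty_or_nonempty with h4 | h4
    · rw [h4, card_empty]
      omega
    · have h5 := MMC_one h hi hei huv h3
      have h6 := MMC_one h hi hei' huv.symm h4
      omega

theorem MMC_step (h : MMC_H e J M) {i : ι} {u v : X} (hi : i ∈ M) (hei : e i = {u, v}) (huv : u ≠ v)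
    (hv : (MMC_D e J M v).card ≤ 1) :
    ∃ j g i' w, j ∈ J ∧ e j = {v, g} ∧ i' ∈ M ∧ i ≠ i' ∧ e i' = {g, w} ∧ g ≠ w ∧ (MMC_D e J M g).card ≤ 1 := by
  have hvi : v ∈ e i := by rw [hei]; simp
  have h1 := h.three i (h.MJ hi) v hvi
  have h2 : ¬ (J.filter (fun j => v ∈ e j)) ⊆ insert i (MMC_D e J M v) := by
    intro hh
    have h3 := card_le_card hh
    have h4 := card_insert_le i (MMC_D e J M v)
    omega
  rw [not_subset] at h2
  obtain ⟨j, hj, hj2⟩ := h2
  rw [mem_filter] at hj
  rw [mem_insert] at hj2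
  push Not at hj2
  have hjF : j ∉ MMC_F e J M := fun hh => hj2.2 (mem_filter.2 ⟨hh, hj.2⟩)
  have hjA : e j ⊆ M.biUnion e := by
    by_contra hc
    exact hjF (mem_filter.2 ⟨hj.1, hc⟩)
  obtain ⟨g, hgv, hej⟩ : ∃ g, g ≠ v ∧ e j = {v, g} := by
    obtain ⟨p, q, hpq, he⟩ := card_eq_two.1 (h.two j hj.1)
    have hvj := hj.2
    rw [he, mem_insert, mem_singleton] at hvj
    rcases hvj with rfl | rfl
    · exact ⟨q, hpq.symm, he⟩
    · exact ⟨p, hpq, by rw [he, pair_comm]⟩
  have hgu : g ≠ u := by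
    intro hh
    apply hj2.1
    apply h.simple j hj.1 i (h.MJ hi)
    rw [hej, hei, hh, pair_comm]
  have hgj : g ∈ e j := by rw [hej]; simp
  obtain ⟨i', hi', hgi'⟩ := mem_biUnion.1 (hjA hgj)
  have hii : i ≠ i' := by
    intro hh
    rw [← hh, hei, mem_insert, mem_singleton] at hgi'
    rcases hgi' with hh | hh
    · exact hgu hh
    · exact hgv hh
  obtain ⟨w, hwg, hei'⟩ : ∃ w, g ≠ w ∧ e i' = {g, w} := by
    obtain ⟨p, q, hpq, he⟩ := card_eq_two.1 (h.two i' (h.MJ hi'))
    rw [he, mem_insert, mem_singleton] at hgi'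
    rcases hgi' with rfl | rfl
    · exact ⟨q, hpq, he⟩
    · exact ⟨p, hpq.symm, by rw [he, pair_comm]⟩
  have hji' : j ≠ i' := by
    intro hh
    exact disjoint_left.1 (h.mg i hi i' hi' hii) hvi (by rw [← hh, hej]; simp)
  have h5 := MMC_le2 h hi' hgi' {j, i'} (by
    intro t ht
    rw [mem_insert, mem_singleton] at ht
    rcases ht with rfl | rfl
    · exact ⟨hj.1, hgj, hjF⟩
    · exact ⟨h.MJ hi', hgi', MMC_MnotF hi'⟩)
  rw [card_pair hji'] at h5
  exact ⟨j, g, i', w, hj.1, hej, hi', hii, hei', hwg, by omega⟩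

theorem MMC_c1 (h : MMC_H e J M)
    (hE : ∀ i ∈ M, ∀ u v, u ≠ v → e i = {u, v} → (MMC_D e J M u).card + (MMC_D e J M v).card = 2)
    {i : ι} {u v : X} (hi : i ∈ M) (hei : e i = {u, v}) (huv : u ≠ v) (hu : (MMC_D e J M u).card = 2) : False := by
  have h1 := hE i hi u v huv hei
  obtain ⟨j, g, i', w, hj, hej, hi', hii, hei', hgw, hg⟩ := MMC_step h hi hei huv (by omega)
  have h2 := hE i' hi' g w hgw hei'
  have h3 : (MMC_D e J M w).Nonempty := by
    rw [← card_pos]
    omega
  obtain ⟨k', hk'⟩ := h3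
  obtain ⟨hk'J, b', hb', -, hek'⟩ := MMC_Dform h hi' (by rw [hei']; simp) hk'
  obtain ⟨k1, k2, hkk, hkD⟩ := card_eq_two.1 hu
  obtain ⟨hk1J, b1, hb1, -, hek1⟩ := MMC_Dform h (j := k1) (x := u) hi (by rw [hei]; simp) (by rw [hkD]; simp)
  obtain ⟨hk2J, b2, hb2, -, hek2⟩ := MMC_Dform h (j := k2) (x := u) hi (by rw [hei]; simp) (by rw [hkD]; simp)
  have e1 := MMC_k2 h hi hi' hii hei huv hei' hgw hj hej hk1J hk'J hek1 hek' hb1 hb'
  have e2 := MMC_k2 h hi hi' hii hei huv hei' hgw hj hej hk2J hk'J hek2 hek' hb2 hb'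
  apply hkk
  apply h.simple k1 hk1J k2 hk2J
  rw [hek1, hek2, e1, e2]

theorem MMC_c2 (h : MMC_H e J M)
    (hE : ∀ i ∈ M, ∀ u v, u ≠ v → e i = {u, v} → (MMC_D e J M u).card + (MMC_D e J M v).card = 2)
    {i : ι} {u v : X} (hi : i ∈ M) (hei : e i = {u, v}) (huv : u ≠ v) (hu : (MMC_D e J M u).card = 1) : False := by
  have h1 := hE i hi u v huv hei
  obtain ⟨j, g, i', w, hj, hej, hi', hii, hei', hgw, hg⟩ := MMC_step h hi hei huv (by omega)
  have h2 := hE i' hi' g w hgw hei'
  obtain ⟨k, hk⟩ : (MMC_D e J M u).Nonempty := by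
    rw [← card_pos]
    omega
  obtain ⟨k2, hk2⟩ : (MMC_D e J M v).Nonempty := by
    rw [← card_pos]
    omega
  obtain ⟨k3, hk3⟩ : (MMC_D e J M w).Nonempty := by
    rw [← card_pos]
    omega
  obtain ⟨hkJ, b, hb, hbu, hek⟩ := MMC_Dform h hi (by rw [hei]; simp) hk
  obtain ⟨hk2J, b2, hb2, hbv, hek2⟩ := MMC_Dform h hi (by rw [hei]; simp) hk2
  obtain ⟨hk3J, b3, hb3, hbw, hek3⟩ := MMC_Dform h hi' (by rw [hei']; simp) hk3
  have e2 := MMC_k1 h hi hei huv hkJ hk2J hek hek2 hb hb2
  have e3 := MMC_k2 h hi hi' hii hei huv hei' hgw hj hej hkJ hk3J hek hek3 hb hb3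
  have hw1 : (MMC_D e J M w).card ≤ 1 := by
    rw [card_le_one]
    intro x hx y hy
    obtain ⟨hxJ, bx, hbx, -, hex⟩ := MMC_Dform h hi' (by rw [hei']; simp) hx
    obtain ⟨hyJ, by', hby, -, hey⟩ := MMC_Dform h hi' (by rw [hei']; simp) hy
    have ex := MMC_k2 h hi hi' hii hei huv hei' hgw hj hej hkJ hxJ hek hex hb hbx
    have ey := MMC_k2 h hi hi' hii hei huv hei' hgw hj hej hkJ hyJ hek hey hb hby
    apply h.simple x hxJ y hyJ
    rw [hex, hey, ← ex, ← ey]
  obtain ⟨k4, hk4⟩ : (MMC_D e J M g).Nonempty := by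
    rw [← card_pos]
    omega
  obtain ⟨hk4J, b4, hb4, hbg, hek4⟩ := MMC_Dform h hi' (by rw [hei']; simp) hk4
  have e4 := MMC_k1 h hi' hei' hgw hk4J hk3J hek4 hek3 hb4 hb3
  rw [← e2] at hek2 hbv
  rw [← e3] at hek3 hbw
  rw [e4, ← e3] at hek4 hbg
  have hdi : Disjoint (e i) (e i') := h.mg i hi i' hi' hii
  have hug : u ≠ g := fun hh => disjoint_left.1 hdi (show u ∈ e i by rw [hei]; simp) (by rw [hei', hh]; simp)
  have huw : u ≠ w := fun hh => disjoint_left.1 hdi (show u ∈ e i by rw [hei]; simp) (by rw [hei', hh]; simp)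
  have hvg : v ≠ g := fun hh => disjoint_left.1 hdi (show v ∈ e i by rw [hei]; simp) (by rw [hei', hh]; simp)
  have hvw : v ≠ w := fun hh => disjoint_left.1 hdi (show v ∈ e i by rw [hei]; simp) (by rw [hei', hh]; simp)
  have hne : ∀ {s t : ι} {x y : X}, e s = {x, b} → e t = {y, b} → x ≠ y → b ≠ x → s ≠ t := by
    intro s t x y hs ht hxy hbx hst
    have hx : x ∈ e t := by rw [← hst, hs]; simp
    rw [ht, mem_insert, mem_singleton] at hx
    rcases hx with hx | hx
    · exact hxy hx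
    · exact hbx hx.symm
  have hcard : ({k, k2, k3, k4} : Finset ι).card = 4 := by
    rw [card_insert_of_notMem, card_insert_of_notMem, card_pair]
    · exact hne hek3 hek4 hgw.symm hbw
    · rw [mem_insert, mem_singleton]
      push Not
      exact ⟨hne hek2 hek3 hvw hbv, hne hek2 hek4 hvg hbv⟩
    · rw [mem_insert, mem_insert, mem_singleton]
      push Not
      exact ⟨hne hek hek2 huv hbu, hne hek hek3 huw hbu, hne hek hek4 hug hbu⟩
  have h7 := h.three k hkJ b (by rw [hek]; simp)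
  have h8 : ({k, k2, k3, k4} : Finset ι) ⊆ J.filter (fun j => b ∈ e j) := by
    intro t ht
    rw [mem_insert, mem_insert, mem_insert, mem_singleton] at ht
    rw [mem_filter]
    rcases ht with rfl | rfl | rfl | rfl
    · exact ⟨hkJ, by rw [hek]; simp⟩
    · exact ⟨hk2J, by rw [hek2]; simp⟩
    · exact ⟨hk3J, by rw [hek3]; simp⟩
    · exact ⟨hk4J, by rw [hek4]; simp⟩
  have h9 := card_le_card h8
  omega

/-- counting of the edges -/
theorem MMC_cnt1 (h : MMC_H e J M) : 2 * J.card ≤ 6 * M.card + (MMC_F e J M).card := by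
  have hA : (M.biUnion e).card = 2 * M.card := by
    rw [card_biUnion (fun a ha b hb hab => h.mg a ha b hb hab), sum_congr rfl (fun a ha => h.two a (h.MJ ha)),
      sum_const, smul_eq_mul, mul_comm]
  have h1 : ∑ x ∈ M.biUnion e, (J.filter (fun j => x ∈ e j)).card = 3 * (2 * M.card) := by
    rw [sum_congr rfl (g := fun _ => 3), sum_const, smul_eq_mul, hA, mul_comm]
    intro x hx
    obtain ⟨i, hi, hxi⟩ := mem_biUnion.1 hx
    exact h.three i (h.MJ hi) x hxi
  have h2 : ∑ x ∈ M.biUnion e, (J.filter (fun j => x ∈ e j)).card =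
      ∑ j ∈ J, ((M.biUnion e).filter (fun x => x ∈ e j)).card := by
    simp only [card_filter]
    exact sum_comm
  have h3 : (MMC_F e J M).card = ∑ j ∈ J, (if ¬ e j ⊆ M.biUnion e then 1 else 0) := by
    unfold MMC_F
    rw [card_filter]
  have h4 : 2 * J.card = ∑ j ∈ J, 2 := by
    rw [sum_const, smul_eq_mul, mul_comm]
  have h5 : ∑ j ∈ J, 2 ≤ ∑ j ∈ J, (((M.biUnion e).filter (fun x => x ∈ e j)).card +
      (if ¬ e j ⊆ M.biUnion e then 1 else 0)) := by
    apply sum_le_sum
    intro j hj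
    by_cases hc : e j ⊆ M.biUnion e
    · have h6 : (M.biUnion e).filter (fun x => x ∈ e j) = e j := by
        ext x
        rw [mem_filter]
        exact ⟨fun hh => hh.2, fun hh => ⟨hc hh, hh⟩⟩
      rw [h6, h.two j hj]
      omega
    · rw [if_pos hc]
      obtain ⟨x, hx, hxA⟩ := MMC_meet h hj
      have h6 : 0 < ((M.biUnion e).filter (fun x => x ∈ e j)).card :=
        card_pos.2 ⟨x, mem_filter.2 ⟨hxA, hx⟩⟩
      omega
  rw [sum_add_distrib, ← h2, ← h3, h1, ← h4] at h5
  omega

theorem MMC_cnt2 (h : MMC_H e J M) : (MMC_F e J M).card ≤ ∑ i ∈ M, ∑ x ∈ e i, (MMC_D e J M x).card := by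
  rw [← sum_biUnion (fun a ha b hb hab => h.mg a ha b hb hab)]
  refine le_trans (card_le_card ?_) card_biUnion_le
  intro j hj
  obtain ⟨x, hx, hxA⟩ := MMC_meet h (MMC_memF hj)
  exact mem_biUnion.2 ⟨x, hxA, mem_filter.2 ⟨hj, hx⟩⟩

end MMCsec

theorem stmt_MMC : Stmt_MMC := by
  classical
  intro X ι _ _ e J hne htwo hthree hsimple
  have hne' : (J.powerset.filter (fun M => Mg e M)).Nonempty :=
    ⟨∅, mem_filter.2 ⟨mem_powerset.2 (empty_subset _), fun i hi => absurd hi (notMem_empty i)⟩⟩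
  obtain ⟨M, hM, hmax⟩ := exists_max_image _ (fun M : Finset ι => M.card) hne'
  rw [mem_filter, mem_powerset] at hM
  have h : MMC_H e J M := ⟨htwo, hthree, hsimple, hM.1, hM.2, fun M' h1 h2 =>
    hmax M' (mem_filter.2 ⟨mem_powerset.2 h1, h2⟩)⟩
  refine ⟨M, hM.1, hM.2, ?_⟩
  by_contra hc
  push Not at hc
  have h1 := MMC_cnt1 h
  have h2 := MMC_cnt2 h
  have hle : ∀ i ∈ M, ∑ x ∈ e i, (MMC_D e J M x).card ≤ 2 := by
    intro i hi
    obtain ⟨u, v, huv, hei⟩ := card_eq_two.1 (htwo i (hM.1 hi))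
    rw [hei, sum_pair huv]
    exact MMC_sum h hi hei huv
  have hE : ∀ i ∈ M, ∀ u v, u ≠ v → e i = {u, v} → (MMC_D e J M u).card + (MMC_D e J M v).card = 2 := by
    intro i hi u v huv hei
    have h3 := MMC_sum h hi hei huv
    by_contra hcc
    have h4 : ∑ i ∈ M, ∑ x ∈ e i, (MMC_D e J M x).card < ∑ i ∈ M, 2 := by
      apply sum_lt_sum hle
      refine ⟨i, hi, ?_⟩
      rw [hei, sum_pair huv]
      omega
    rw [sum_const, smul_eq_mul] at h4
    omega
  obtain ⟨j, hj⟩ := hne
  obtain ⟨x, -, hx⟩ := MMC_meet h hj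
  obtain ⟨i, hi, -⟩ := mem_biUnion.1 hx
  obtain ⟨u, v, huv, hei⟩ := card_eq_two.1 (htwo i (hM.1 hi))
  have h5 := hE i hi u v huv hei
  have hei' : e i = {v, u} := by rw [hei, pair_comm]
  have h6 : (MMC_D e J M u).card = 0 ∨ (MMC_D e J M u).card = 1 ∨ (MMC_D e J M u).card = 2 := by omega
  rcases h6 with h6 | h6 | h6
  · exact MMC_c1 h hE hi hei' huv.symm (by omega)
  · exact MMC_c2 h hE hi hei huv h6
  · exact MMC_c1 h hE hi hei huv h6

end Pool.Agent.Work.MP_1ce445_n32
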