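import Pool.Agent.Work.MP_1ce445_n32.Interface

/-!
Block OPO of MP_1ce445_n32: the optimization.
-/

namespace Pool.Agent.Work.MP_1ce445_n32

open Finset Pool.Agent.Work.MP_1ce445_co_56 Pool.Agent.Work.MP_1ce445_lin

theorem OPO_one (n : ℝ) (hn : 6 ≤ n) (l g : ℕ) (h0 : l = 0 → (g : ℝ) ≤ n)
    (h1 : l ≠ 0 → (g : ℝ) = n - l) (h2 : l ≠ 0 → 2 ≤ l) :
    (g : ℝ) ≤ n * (1 - 2 / n) ^ ((l : ℝ) / 2) := by
  have hn0 : 0 < n := by linarith
  have hq : 2 / n ≤ 1 / 3 := by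
    rw [div_le_iff₀ hn0]
    linarith
  have hq0 : 0 < 2 / n := by positivity
  have hx : 0 < 1 - 2 / n := by linarith
  rcases eq_or_ne l 0 with h | h
  · have h3 := h0 h
    have h4 : ((l : ℕ) : ℝ) / 2 = 0 := by rw [h]; norm_num
    rw [h4, Real.rpow_zero, mul_one]
    exact h3
  · have h3 : (2 : ℝ) ≤ l := by exact_mod_cast h2 h
    have hB : 1 + (l : ℝ) / 2 * (-(2 / n)) ≤ (1 + -(2 / n)) ^ ((l : ℝ) / 2) :=
      one_add_mul_self_le_rpow_one_add (by linarith) (by linarith)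
    have h4 : n * (1 + (l : ℝ) / 2 * (-(2 / n))) = g := by
      rw [h1 h]
      field_simp
      ring
    have h5 : (1 + -(2 / n)) = 1 - 2 / n := by ring
    rw [h5] at hB
    calc (g : ℝ) = n * (1 + (l : ℝ) / 2 * (-(2 / n))) := h4.symm
      _ ≤ n * (1 - 2 / n) ^ ((l : ℝ) / 2) := mul_le_mul_of_nonneg_left hB hn0.le

/-- the sum of the losses is at least `2 q + 2` -/
theorem OPO_sum (q : ℕ) (e g l : Fin (4 * q - 1) → ℕ)
    (hl : ∀ j, l j = if e j = 0 then 0 else 4 * q + 2 - g j)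
    (h1 : ∀ j, e j + 4 * g j ≤ 4 * (4 * q + 2))
    (h3 : ∀ j, e j + 4 * g j = 4 * (4 * q + 2) → Even (4 * q + 2 - g j))
    (h4 : ∑ j, e j = 2 * (4 * q + 2)) : 2 * q + 2 ≤ ∑ j, l j := by
  have h5 : ∀ j, e j ≤ 4 * l j := by
    intro j
    rw [hl j]
    have := h1 j
    split_ifs with h
    · omega
    · omega
  have h6 : ∑ j, e j ≤ 4 * ∑ j, l j := by
    rw [Finset.mul_sum]
    exact Finset.sum_le_sum fun j _ => h5 j
  by_contra hcon
  have h7 : ∑ j, l j = 2 * q + 1 := by omega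
  have h8 : ∑ j, e j = ∑ j, 4 * l j := by
    rw [← Finset.mul_sum, h7, h4]
    ring
  have h9 : ∀ j, e j = 4 * l j := by
    intro j
    exact (Finset.sum_eq_sum_iff_of_le (fun i _ => h5 i)).mp h8 j (Finset.mem_univ j)
  have h10 : Even (∑ j, l j) := by
    refine Finset.even_sum _ fun j _ => ?_
    have h11 := h9 j
    have h12 := hl j
    by_cases h : e j = 0
    · rw [if_pos h] at h12
      rw [h12]
      exact Even.zero
    · rw [if_neg h] at h12
      rw [h12]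
      apply h3 j
      have := h1 j
      omega
  rw [h7] at h10
  rcases h10 with ⟨r, hr⟩
  omega

theorem stmt_OPO : Stmt_OPO := by
  intro q e g hq h1 h2 h3 h4
  have hqr : (1 : ℝ) ≤ q := by exact_mod_cast hq
  obtain ⟨n, hn⟩ : ∃ n : ℝ, n = 4 * (q : ℝ) + 2 := ⟨_, rfl⟩
  have hn6 : 6 ≤ n := by linarith
  have hn0 : 0 < n := by linarith
  have hx2 : 2 / n ≤ 1 / 3 := by
    rw [div_le_iff₀ hn0]
    linarith
  have hx : 0 < 1 - 2 / n := by linarith
  have hx1 : 1 - 2 / n ≤ 1 := by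
    have : 0 < 2 / n := by positivity
    linarith
  obtain ⟨l, hl⟩ : ∃ l : Fin (4 * q - 1) → ℕ, ∀ j, l j = if e j = 0 then 0 else 4 * q + 2 - g j :=
    ⟨fun j => if e j = 0 then 0 else 4 * q + 2 - g j, fun j => rfl⟩
  have hsum := OPO_sum q e g l hl h1 h3 h4
  have hg : ∀ j, (g j : ℝ) ≤ n * (1 - 2 / n) ^ ((l j : ℝ) / 2) := by
    intro j
    have hj1 := h1 j
    have hj2 := h2 j
    have hj := hl j
    apply OPO_one n hn6
    · intro _
      have h5 : g j ≤ 4 * q + 2 := by omega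
      have h6 : ((g j : ℕ) : ℝ) ≤ ((4 * q + 2 : ℕ) : ℝ) := by exact_mod_cast h5
      push_cast at h6
      rw [hn]
      exact h6
    · intro h
      have h5 : e j ≠ 0 := by
        intro h6
        rw [if_pos h6] at hj
        exact h hj
      rw [if_neg h5] at hj
      have h6 : g j + l j = 4 * q + 2 := by omega
      have h7 : ((g j + l j : ℕ) : ℝ) = ((4 * q + 2 : ℕ) : ℝ) := by rw [h6]
      push_cast at h7
      rw [hn]
      linarith
    · intro h
      have h5 : e j ≠ 0 := by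
        intro h6
        rw [if_pos h6] at hj
        exact h hj
      rw [if_neg h5] at hj
      have h6 := hj2 (Nat.pos_of_ne_zero h5)
      omega
  have h5 : ∏ j, (g j : ℝ) ≤ ∏ j : Fin (4 * q - 1), (n * (1 - 2 / n) ^ ((l j : ℝ) / 2)) :=
    Finset.prod_le_prod (fun j _ => Nat.cast_nonneg _) (fun j _ => hg j)
  rw [Finset.prod_mul_distrib, ← Real.rpow_sum_of_pos hx, Finset.prod_const, Finset.card_univ,
    Fintype.card_fin] at h5
  have h6 : (1 - 2 / n) ^ (∑ j, (l j : ℝ) / 2) ≤ (1 - 2 / n) ^ (((q + 1 : ℕ) : ℝ)) := by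
    apply Real.rpow_le_rpow_of_exponent_ge hx hx1
    rw [← Finset.sum_div]
    have h7 : ((2 * q + 2 : ℕ) : ℝ) ≤ ((∑ j, l j : ℕ) : ℝ) := by exact_mod_cast hsum
    push_cast at h7 ⊢
    linarith
  rw [Real.rpow_natCast] at h6
  have h8 : ∏ j, (g j : ℝ) ≤ n ^ (4 * q - 1) * (1 - 2 / n) ^ (q + 1) :=
    h5.trans (mul_le_mul_of_nonneg_left h6 (by positivity))
  have h9 : n ^ (4 * q - 1) * (1 - 2 / n) ^ (q + 1) = n ^ (3 * q - 2) * (n - 2) ^ (q + 1) := by
    have h10 : 4 * q - 1 = (3 * q - 2) + (q + 1) := by omega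
    rw [h10, pow_add, mul_assoc, ← mul_pow]
    have h11 : n * (1 - 2 / n) = n - 2 := by
      field_simp
    rw [h11]
  rw [h9] at h8
  have h12 : ((∏ j, g j : ℕ) : ℝ) ≤ (((4 * q + 2) ^ (3 * q - 2) * (4 * q) ^ (q + 1) : ℕ) : ℝ) := by
    push_cast
    rw [hn] at h8
    have h13 : (4 * (q : ℝ) + 2 - 2) = 4 * q := by ring
    rw [h13] at h8
    exact h8
  exact_mod_cast h12

end Pool.Agent.Work.MP_1ce445_n32
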