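import Pool.Agent.Work.MP_1ce445_n32.Interface

set_option autoImplicit false

namespace Pool.Agent.Work.MP_1ce445_n32

open Finset Pool.Agent.Work.MP_1ce445_co_56 Pool.Agent.Work.MP_1ce445_lin

/-- colour `(0, t)`, two classes of size 4 -/
def OUE_f0 {m : ℕ} (H x y : ZMod m) : ℕ :=
  if x = 0 ∧ y = 0 then 4
  else if x + y = 0 ∧ x + x ≠ 0 then 2
  else if x + y = 1 then (if x = 0 ∨ y = 0 then 0 else if x = H ∨ y = H then 1 else 2)
  else 0

/-- colour `(0, t)`, the class of size 6 -/
def OUE_n0 {m : ℕ} (H x : ZMod m) : ℕ :=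
  if x = H then 3 else if x = 1 then 2 else if x = H + 1 then 1 else 0

/-- colours `(j, t)`, `j ≠ 0`, two classes of size 4 -/
def OUE_f1 {m : ℕ} (x y : ZMod m) : ℕ :=
  if x + y = 0 ∧ x + x ≠ 0 then 2
  else if x + y = 1 then (if x = 0 ∨ y = 0 then 1 else 2)
  else 0

/-- colours `(j, t)`, `j ≠ 0`, the class of size 6 -/
def OUE_n1 {m : ℕ} (H x : ZMod m) : ℕ :=
  if x = 0 then 3 else if x = 1 then 1 else if x = H then 2 else 0

/-- the cycle -/
def OUE_cy {m : ℕ} (a b : ZMod m) : ℕ := if a - b = 1 ∨ b - a = 1 then 2 else 0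

/-- the outline -/
def OUE_O {m : ℕ} (H : ZMod m) :
    Fin 5 ⊕ (Fin 4 × ZMod m) → Option (ZMod m) → Option (ZMod m) → ℕ
  | .inl _, none, none => 6
  | .inl _, none, some _ => 0
  | .inl _, some _, none => 0
  | .inl j, some a, some b => if j = 0 ∨ j = 1 then (if a = b then 4 else 0) else OUE_cy a b
  | .inr _, none, none => 0
  | .inr (j, t), none, some a => if j = 0 then OUE_n0 H (a - t) else OUE_n1 H (a - t)
  | .inr (j, t), some a, none => if j = 0 then OUE_n0 H (a - t) else OUE_n1 H (a - t)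
  | .inr (j, t), some a, some b =>
    if j = 0 then OUE_f0 H (a - t) (b - t) else OUE_f1 (a - t) (b - t)

/-- arithmetic modulo an even number -/
structure OUE_A {m : ℕ} (H : ZMod m) : Prop where
  hh : H + H = 0
  h0 : H ≠ 0
  h1 : H ≠ 1
  h2 : H + 1 ≠ 0
  one : (1 : ZMod m) ≠ 0
  two : (1 : ZMod m) + 1 ≠ 0
  par : ∀ x y : ZMod m, x + x ≠ y + y + 1
  dbl : ∀ x : ZMod m, x + x = 0 → x = 0 ∨ x = H
  eo : ∀ d : ZMod m, ∃ e, d = e + e ∨ d = e + e + 1

lemma OUE_cast_ne {m a : ℕ} (h1 : 0 < a) (h2 : a < m) : ((a : ℕ) : ZMod m) ≠ 0 := by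
  intro h
  rw [ZMod.natCast_eq_zero_iff] at h
  exact absurd (Nat.le_of_dvd h1 h) (by omega)

lemma OUE_arith (h : ℕ) (hh : 2 ≤ h) [NeZero (h + h)] : OUE_A ((h : ℕ) : ZMod (h + h)) := by
  have c1 : (((h : ℕ) : ZMod (h + h))) + ((h : ℕ) : ZMod (h + h)) = 0 := by
    rw [← Nat.cast_add, ZMod.natCast_self]
  refine ⟨c1, OUE_cast_ne (by omega) (by omega), ?_, ?_, ?_, ?_, ?_, ?_, ?_⟩
  · intro e
    have h3 : (((h - 1 : ℕ)) : ZMod (h + h)) = 0 := by
      rw [Nat.cast_sub (by omega), e]; simp
    exact OUE_cast_ne (m := h + h) (a := h - 1) (by omega) (by omega) h3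
  · have := OUE_cast_ne (m := h + h) (a := h + 1) (by omega) (by omega)
    push_cast at this; exact this
  · have := OUE_cast_ne (m := h + h) (a := 1) (by omega) (by omega)
    push_cast at this; exact this
  · have := OUE_cast_ne (m := h + h) (a := 1 + 1) (by omega) (by omega)
    rw [Nat.cast_add, Nat.cast_one] at this; exact this
  · intro x y e
    have hd : 2 ∣ h + h := ⟨h, by omega⟩
    have e2 := congrArg (ZMod.castHom hd (ZMod 2)) e
    simp only [map_add, map_one] at e2
    have k : ∀ z : ZMod 2, z + z = 0 := by decide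
    rw [k, k] at e2
    exact absurd e2 (by decide)
  · intro x hx
    have hv : ((x.val + x.val : ℕ) : ZMod (h + h)) = 0 := by
      push_cast
      rw [ZMod.natCast_zmod_val]; exact hx
    rw [ZMod.natCast_eq_zero_iff] at hv
    have hl := ZMod.val_lt x
    obtain ⟨q, hq⟩ := hv
    have hq2 : q = 0 ∨ q = 1 := by
      rcases q with _ | _ | q
      · left; rfl
      · right; rfl
      · exfalso
        have : (h + h) * (q + 1 + 1) = (h + h) * q + (h + h) + (h + h) := by ring
        have h5 : 0 ≤ (h + h) * q := Nat.zero_le _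
        omega
    rcases hq2 with rfl | rfl
    · left
      have : x.val = 0 := by omega
      exact (ZMod.val_eq_zero x).1 this
    · right
      have h6 : x.val = h := by omega
      calc x = ((x.val : ℕ) : ZMod (h + h)) := (ZMod.natCast_zmod_val x).symm
        _ = ((h : ℕ) : ZMod (h + h)) := by rw [h6]
  · intro d
    rcases Nat.even_or_odd' d.val with ⟨w, hw | hw⟩
    · refine ⟨(w : ZMod (h + h)), Or.inl ?_⟩
      rw [← ZMod.natCast_zmod_val d, hw]; push_cast; ring
    · refine ⟨(w : ZMod (h + h)), Or.inr ?_⟩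
      rw [← ZMod.natCast_zmod_val d, hw]; push_cast; ring

section

variable {m : ℕ} [NeZero m] {H : ZMod m}

lemma OUE_f0_z (hA : OUE_A H) (x y : ZMod m) (h1 : x + y ≠ 0) (h2 : x + y ≠ 1) :
    OUE_f0 H x y = 0 := by
  unfold OUE_f0
  rw [if_neg, if_neg, if_neg h2]
  · rintro ⟨h, _⟩; exact h1 h
  · rintro ⟨rfl, rfl⟩; exact h1 (by ring)

lemma OUE_f1_z (x y : ZMod m) (h1 : x + y ≠ 0) (h2 : x + y ≠ 1) :
    OUE_f1 x y = 0 := by
  unfold OUE_f1
  rw [if_neg, if_neg h2]
  rintro ⟨h, _⟩; exact h1 h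

lemma OUE_f0_a (hA : OUE_A H) (x : ZMod m) :
    OUE_f0 H x (-x) = if x = 0 then 4 else if x = H then 0 else 2 := by
  unfold OUE_f0
  have h0 : x + -x = 0 := by ring
  have h3 : x + -x ≠ 1 := by rw [h0]; exact hA.one.symm
  by_cases hx : x = 0
  · subst hx; simp
  · rw [if_neg (by rintro ⟨h, _⟩; exact hx h), if_neg hx]
    by_cases hx2 : x = H
    · rw [if_neg, if_neg h3, if_pos hx2]
      rintro ⟨_, h⟩; rw [hx2] at h; exact h hA.hh
    · rw [if_pos, if_neg hx2]
      refine ⟨h0, fun h => ?_⟩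
      rcases hA.dbl x h with h | h
      · exact hx h
      · exact hx2 h

lemma OUE_f1_a (hA : OUE_A H) (x : ZMod m) :
    OUE_f1 x (-x) = if x = 0 then 0 else if x = H then 0 else 2 := by
  unfold OUE_f1
  have h0 : x + -x = 0 := by ring
  have h3 : x + -x ≠ 1 := by rw [h0]; exact hA.one.symm
  by_cases hx : x = 0
  · rw [if_neg, if_neg h3, if_pos hx]
    rintro ⟨_, h⟩; rw [hx] at h; exact h (by ring)
  · rw [if_neg hx]
    by_cases hx2 : x = H
    · rw [if_neg, if_neg h3, if_pos hx2]
      rintro ⟨_, h⟩; rw [hx2] at h; exact h hA.hh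
    · rw [if_pos, if_neg hx2]
      refine ⟨h0, fun h => ?_⟩
      rcases hA.dbl x h with h | h
      · exact hx h
      · exact hx2 h

lemma OUE_f0_b (hA : OUE_A H) (x y : ZMod m) (h : x + y = 1) :
    OUE_f0 H x y = if x = 0 ∨ y = 0 then 0 else if x = H ∨ y = H then 1 else 2 := by
  unfold OUE_f0
  rw [if_neg, if_neg, if_pos h]
  · rintro ⟨h1, _⟩; rw [h] at h1; exact hA.one h1
  · rintro ⟨rfl, rfl⟩; apply hA.one; rw [← h]; ring

lemma OUE_f1_b (hA : OUE_A H) (x y : ZMod m) (h : x + y = 1) :
    OUE_f1 x y = if x = 0 ∨ y = 0 then 1 else 2 := by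
  unfold OUE_f1
  rw [if_neg, if_pos h]
  rintro ⟨h1, _⟩; rw [h] at h1; exact hA.one h1

lemma OUE_f0_symm (x y : ZMod m) : OUE_f0 H x y = OUE_f0 H y x := by
  unfold OUE_f0
  have e1 : (x = 0 ∧ y = 0) ↔ (y = 0 ∧ x = 0) := and_comm
  have e2 : (x + y = 0 ∧ x + x ≠ 0) ↔ (y + x = 0 ∧ y + y ≠ 0) := by
    constructor
    · rintro ⟨h1, h2⟩
      refine ⟨by rw [add_comm]; exact h1, fun h => h2 ?_⟩
      have : x = -y := by linear_combination h1
      rw [this]; linear_combination -h
    · rintro ⟨h1, h2⟩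
      refine ⟨by rw [add_comm]; exact h1, fun h => h2 ?_⟩
      have : y = -x := by linear_combination h1
      rw [this]; linear_combination -h
  have e3 : (x + y = 1) ↔ (y + x = 1) := by rw [add_comm]
  have e4 : (x = 0 ∨ y = 0) ↔ (y = 0 ∨ x = 0) := or_comm
  have e5 : (x = H ∨ y = H) ↔ (y = H ∨ x = H) := or_comm
  simp only [e1, e2, e3, e4, e5]

lemma OUE_f1_symm (x y : ZMod m) : OUE_f1 x y = OUE_f1 y x := by
  unfold OUE_f1
  have e2 : (x + y = 0 ∧ x + x ≠ 0) ↔ (y + x = 0 ∧ y + y ≠ 0) := by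
    constructor
    · rintro ⟨h1, h2⟩
      refine ⟨by rw [add_comm]; exact h1, fun h => h2 ?_⟩
      have : x = -y := by linear_combination h1
      rw [this]; linear_combination -h
    · rintro ⟨h1, h2⟩
      refine ⟨by rw [add_comm]; exact h1, fun h => h2 ?_⟩
      have : y = -x := by linear_combination h1
      rw [this]; linear_combination -h
  have e3 : (x + y = 1) ↔ (y + x = 1) := by rw [add_comm]
  have e4 : (x = 0 ∨ y = 0) ↔ (y = 0 ∨ x = 0) := or_comm
  simp only [e2, e3, e4]

lemma OUE_f0_diag (hA : OUE_A H) (x : ZMod m) : OUE_f0 H x x = if x = 0 then 4 else 0 := by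
  unfold OUE_f0
  have h3 : x + x ≠ 1 := by
    have := hA.par x 0; rwa [zero_add, zero_add] at this
  by_cases hx : x = 0
  · simp [hx]
  · rw [if_neg (by rintro ⟨h, _⟩; exact hx h), if_neg (by rintro ⟨h1, h2⟩; exact h2 h1),
      if_neg h3, if_neg hx]

lemma OUE_f1_diag (hA : OUE_A H) (x : ZMod m) : OUE_f1 x x = 0 := by
  unfold OUE_f1
  have h3 : x + x ≠ 1 := by
    have := hA.par x 0; rwa [zero_add, zero_add] at this
  rw [if_neg (by rintro ⟨h1, h2⟩; exact h2 h1), if_neg h3]

lemma OUE_ne (hA : OUE_A H) (x : ZMod m) : -x ≠ 1 - x := by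
  intro h; apply hA.one; linear_combination -h

lemma OUE_row0 (hA : OUE_A H) (x : ZMod m) : OUE_n0 H x + ∑ y, OUE_f0 H x y = 4 := by
  have h1 : ∑ y, OUE_f0 H x y = OUE_f0 H x (-x) + OUE_f0 H x (1 - x) := by
    refine Fintype.sum_eq_add _ _ (OUE_ne hA x) ?_
    rintro y ⟨h1, h2⟩
    refine OUE_f0_z hA x y (fun h => h1 ?_) (fun h => h2 ?_)
    · linear_combination h
    · linear_combination h
  rw [h1, OUE_f0_a hA, OUE_f0_b hA x (1 - x) (by ring)]
  have e1 : (1 - x = 0) ↔ x = 1 := by
    constructor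
    · intro h; linear_combination -h
    · intro h; linear_combination -h
  have e2 : (1 - x = H) ↔ x = H + 1 := by
    constructor
    · intro h; linear_combination -h - hA.hh
    · intro h; linear_combination -h - hA.hh
  simp only [e1, e2]
  unfold OUE_n0
  have a0 := hA.h0
  have a1 := hA.h1
  have a2 := hA.h2
  have a3 := hA.one
  by_cases c0 : x = 0
  · subst c0
    rw [if_neg a0.symm, if_neg a3.symm, if_neg a2.symm]; simp
  · by_cases cH : x = H
    · subst cH
      simp [a0, a1, a3]
    · by_cases c1 : x = 1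
      · subst c1
        simp [a1.symm, a3]
      · by_cases c2 : x = H + 1
        · subst c2
          simp [a2, a0, a3]
        · simp [c0, cH, c1, c2]

lemma OUE_row1 (hA : OUE_A H) (x : ZMod m) : OUE_n1 H x + ∑ y, OUE_f1 x y = 4 := by
  have h1 : ∑ y, OUE_f1 x y = OUE_f1 x (-x) + OUE_f1 x (1 - x) := by
    refine Fintype.sum_eq_add _ _ (OUE_ne hA x) ?_
    rintro y ⟨h1, h2⟩
    refine OUE_f1_z x y (fun h => h1 ?_) (fun h => h2 ?_)
    · linear_combination h
    · linear_combination h
  rw [h1, OUE_f1_a hA, OUE_f1_b hA x (1 - x) (by ring)]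
  have e1 : (1 - x = 0) ↔ x = 1 := by
    constructor
    · intro h; linear_combination -h
    · intro h; linear_combination -h
  simp only [e1]
  unfold OUE_n1
  have a0 := hA.h0
  have a1 := hA.h1
  have a2 := hA.h2
  have a3 := hA.one
  by_cases c0 : x = 0
  · subst c0
    simp
  · by_cases cH : x = H
    · subst cH
      simp [a0, a1]
    · by_cases c1 : x = 1
      · subst c1
        simp [a1.symm, a3]
      · simp [c0, cH, c1]

lemma OUE_sum0 (hA : OUE_A H) : ∑ x : ZMod m, OUE_n0 H x = 6 := by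
  have a0 := hA.h0
  have a1 := hA.h1
  have a2 := hA.h2
  have a3 := hA.one
  have e : ∀ x : ZMod m, OUE_n0 H x = (if x = H then 3 else 0) + (if x = 1 then 2 else 0) +
      (if x = H + 1 then 1 else 0) := by
    intro x
    unfold OUE_n0
    by_cases cH : x = H
    · subst cH; simp [a1, a3]
    · by_cases c1 : x = 1
      · subst c1; simp [a1.symm, a0]
      · by_cases c2 : x = H + 1
        · simp [cH, c1, c2, a0, a3]
        · simp [cH, c1, c2]
  simp only [e, sum_add_distrib, sum_ite_eq', mem_univ, if_true]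

lemma OUE_sum1 (hA : OUE_A H) : ∑ x : ZMod m, OUE_n1 H x = 6 := by
  have a0 := hA.h0
  have a1 := hA.h1
  have a2 := hA.h2
  have a3 := hA.one
  have e : ∀ x : ZMod m, OUE_n1 H x = (if x = 0 then 3 else 0) + (if x = 1 then 1 else 0) +
      (if x = H then 2 else 0) := by
    intro x
    unfold OUE_n1
    by_cases c0 : x = 0
    · subst c0; simp [a0.symm, a3.symm]
    · by_cases c1 : x = 1
      · subst c1; simp [a1.symm, a3]
      · simp [c0, c1]
  simp only [e, sum_add_distrib, sum_ite_eq', mem_univ, if_true]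

lemma OUE_shift (F : ZMod m → ℕ) (a : ZMod m) : ∑ t, F (a - t) = ∑ x, F x :=
  (Equiv.subLeft a).sum_comp F

lemma OUE_shift2 (F : ZMod m → ZMod m → ℕ) (a b : ZMod m) :
    ∑ t, F (a - t) (b - t) = ∑ x, F x (x - (a - b)) := by
  rw [← OUE_shift (fun x => F x (x - (a - b))) a]
  refine sum_congr rfl fun t _ => ?_
  congr 1; ring

/-- the sum over the colours `(j, t)` -/
lemma OUE_off (hA : OUE_A H) (a b : ZMod m) (hab : a ≠ b) :
    3 * OUE_cy a b + (∑ t, OUE_f0 H (a - t) (b - t) + 3 * ∑ t, OUE_f1 (a - t) (b - t)) = 16 := by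
  rw [OUE_shift2 (fun x y => OUE_f0 H x y), OUE_shift2 (fun x y => OUE_f1 x y)]
  have hd : a - b ≠ 0 := sub_ne_zero.2 hab
  have hba : b - a = -(a - b) := by ring
  unfold OUE_cy
  rw [hba]
  generalize a - b = d at hd
  obtain ⟨e, he | he⟩ := hA.eo d
  · subst he
    have ne1 : e ≠ e + H := by
      intro h; apply hA.h0; linear_combination -h
    have z1 : ∀ x : ZMod m, x ≠ e ∧ x ≠ e + H → x + (x - (e + e)) ≠ 0 := by
      rintro x ⟨h1, h2⟩ h
      rcases hA.dbl (x - e) (by linear_combination h) with h | h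
      · exact h1 (by linear_combination h)
      · exact h2 (by linear_combination h)
    have z2 : ∀ x : ZMod m, x + (x - (e + e)) ≠ 1 := by
      intro x h
      exact hA.par x e (by linear_combination h)
    have s0 : ∑ x, OUE_f0 H x (x - (e + e)) = OUE_f0 H e (e - (e + e)) +
        OUE_f0 H (e + H) (e + H - (e + e)) :=
      Fintype.sum_eq_add _ _ ne1 fun x hx => OUE_f0_z hA _ _ (z1 x hx) (z2 x)
    have s1 : ∑ x, OUE_f1 x (x - (e + e)) = OUE_f1 e (e - (e + e)) +
        OUE_f1 (e + H) (e + H - (e + e)) :=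
      Fintype.sum_eq_add _ _ ne1 fun x hx => OUE_f1_z _ _ (z1 x hx) (z2 x)
    have r1 : e - (e + e) = -e := by ring
    have r2 : e + H - (e + e) = -(e + H) := by linear_combination hA.hh
    have q1 : e ≠ 0 := by rintro rfl; exact hd (by ring)
    have q2 : e ≠ H := by rintro rfl; exact hd hA.hh
    have q3 : e + H ≠ 0 := by
      intro h; exact q2 (by linear_combination h - hA.hh)
    have q4 : e + H ≠ H := by
      intro h; exact q1 (by linear_combination h)
    have q5 : ¬ (e + e = 1 ∨ -(e + e) = 1) := by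
      rintro (h | h)
      · exact hA.par e 0 (by linear_combination h)
      · exact hA.par (-e) 0 (by linear_combination h)
    rw [s0, s1, r1, r2, OUE_f0_a hA, OUE_f0_a hA, OUE_f1_a hA, OUE_f1_a hA, if_neg q5]
    simp only [if_neg q1, if_neg q2, if_neg q3, if_neg q4]
  · subst he
    have ne1 : e + 1 ≠ e + 1 + H := by
      intro h; apply hA.h0; linear_combination -h
    have z1 : ∀ x : ZMod m, x + (x - (e + e + 1)) ≠ 0 := by
      intro x h
      exact hA.par x e (by linear_combination h)
    have z2 : ∀ x : ZMod m, x ≠ e + 1 ∧ x ≠ e + 1 + H → x + (x - (e + e + 1)) ≠ 1 := by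
      rintro x ⟨h1, h2⟩ h
      rcases hA.dbl (x - (e + 1)) (by linear_combination h) with h | h
      · exact h1 (by linear_combination h)
      · exact h2 (by linear_combination h)
    have s0 : ∑ x, OUE_f0 H x (x - (e + e + 1)) = OUE_f0 H (e + 1) (e + 1 - (e + e + 1)) +
        OUE_f0 H (e + 1 + H) (e + 1 + H - (e + e + 1)) :=
      Fintype.sum_eq_add _ _ ne1 fun x hx => OUE_f0_z hA _ _ (z1 x) (z2 x hx)
    have s1 : ∑ x, OUE_f1 x (x - (e + e + 1)) = OUE_f1 (e + 1) (e + 1 - (e + e + 1)) +
        OUE_f1 (e + 1 + H) (e + 1 + H - (e + e + 1)) :=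
      Fintype.sum_eq_add _ _ ne1 fun x hx => OUE_f1_z _ _ (z1 x) (z2 x hx)
    have r1 : e + 1 - (e + e + 1) = -e := by ring
    have r2 : e + 1 + H - (e + e + 1) = H - e := by ring
    have t1 : e + 1 + -e = 1 := by ring
    have t2 : e + 1 + H + (H - e) = 1 := by linear_combination hA.hh
    rw [s0, s1, r1, r2, OUE_f0_b hA _ _ t1, OUE_f0_b hA _ _ t2, OUE_f1_b hA _ _ t1,
      OUE_f1_b hA _ _ t2]
    have i1 : -e = 0 ↔ e = 0 := neg_eq_zero
    have i2 : -e = H ↔ e = H := by
      constructor
      · intro h; linear_combination -h - hA.hh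
      · intro h; linear_combination -h - hA.hh
    have i3 : e + 1 + H = 0 ↔ e + 1 = H := by
      constructor
      · intro h; linear_combination h - hA.hh
      · intro h; linear_combination h + hA.hh
    have i4 : e + 1 + H = H ↔ e + 1 = 0 := by
      constructor
      · intro h; linear_combination h
      · intro h; linear_combination h
    have i5 : H - e = 0 ↔ e = H := by
      constructor
      · intro h; linear_combination -h
      · intro h; linear_combination -h
    have i6 : H - e = H ↔ e = 0 := by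
      constructor
      · intro h; linear_combination -h
      · intro h; linear_combination -h
    have i7 : e + e + 1 = 1 ↔ (e = 0 ∨ e = H) := by
      constructor
      · intro h; exact hA.dbl e (by linear_combination h)
      · rintro (h | h)
        · rw [h]; ring
        · rw [h]; linear_combination hA.hh
    have i8 : -(e + e + 1) = 1 ↔ (e + 1 = 0 ∨ e + 1 = H) := by
      constructor
      · intro h; exact hA.dbl (e + 1) (by linear_combination -h)
      · rintro (h | h)
        · linear_combination (-2) * h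
        · linear_combination (-2) * h - hA.hh
    simp only [i1, i2, i3, i4, i5, i6, i7, i8]
    have x1 : ¬ (e = 0 ∧ e + 1 = 0) := by
      rintro ⟨h1, h2⟩; exact hA.one (by linear_combination h2 - h1)
    have x2 : ¬ (e = 0 ∧ e = H) := by
      rintro ⟨h1, h2⟩; exact hA.h0 (by linear_combination h1 - h2)
    have x3 : ¬ (e = 0 ∧ e + 1 = H) := by
      rintro ⟨h1, h2⟩; exact hA.h1 (by linear_combination h1 - h2)
    have x4 : ¬ (e + 1 = 0 ∧ e = H) := by
      rintro ⟨h1, h2⟩; exact hA.h2 (by linear_combination h1 - h2)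
    have x5 : ¬ (e + 1 = 0 ∧ e + 1 = H) := by
      rintro ⟨h1, h2⟩; exact hA.h0 (by linear_combination h1 - h2)
    have x6 : ¬ (e = H ∧ e + 1 = H) := by
      rintro ⟨h1, h2⟩; exact hA.one (by linear_combination h2 - h1)
    clear i1 i2 i3 i4 i5 i6 i7 i8 s0 s1 r1 r2 t1 t2 z1 z2 ne1 hd
    by_cases p1 : e = 0
    · have p2 : ¬ e + 1 = 0 := fun h => x1 ⟨p1, h⟩
      have p3 : ¬ e = H := fun h => x2 ⟨p1, h⟩
      have p4 : ¬ e + 1 = H := fun h => x3 ⟨p1, h⟩
      simp only [if_pos p1, p1, p2, p3, p4, if_true, if_false, true_or, or_true, or_false, false_or]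
      simp [hA.h0.symm, hA.one, hA.h1.symm]
    · by_cases p2 : e + 1 = 0
      · have p3 : ¬ e = H := fun h => x4 ⟨p2, h⟩
        have p4 : ¬ e + 1 = H := fun h => x5 ⟨p2, h⟩
        simp only [p1, p2, p3, p4, if_true, if_false, true_or, or_true, or_false, false_or]
        simp [hA.h0.symm]
      · by_cases p3 : e = H
        · have p4 : ¬ e + 1 = H := fun h => x6 ⟨p3, h⟩
          simp only [p1, p2, p3, p4, if_true, if_false, true_or, or_true, or_false, false_or]
          simp [hA.h0, hA.h2]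
        · by_cases p4 : e + 1 = H
          · simp only [p1, p2, p3, p4, if_true, if_false, true_or, or_true, or_false, false_or]
            simp [hA.h0]
          · simp only [p1, p2, p3, p4, if_true, if_false, true_or, or_true, or_false, false_or]

end

theorem stmt_OUE : Stmt_OUE := by
  intro m hm h4 hev
  obtain ⟨h, rfl⟩ := hev
  have hA := OUE_arith h (by omega)
  generalize ((h : ℕ) : ZMod (h + h)) = H at hA
  generalize h + h = m at *
  have s5 : ∀ j : Fin 5, j = 0 ∨ j = 1 ∨ j = 2 ∨ j = 3 ∨ j = 4 := by decide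
  refine ⟨OUE_O H, ?_, ?_, ?_, ?_, ?_, ?_, ?_, rfl, rfl, rfl, ?_⟩
  · -- symm
    rintro (j | ⟨j, t⟩) (_ | a) (_ | b)
    · rfl
    · rfl
    · rfl
    · show (if j = 0 ∨ j = 1 then (if a = b then 4 else 0) else OUE_cy a b) =
        (if j = 0 ∨ j = 1 then (if b = a then 4 else 0) else OUE_cy b a)
      have e1 : (a = b) ↔ (b = a) := eq_comm
      have e2 : OUE_cy a b = OUE_cy b a := by
        unfold OUE_cy; simp only [or_comm]
      rw [e2]; simp only [e1]
    · rfl
    · rfl
    · rfl
    · show (if j = 0 then OUE_f0 H (a - t) (b - t) else OUE_f1 (a - t) (b - t)) =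
        (if j = 0 then OUE_f0 H (b - t) (a - t) else OUE_f1 (b - t) (a - t))
      rw [OUE_f0_symm, OUE_f1_symm]
  · -- even
    rintro (j | ⟨j, t⟩) (_ | a)
    · show Even 6; decide
    · show Even (if j = 0 ∨ j = 1 then (if a = a then 4 else 0) else OUE_cy a a)
      unfold OUE_cy
      split_ifs <;> decide
    · show Even 0; decide
    · show Even (if j = 0 then OUE_f0 H (a - t) (a - t) else OUE_f1 (a - t) (a - t))
      rw [OUE_f0_diag hA, OUE_f1_diag hA]
      split_ifs <;> decide
  · -- row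
    rintro (j | ⟨j, t⟩) (_ | a)
    · rw [Fintype.sum_option]
      show 6 + ∑ b : ZMod m, 0 = 6
      simp
    · rw [Fintype.sum_option]
      show 0 + ∑ b : ZMod m, (if j = 0 ∨ j = 1 then (if a = b then 4 else 0) else OUE_cy a b) = 4
      by_cases hj : j = 0 ∨ j = 1
      · simp [hj]
      · simp only [hj, if_false, zero_add]
        have ne : a - 1 ≠ a + 1 := by
          intro h; exact hA.two (by linear_combination -h)
        rw [Fintype.sum_eq_add (a - 1) (a + 1) ne]
        · unfold OUE_cy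
          rw [if_pos (Or.inl (by ring)), if_pos (Or.inr (by ring))]
        · rintro x ⟨h1, h2⟩
          unfold OUE_cy
          rw [if_neg]
          rintro (h | h)
          · exact h1 (by linear_combination -h)
          · exact h2 (by linear_combination h)
    · rw [Fintype.sum_option]
      show 0 + ∑ a : ZMod m, (if j = 0 then OUE_n0 H (a - t) else OUE_n1 H (a - t)) = 6
      have e0 : ∑ a : ZMod m, OUE_n0 H (a - t) = 6 := by
        rw [← OUE_sum0 hA]; exact (Equiv.subRight t).sum_comp (OUE_n0 H)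
      have e1 : ∑ a : ZMod m, OUE_n1 H (a - t) = 6 := by
        rw [← OUE_sum1 hA]; exact (Equiv.subRight t).sum_comp (OUE_n1 H)
      split_ifs
      · rw [e0]
      · rw [e1]
    · rw [Fintype.sum_option]
      show (if j = 0 then OUE_n0 H (a - t) else OUE_n1 H (a - t)) + ∑ b : ZMod m,
        (if j = 0 then OUE_f0 H (a - t) (b - t) else OUE_f1 (a - t) (b - t)) = 4
      split_ifs
      · rw [← OUE_row0 hA (a - t)]
        congr 1
        exact (Equiv.subRight t).sum_comp (OUE_f0 H (a - t))
      · rw [← OUE_row1 hA (a - t)]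
        congr 1
        exact (Equiv.subRight t).sum_comp (OUE_f1 (a - t))
  · -- off
    have key : ∀ a : ZMod m, ∑ c, OUE_O H c none (some a) = 24 := by
      intro a
      rw [Fintype.sum_sum_type, Fintype.sum_prod_type]
      show ∑ j : Fin 5, 0 + ∑ j : Fin 4, ∑ t : ZMod m,
        (if j = 0 then OUE_n0 H (a - t) else OUE_n1 H (a - t)) = 24
      rw [Fin.sum_univ_four]
      simp only [if_true, Fin.reduceEq, if_false, OUE_shift, OUE_sum0 hA, OUE_sum1 hA]
      simp
    rintro (_ | a) (_ | b) hab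
    · exact absurd rfl hab
    · exact key b
    · have : ∑ c, OUE_O H c (some a) none = ∑ c, OUE_O H c none (some a) := by
        refine sum_congr rfl fun c _ => ?_
        rcases c with j | ⟨j, t⟩ <;> rfl
      rw [this, key]; rfl
    · have hab' : a ≠ b := fun h => hab (by rw [h])
      rw [Fintype.sum_sum_type, Fintype.sum_prod_type]
      show ∑ j : Fin 5, (if j = 0 ∨ j = 1 then (if a = b then 4 else 0) else OUE_cy a b) +
        ∑ j : Fin 4, ∑ t : ZMod m,
        (if j = 0 then OUE_f0 H (a - t) (b - t) else OUE_f1 (a - t) (b - t)) = 16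
      rw [Fin.sum_univ_five, Fin.sum_univ_four]
      simp only [hab', if_false, if_true, Fin.reduceEq, or_false, or_true, true_or, false_or]
      have := OUE_off hA a b hab'
      omega
  · -- diag
    rintro (_ | a)
    · rw [Fintype.sum_sum_type, Fintype.sum_prod_type]
      show ∑ j : Fin 5, 6 + ∑ j : Fin 4, ∑ t : ZMod m, 0 = 30
      simp
    · rw [Fintype.sum_sum_type, Fintype.sum_prod_type]
      show ∑ j : Fin 5, (if j = 0 ∨ j = 1 then (if a = a then 4 else 0) else OUE_cy a a) +
        ∑ j : Fin 4, ∑ t : ZMod m,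
        (if j = 0 then OUE_f0 H (a - t) (a - t) else OUE_f1 (a - t) (a - t)) = 12
      rw [Fin.sum_univ_five, Fin.sum_univ_four]
      have c0 : OUE_cy a a = 0 := by
        unfold OUE_cy
        rw [if_neg]
        rintro (h | h)
        · exact hA.one (by linear_combination -h)
        · exact hA.one (by linear_combination -h)
      have c1 : ∑ t : ZMod m, (if a - t = 0 then 4 else 0) = 4 := by
        rw [OUE_shift (fun x => if x = 0 then 4 else 0)]; simp
      simp only [if_true, Fin.reduceEq, or_false, or_true, true_or, false_or, if_false, c0,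
        OUE_f0_diag hA, OUE_f1_diag hA, c1]
      simp
  · rintro (_ | a)
    · rfl
    · show (if (0 : Fin 5) = 0 ∨ (0 : Fin 5) = 1 then (if a = a then 4 else 0) else OUE_cy a a) = 4
      simp
  · rintro (_ | a)
    · rfl
    · show (if (1 : Fin 5) = 0 ∨ (1 : Fin 5) = 1 then (if a = a then 4 else 0) else OUE_cy a a) = 4
      simp
  · intro t
    show (if (0 : Fin 4) = 0 then OUE_f0 H (t - t) (t - t) else OUE_f1 (t - t) (t - t)) = 4
    rw [if_pos rfl, OUE_f0_diag hA, if_pos (by ring)]

end Pool.Agent.Work.MP_1ce445_n32
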