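import Pool.Agent.Work.MP_1ce445_n32.Interface

set_option autoImplicit false

/-! # Block OUO -/

namespace Pool.Agent.Work.MP_1ce445_n32

open Finset Pool.Agent.Work.MP_1ce445_co_56 Pool.Agent.Work.MP_1ce445_lin

/-- colours `inr (0, t)` -/
def OUO_F0 {m : ℕ} (t : ZMod m) : Option (ZMod m) → Option (ZMod m) → ℕ
  | none, none => 0
  | none, some a => if a - t = 1 ∨ a - t = -1 then 3 else 0
  | some a, none => if a - t = 1 ∨ a - t = -1 then 3 else 0
  | some a, some b =>
      if (a - t) + (b - t) = 0 then (if a - t = 1 ∨ a - t = -1 then 1 else 4) else 0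

/-- colours `inr (j, t)`, `j` not `0` -/
def OUO_F1 {m : ℕ} (t : ZMod m) : Option (ZMod m) → Option (ZMod m) → ℕ
  | none, none => 0
  | none, some a => if a - t = 0 then 4 else if a - t = 1 ∨ a - t = -1 then 1 else 0
  | some a, none => if a - t = 0 then 4 else if a - t = 1 ∨ a - t = -1 then 1 else 0
  | some a, some b =>
      if (a - t) + (b - t) = 0 then
        (if a - t = 0 then 0 else if a - t = 1 ∨ a - t = -1 then 3 else 4) else 0

/-- colours `inl 2`, `inl 3`, `inl 4` -/
def OUO_E2 {m : ℕ} : Option (ZMod m) → Option (ZMod m) → ℕ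
  | none, none => 6
  | none, some _ => 0
  | some _, none => 0
  | some a, some b => if a - b = 2 ∨ b - a = 2 then 2 else 0

/-- colours `inl 0`, `inl 1` -/
def OUO_E0 {m : ℕ} (a b : Option (ZMod m)) : ℕ := if a = b then sz a else 0

/-- the outline -/
def OUO_O {m : ℕ} : Fin 5 ⊕ (Fin 4 × ZMod m) → Option (ZMod m) → Option (ZMod m) → ℕ
  | .inl j => if j = 0 ∨ j = 1 then OUO_E0 else OUO_E2
  | .inr p => if p.1 = 0 then OUO_F0 p.2 else OUO_F1 p.2

section
set_option linter.unusedSectionVars false
variable {m : ℕ} [NeZero m]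

theorem OUO_two (hodd : Odd m) : ∀ x : ZMod m, x + x = 0 → x = 0 := by
  intro x hx
  have h : IsUnit ((2 : ℕ) : ZMod m) := by
    rw [ZMod.isUnit_iff_coprime]
    exact (Nat.coprime_two_left).2 hodd
  have h2 : ((2 : ℕ) : ZMod m) * x = 0 := by
    push_cast
    rw [two_mul]
    exact hx
  exact (h.mul_right_eq_zero).1 h2

theorem OUO_half (hodd : Odd m) (c : ZMod m) : ∃ t : ZMod m, t + t = c := by
  have h : IsUnit ((2 : ℕ) : ZMod m) := by
    rw [ZMod.isUnit_iff_coprime]
    exact (Nat.coprime_two_left).2 hodd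
  obtain ⟨u, hu⟩ := h
  refine ⟨↑u⁻¹ * c, ?_⟩
  have h1 : ((u : ZMod m)) * ↑u⁻¹ = 1 := by simp
  rw [← two_mul]
  calc (2 : ZMod m) * (↑u⁻¹ * c) = ((2 : ℕ) : ZMod m) * (↑u⁻¹ * c) := by push_cast; rfl
    _ = ((u : ZMod m)) * (↑u⁻¹ * c) := by rw [hu]
    _ = c := by rw [← mul_assoc, h1, one_mul]

theorem OUO_one (hm : 3 ≤ m) : (1 : ZMod m) ≠ 0 := by
  intro h
  have h1 : ((1 : ℕ) : ZMod m) = 0 := by push_cast; exact h
  rw [ZMod.natCast_eq_zero_iff] at h1
  have := Nat.le_of_dvd (by norm_num) h1
  omega

theorem OUO_ne (hm : 3 ≤ m) (hodd : Odd m) : (1 : ZMod m) ≠ -1 := by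
  intro h
  have h1 : (1 : ZMod m) + 1 = 0 := by
    nth_rewrite 1 [h]
    ring
  exact OUO_one hm (OUO_two hodd _ h1)

theorem OUO_ne2 (hm : 3 ≤ m) (hodd : Odd m) : (2 : ZMod m) ≠ 0 := by
  intro h
  exact OUO_one hm (OUO_two hodd 1 (by rw [one_add_one_eq_two]; exact h))

/-- the two neighbours -/
theorem OUO_pm (hm : 3 ≤ m) (hodd : Odd m) (t : ZMod m) (c : ℕ) :
    ∑ a : ZMod m, (if a - t = 1 ∨ a - t = -1 then c else 0) = 2 * c := by
  have h1 : ∀ a : ZMod m, (if a - t = 1 ∨ a - t = -1 then c else 0) =
      (if a = 1 + t then c else 0) + (if a = -1 + t then c else 0) := by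
    intro a
    by_cases h : a - t = 1
    · have h' : a = 1 + t := by rw [← h]; ring
      have h'' : ¬ a = -1 + t := by
        intro h2
        apply OUO_ne hm hodd
        have := h'.symm.trans h2
        exact add_right_cancel this
      rw [if_pos (Or.inl h), if_pos h', if_neg h'', add_zero]
    · have h' : ¬ a = 1 + t := fun h2 => h (by rw [h2]; ring)
      by_cases g : a - t = -1
      · have g' : a = -1 + t := by rw [← g]; ring
        rw [if_pos (Or.inr g), if_neg h', if_pos g']
        simp
      · have g' : ¬ a = -1 + t := fun h2 => g (by rw [h2]; ring)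
        rw [if_neg (by tauto), if_neg h', if_neg g']
  rw [Finset.sum_congr rfl (fun a _ => h1 a), Finset.sum_add_distrib]
  simp
  ring

/-- the two neighbours, summation over `t` -/
theorem OUO_pm' (hm : 3 ≤ m) (hodd : Odd m) (a : ZMod m) (c : ℕ) :
    ∑ t : ZMod m, (if a - t = 1 ∨ a - t = -1 then c else 0) = 2 * c := by
  have h := OUO_pm hm hodd a c
  rw [← h]
  apply Finset.sum_congr rfl
  intro t _
  congr 1
  apply propext
  constructor
  · rintro (h | h)
    · right; rw [← neg_sub, h]
    · left; rw [← neg_sub, h, neg_neg]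
  · rintro (h | h)
    · right; rw [← neg_sub, h]
    · left; rw [← neg_sub, h, neg_neg]

theorem OUO_pm0 (hm : 3 ≤ m) (hodd : Odd m) (t : ZMod m) (c d : ℕ) :
    ∑ a : ZMod m, (if a - t = 0 then d else if a - t = 1 ∨ a - t = -1 then c else 0) =
      d + 2 * c := by
  have h1 : ∀ a : ZMod m, (if a - t = 0 then d else if a - t = 1 ∨ a - t = -1 then c else 0) =
      (if a = t then d else 0) + (if a - t = 1 ∨ a - t = -1 then c else 0) := by
    intro a
    by_cases h : a - t = 0
    · have h' : a = t := sub_eq_zero.1 h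
      have h2 : ¬ (a - t = 1 ∨ a - t = -1) := by
        rw [h]
        rintro (g | g)
        · exact OUO_one hm g.symm
        · apply OUO_one hm
          have := congrArg Neg.neg g
          simpa using this.symm
      rw [if_pos h, if_pos h', if_neg h2, add_zero]
    · have h' : ¬ a = t := fun h2 => h (sub_eq_zero.2 h2)
      rw [if_neg h, if_neg h']
      simp
  rw [Finset.sum_congr rfl (fun a _ => h1 a), Finset.sum_add_distrib, OUO_pm hm hodd]
  simp

theorem OUO_pm0' (hm : 3 ≤ m) (hodd : Odd m) (a : ZMod m) (c d : ℕ) :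
    ∑ t : ZMod m, (if a - t = 0 then d else if a - t = 1 ∨ a - t = -1 then c else 0) =
      d + 2 * c := by
  have h := OUO_pm0 hm hodd a c d
  rw [← h]
  apply Finset.sum_congr rfl
  intro t _
  have e0 : (a - t = 0) = (t - a = 0) := by
    apply propext
    rw [sub_eq_zero, sub_eq_zero]
    exact eq_comm
  have e1 : (a - t = 1 ∨ a - t = -1) = (t - a = 1 ∨ t - a = -1) := by
    apply propext
    constructor
    · rintro (h | h)
      · right; rw [← neg_sub, h]
      · left; rw [← neg_sub, h, neg_neg]
    · rintro (h | h)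
      · right; rw [← neg_sub, h]
      · left; rw [← neg_sub, h, neg_neg]
  simp only [e0, e1]

/-- the reflection -/
theorem OUO_ref (t a : ZMod m) (v : ℕ) :
    ∑ b : ZMod m, (if (a - t) + (b - t) = 0 then v else 0) = v := by
  have h1 : ∀ b : ZMod m, ((a - t) + (b - t) = 0) = (b = t + t - a) := by
    intro b
    apply propext
    constructor
    · intro h
      have : b = ((a - t) + (b - t)) + (t + t - a) := by ring
      rw [this, h, zero_add]
    · rintro rfl
      ring
  simp only [h1]
  simp

/-- the centre of the reflection -/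
theorem OUO_cen (hodd : Odd m) (a b t0 : ZMod m) (h0 : t0 + t0 = a + b) (v : ZMod m → ℕ) :
    ∑ t : ZMod m, (if (a - t) + (b - t) = 0 then v t else 0) = v t0 := by
  have h1 : ∀ t : ZMod m, ((a - t) + (b - t) = 0) = (t = t0) := by
    intro t
    apply propext
    constructor
    · intro h
      have h2 : (t0 - t) + (t0 - t) = 0 := by
        have : (t0 - t) + (t0 - t) = (t0 + t0) - (t + t) := by ring
        rw [this, h0]
        rw [← h]
        ring
      exact (sub_eq_zero.1 (OUO_two hodd _ h2)).symm
    · rintro rfl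
      have : (a - t) + (b - t) = (a + b) - (t + t) := by ring
      rw [this, h0, sub_self]
  simp only [h1]
  simp

theorem OUO_sym0 (t : ZMod m) (a b : Option (ZMod m)) : OUO_F0 t a b = OUO_F0 t b a := by
  rcases a with _ | a <;> rcases b with _ | b <;> simp only [OUO_F0]
  by_cases h : (a - t) + (b - t) = 0
  · have h' : (b - t) + (a - t) = 0 := by rw [add_comm]; exact h
    have e : a - t = -(b - t) := eq_neg_of_add_eq_zero_left h
    rw [if_pos h, if_pos h', e]
    have e1 : (-(b - t) = 1 ∨ -(b - t) = -1) = (b - t = 1 ∨ b - t = -1) := by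
      apply propext
      constructor
      · rintro (h | h)
        · right; rw [← h, neg_neg]
        · left; exact neg_injective h
      · rintro (h | h)
        · right; rw [h]
        · left; rw [h, neg_neg]
    simp only [e1]
  · have h' : ¬ (b - t) + (a - t) = 0 := by rw [add_comm]; exact h
    rw [if_neg h, if_neg h']

theorem OUO_sym1 (t : ZMod m) (a b : Option (ZMod m)) : OUO_F1 t a b = OUO_F1 t b a := by
  rcases a with _ | a <;> rcases b with _ | b <;> simp only [OUO_F1]
  by_cases h : (a - t) + (b - t) = 0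
  · have h' : (b - t) + (a - t) = 0 := by rw [add_comm]; exact h
    have e : a - t = -(b - t) := eq_neg_of_add_eq_zero_left h
    rw [if_pos h, if_pos h', e]
    have e1 : (-(b - t) = 1 ∨ -(b - t) = -1) = (b - t = 1 ∨ b - t = -1) := by
      apply propext
      constructor
      · rintro (h | h)
        · right; rw [← h, neg_neg]
        · left; exact neg_injective h
      · rintro (h | h)
        · right; rw [h]
        · left; rw [h, neg_neg]
    have e2 : (-(b - t) = 0) = (b - t = 0) := by
      apply propext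
      exact neg_eq_zero
    simp only [e1, e2]
  · have h' : ¬ (b - t) + (a - t) = 0 := by rw [add_comm]; exact h
    rw [if_neg h, if_neg h']

theorem OUO_symE (a b : Option (ZMod m)) : OUO_E2 a b = OUO_E2 b a := by
  rcases a with _ | a <;> rcases b with _ | b <;> simp only [OUO_E2]
  simp only [or_comm]

theorem OUO_symE0 (a b : Option (ZMod m)) : OUO_E0 a b = OUO_E0 b a := by
  unfold OUO_E0
  by_cases h : a = b
  · rw [h]
  · rw [if_neg h, if_neg (fun h' => h h'.symm)]

/-- rows -/
theorem OUO_row0 (hm : 3 ≤ m) (hodd : Odd m) (t : ZMod m) (a : Option (ZMod m)) :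
    ∑ b, OUO_F0 t a b = sz a := by
  rw [Fintype.sum_option]
  rcases a with _ | a
  · simp only [OUO_F0]
    rw [OUO_pm hm hodd]
    simp [sz]
  · simp only [OUO_F0]
    rw [OUO_ref]
    by_cases h : a - t = 1 ∨ a - t = -1
    · rw [if_pos h, if_pos h]; simp [sz]
    · rw [if_neg h, if_neg h]; simp [sz]

theorem OUO_row1 (hm : 3 ≤ m) (hodd : Odd m) (t : ZMod m) (a : Option (ZMod m)) :
    ∑ b, OUO_F1 t a b = sz a := by
  rw [Fintype.sum_option]
  rcases a with _ | a
  · simp only [OUO_F1]
    rw [OUO_pm0 hm hodd]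
    simp [sz]
  · simp only [OUO_F1]
    rw [OUO_ref]
    by_cases h0 : a - t = 0
    · rw [if_pos h0, if_pos h0]; simp [sz]
    · rw [if_neg h0, if_neg h0]
      by_cases h : a - t = 1 ∨ a - t = -1
      · rw [if_pos h, if_pos h]; simp [sz]
      · rw [if_neg h, if_neg h]; simp [sz]

theorem OUO_rowE (hm : 3 ≤ m) (hodd : Odd m) (a : Option (ZMod m)) :
    ∑ b, OUO_E2 a b = sz a := by
  rw [Fintype.sum_option]
  rcases a with _ | a
  · simp [OUO_E2, sz]
  · simp only [OUO_E2]
    have h1 : ∀ b : ZMod m, (if a - b = 2 ∨ b - a = 2 then 2 else 0) =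
        (if b = a - 2 then 2 else 0) + (if b = a + 2 then 2 else 0) := by
      intro b
      by_cases h : a - b = 2
      · have h' : b = a - 2 := by rw [← h]; ring
        have h'' : ¬ b = a + 2 := by
          intro h2
          have h3 : (2 : ZMod m) + 2 = 0 := by
            have : (2 : ZMod m) + 2 = (a + 2) - (a - 2) := by ring
            rw [this, ← h2, ← h', sub_self]
          exact OUO_ne2 hm hodd (OUO_two hodd _ h3)
        rw [if_pos (Or.inl h), if_pos h', if_neg h'']
      · have h' : ¬ b = a - 2 := fun h2 => h (by rw [h2]; ring)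
        by_cases g : b - a = 2
        · have g' : b = a + 2 := by rw [← g]; ring
          rw [if_pos (Or.inr g), if_neg h', if_pos g']
        · have g' : ¬ b = a + 2 := fun h2 => g (by rw [h2]; ring)
          rw [if_neg (by tauto), if_neg h', if_neg g']
    rw [Finset.sum_congr rfl (fun b _ => h1 b), Finset.sum_add_distrib]
    simp [sz]

theorem OUO_rowE0 (a : Option (ZMod m)) : ∑ b, OUO_E0 a b = sz a := by
  unfold OUO_E0
  simp

/-- the sum over the colours -/
theorem OUO_col (a b : Option (ZMod m)) :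
    ∑ c, OUO_O c a b = 2 * OUO_E0 a b + 3 * OUO_E2 a b +
      (∑ t, OUO_F0 t a b + 3 * ∑ t, OUO_F1 t a b) := by
  rw [Fintype.sum_sum_type, Fintype.sum_prod_type, Fin.sum_univ_five, Fin.sum_univ_four]
  have e0 : OUO_O (.inl 0) a b = OUO_E0 a b := by simp [OUO_O]
  have e1 : OUO_O (.inl 1) a b = OUO_E0 a b := by simp [OUO_O]
  have e2 : OUO_O (.inl 2) a b = OUO_E2 a b := by
    simp only [OUO_O]
    rw [if_neg (by decide)]
  have e3 : OUO_O (.inl 3) a b = OUO_E2 a b := by
    simp only [OUO_O]
    rw [if_neg (by decide)]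
  have e4 : OUO_O (.inl 4) a b = OUO_E2 a b := by
    simp only [OUO_O]
    rw [if_neg (by decide)]
  have f0 : ∀ t : ZMod m, OUO_O (.inr (0, t)) a b = OUO_F0 t a b := by
    intro t
    simp [OUO_O]
  have f1 : ∀ t : ZMod m, OUO_O (.inr (1, t)) a b = OUO_F1 t a b := by
    intro t
    simp only [OUO_O]
    rw [if_neg (by decide)]
  have f2 : ∀ t : ZMod m, OUO_O (.inr (2, t)) a b = OUO_F1 t a b := by
    intro t
    simp only [OUO_O]
    rw [if_neg (by decide)]
  have f3 : ∀ t : ZMod m, OUO_O (.inr (3, t)) a b = OUO_F1 t a b := by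
    intro t
    simp only [OUO_O]
    rw [if_neg (by decide)]
  simp only [e0, e1, e2, e3, e4, f0, f1, f2, f3]
  ring

theorem OUO_iff (hodd : Odd m) (a b t0 : ZMod m) (h0 : t0 + t0 = a + b) :
    (a - t0 = 1 ∨ a - t0 = -1) ↔ (a - b = 2 ∨ b - a = 2) := by
  have hd : (a - t0) + (a - t0) = a - b := by
    have : (a - t0) + (a - t0) = (a + a) - (t0 + t0) := by ring
    rw [this, h0]
    ring
  constructor
  · rintro (h | h)
    · left
      rw [← hd, h]
      norm_num
    · right
      rw [← neg_sub, ← hd, h]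
      norm_num
  · rintro (h | h)
    · left
      have : (a - t0 - 1) + (a - t0 - 1) = 0 := by
        have e : (a - t0 - 1) + (a - t0 - 1) = ((a - t0) + (a - t0)) - 2 := by ring
        rw [e, hd, h, sub_self]
      exact sub_eq_zero.1 (OUO_two hodd _ this)
    · right
      have : (a - t0 + 1) + (a - t0 + 1) = 0 := by
        have e : (a - t0 + 1) + (a - t0 + 1) = ((a - t0) + (a - t0)) + 2 := by ring
        rw [e, hd, ← h]
        ring
      exact eq_neg_of_add_eq_zero_left (OUO_two hodd _ this)

theorem OUO_off (hm : 3 ≤ m) (hodd : Odd m) (a b : Option (ZMod m)) (hab : a ≠ b) :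
    ∑ c, OUO_O c a b = sz a * sz b := by
  rw [OUO_col]
  rcases a with _ | a <;> rcases b with _ | b
  · exact absurd rfl hab
  · simp only [OUO_E0, OUO_E2, OUO_F0, OUO_F1]
    rw [OUO_pm' hm hodd, OUO_pm0' hm hodd]
    simp [sz]
  · simp only [OUO_E0, OUO_E2, OUO_F0, OUO_F1]
    rw [OUO_pm' hm hodd, OUO_pm0' hm hodd]
    simp [sz]
  · obtain ⟨t0, h0⟩ := OUO_half hodd (a + b)
    have hne : a ≠ b := fun h => hab (by rw [h])
    simp only [OUO_E0, OUO_E2, OUO_F0, OUO_F1]
    rw [OUO_cen hodd a b t0 h0 (fun t => if a - t = 1 ∨ a - t = -1 then 1 else 4),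
      OUO_cen hodd a b t0 h0
        (fun t => if a - t = 0 then 0 else if a - t = 1 ∨ a - t = -1 then 3 else 4)]
    have hx : a - t0 ≠ 0 := by
      intro h
      apply hne
      have h1 : a = t0 := sub_eq_zero.1 h
      rw [← h1] at h0
      exact add_left_cancel h0
    rw [if_neg hab, if_neg hx]
    by_cases h : a - b = 2 ∨ b - a = 2
    · rw [if_pos h, if_pos ((OUO_iff hodd a b t0 h0).2 h), if_pos ((OUO_iff hodd a b t0 h0).2 h)]
      simp [sz]
    · rw [if_neg h, if_neg (fun h' => h ((OUO_iff hodd a b t0 h0).1 h')),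
        if_neg (fun h' => h ((OUO_iff hodd a b t0 h0).1 h'))]
      simp [sz]

theorem OUO_diag (hm : 3 ≤ m) (hodd : Odd m) (a : Option (ZMod m)) :
    ∑ c, OUO_O c a a = sz a * (sz a - 1) := by
  rw [OUO_col]
  rcases a with _ | a
  · simp [OUO_E0, OUO_E2, OUO_F0, OUO_F1, sz]
  · simp only [OUO_E0, OUO_E2, OUO_F0, OUO_F1]
    rw [OUO_cen hodd a a a rfl (fun t => if a - t = 1 ∨ a - t = -1 then 1 else 4),
      OUO_cen hodd a a a rfl
        (fun t => if a - t = 0 then 0 else if a - t = 1 ∨ a - t = -1 then 3 else 4)]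
    have h1 : ¬ (a - a = 1 ∨ a - a = -1) := by
      rw [sub_self]
      rintro (g | g)
      · exact OUO_one hm g.symm
      · apply OUO_one hm
        have := congrArg Neg.neg g
        simpa using this.symm
    have h2 : ¬ (a - a = 2 ∨ a - a = 2) := by
      rw [sub_self]
      rintro (g | g)
      · exact OUO_ne2 hm hodd g.symm
      · exact OUO_ne2 hm hodd g.symm
    rw [if_neg h1, if_neg h2, if_pos (sub_self a)]
    simp [sz]

theorem OUO_even (hm : 3 ≤ m) (hodd : Odd m) (c : Fin 5 ⊕ (Fin 4 × ZMod m))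
    (a : Option (ZMod m)) : Even (OUO_O c a a) := by
  have hz : ∀ t a : ZMod m, (a - t) + (a - t) = 0 → a - t = 0 := fun t a h => OUO_two hodd _ h
  have h10 : ∀ t a : ZMod m, a - t = 0 → ¬ (a - t = 1 ∨ a - t = -1) := by
    intro t a h
    rw [h]
    rintro (g | g)
    · exact OUO_one hm g.symm
    · apply OUO_one hm
      have := congrArg Neg.neg g
      simpa using this.symm
  rcases c with j | ⟨j, t⟩
  · simp only [OUO_O]
    split_ifs with h
    · simp only [OUO_E0, if_true]
      rcases a with _ | a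
      · simp only [sz]; decide
      · simp only [sz]
        rw [if_neg (by simp)]
        decide
    · rcases a with _ | a
      · simp only [OUO_E2]; decide
      · simp only [OUO_E2]
        split_ifs <;> decide
  · simp only [OUO_O]
    split_ifs with h
    · rcases a with _ | a
      · simp only [OUO_F0]; decide
      · simp only [OUO_F0]
        by_cases h1 : (a - t) + (a - t) = 0
        · rw [if_pos h1, if_neg (h10 t a (hz t a h1))]
          decide
        · rw [if_neg h1]; decide
    · rcases a with _ | a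
      · simp only [OUO_F1]; decide
      · simp only [OUO_F1]
        by_cases h1 : (a - t) + (a - t) = 0
        · rw [if_pos h1, if_pos (hz t a h1)]
          decide
        · rw [if_neg h1]; decide

end

theorem stmt_OUO : Stmt_OUO := by
  intro m _ hm hodd
  refine ⟨OUO_O, ?_⟩
  constructor
  · intro c a b
    rcases c with j | ⟨j, t⟩
    · simp only [OUO_O]
      split_ifs
      · exact OUO_symE0 a b
      · exact OUO_symE a b
    · simp only [OUO_O]
      split_ifs
      · exact OUO_sym0 t a b
      · exact OUO_sym1 t a b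
  · exact OUO_even hm hodd
  · intro c a
    rcases c with j | ⟨j, t⟩
    · simp only [OUO_O]
      split_ifs
      · exact OUO_rowE0 a
      · exact OUO_rowE hm hodd a
    · simp only [OUO_O]
      split_ifs
      · exact OUO_row0 hm hodd t a
      · exact OUO_row1 hm hodd t a
  · exact OUO_off hm hodd
  · exact OUO_diag hm hodd
  · intro a
    simp [OUO_O, OUO_E0]
  · intro a
    simp [OUO_O, OUO_E0]
  · simp only [OUO_O]
    rw [if_neg (by decide)]
    rfl
  · simp only [OUO_O]
    rw [if_neg (by decide)]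
    rfl
  · simp only [OUO_O]
    rw [if_neg (by decide)]
    rfl
  · intro t
    simp only [OUO_O, if_true, OUO_F0]
    have h1 : ¬ (t - t = 1 ∨ t - t = -1) := by
      rw [sub_self]
      rintro (g | g)
      · exact OUO_one hm g.symm
      · apply OUO_one hm
        have := congrArg Neg.neg g
        simpa using this.symm
    rw [if_pos (by ring), if_neg h1]

end Pool.Agent.Work.MP_1ce445_n32
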