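import Pool.Agent.Work.MP_1ce445_n32.EQX

/-!
Block PAR (helper43): the loss of a tight graph with degrees 1, 2, 3 is even.
-/

set_option autoImplicit false

namespace Pool.Agent.Work.MP_1ce445_n32

open Finset Pool.Agent.Work.MP_1ce445_co_56 Pool.Agent.Work.MP_1ce445_lin

theorem stmt_PAR (hEQX : Stmt_EQX) (hCUB : Stmt_CUB) : Stmt_PAR := by
  classical
  intro V _ _ G h heq
  have hE := hEQX G h heq
  have hsum : ∀ v, ∑ u ∈ Nb G v, (4 - dg G u) ≤ 3 := by
    intro v
    have h1 := hE {v}
    rw [singleton_biUnion, card_singleton] at h1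
    have h2 : 1 ≤ (univ.filter (fun w => Nb G w ⊆ Nb G v)).card :=
      card_pos.2 ⟨v, mem_filter.2 ⟨mem_univ v, Subset.refl _⟩⟩
    omega
  have h3 : ∀ v, dg G v = 3 → ∀ u ∈ Nb G v, dg G u = 3 := by
    intro v hv u hu
    by_contra hn
    have h4 : ∑ _u ∈ Nb G v, 1 < ∑ u ∈ Nb G v, (4 - dg G u) := by
      refine sum_lt_sum (fun i _ => ?_) ⟨u, hu, ?_⟩
      · have := h i
        omega
      · have := h u
        omega
    rw [sum_const, smul_eq_mul, mul_one, EQX_card, hv] at h4
    have := hsum v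
    omega
  have h2 : ∀ v, dg G v ≠ 2 := by
    intro v hv
    have h4 : ∃ u ∈ Nb G v, dg G u = 3 := by
      by_contra hn
      push Not at hn
      have h5 : (Nb G v).card • 2 ≤ ∑ u ∈ Nb G v, (4 - dg G u) := by
        refine card_nsmul_le_sum _ _ _ fun u hu => ?_
        have a1 := hn u hu
        have a2 := h u
        omega
      rw [EQX_card, hv, smul_eq_mul] at h5
      have := hsum v
      omega
    obtain ⟨u, hu, hu3⟩ := h4
    have h5 := h3 u hu3 v ((EQX_mem G u v).2 ((EQX_mem G v u).1 hu).symm)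
    omega
  set Z : Finset V := univ.filter (fun v => dg G v = 3) with hZ
  have hmem : ∀ v, v ∈ Z ↔ dg G v = 3 := fun v => by rw [hZ, mem_filter]; simp
  have hT : Tgt (Nb G) Z := by
    refine ⟨?_, ?_, ?_, ?_, ?_⟩
    · intro v w hw
      exact (EQX_mem G w v).2 ((EQX_mem G v w).1 hw).symm
    · intro v hv
      exact G.loopless.irrefl v ((EQX_mem G v v).1 hv)
    · intro v hv u hu
      exact (hmem u).2 (h3 v ((hmem v).1 hv) u hu)
    · intro v hv
      rw [EQX_card]
      exact (hmem v).1 hv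
    · intro X hX
      have h4 := hE X
      have h5 : ∑ v ∈ X.biUnion (Nb G), (4 - dg G v) = (X.biUnion (Nb G)).card := by
        rw [card_eq_sum_ones]
        refine sum_congr rfl fun u hu => ?_
        obtain ⟨x, hx, hux⟩ := mem_biUnion.1 hu
        rw [h3 x ((hmem x).1 (hX hx)) u hux]
      have h6 : (Z.filter (fun w => Nb G w ⊆ X.biUnion (Nb G))).card ≤
          (univ.filter (fun w => Nb G w ⊆ X.biUnion (Nb G))).card :=
        card_le_card (filter_subset_filter _ (subset_univ _))
      omega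
  obtain ⟨c, hc⟩ := hCUB (Nb G) Z hT
  have h7 : ∑ v, (dg G v - 1) = 2 * Z.card := by
    rw [hZ, card_filter, mul_sum]
    refine sum_congr rfl fun v _ => ?_
    have a1 := h v
    have a2 := h2 v
    split_ifs with a3
    · omega
    · omega
  refine ⟨c, ?_⟩
  omega

end Pool.Agent.Work.MP_1ce445_n32
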