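import Pool.Agent.Work.MP_1ce445_n32.Interface

namespace Pool.Agent.Work.MP_1ce445_n32

open Finset Pool.Agent.Work.MP_1ce445_co_56 Pool.Agent.Work.MP_1ce445_lin

theorem stmt_PKF : Stmt_PKF := by
  intro V _ N Z S hT hS
  obtain ⟨⟨hSZ, hdis⟩, hmax⟩ := hS
  have h0 : (S.biUnion N).card = 3 * S.card := by
    rw [card_biUnion (fun a ha b hb hab => hdis a ha b hb hab)]
    rw [sum_congr rfl (fun a ha => hT.three a (hSZ ha)), sum_const, smul_eq_mul, mul_comm]
  have h1 : S.biUnion N ⊆ Z := by
    intro u hu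
    obtain ⟨a, ha, hau⟩ := mem_biUnion.1 hu
    exact hT.closed a (hSZ ha) hau
  have hUn : (Un N Z S).card + 3 * S.card = Z.card := by
    unfold Un
    rw [← h0, card_sdiff_add_card_eq_card h1]
  have hmemUn : ∀ u, u ∈ Un N Z S ↔ u ∈ Z ∧ u ∉ S.biUnion N := by
    intro u; unfold Un; rw [mem_sdiff]
  have hfil : Z.filter (fun w => N w ⊆ S.biUnion N) = S := by
    symm
    apply eq_of_subset_of_card_le
    · intro w hw
      rw [mem_filter]
      exact ⟨hSZ hw, subset_biUnion_of_mem N hw⟩
    · have := hT.star S hSZ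
      omega
  have hpos : ∀ w ∈ Z, w ∉ S → 1 ≤ (N w ∩ Un N Z S).card := by
    intro w hw hwS
    rw [Nat.one_le_iff_ne_zero, Ne, card_eq_zero]
    intro he
    apply hwS
    rw [← hfil, mem_filter]
    refine ⟨hw, ?_⟩
    intro u hu
    by_contra hu2
    have : u ∈ N w ∩ Un N Z S := by
      rw [mem_inter, hmemUn]
      exact ⟨hu, hT.closed w hw hu, hu2⟩
    rw [he] at this
    exact absurd this (notMem_empty _)
  have hle : ∀ w ∈ Z, w ∉ S → (N w ∩ Un N Z S).card ≤ 2 := by
    intro w hw hwS
    by_contra hc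
    have h3 := hT.three w hw
    have h4 : N w ∩ Un N Z S = N w := by
      apply eq_of_subset_of_card_le inter_subset_left
      omega
    have h5 : ∀ u ∈ N w, u ∉ S.biUnion N := by
      intro u hu
      rw [← h4, mem_inter, hmemUn] at hu
      exact hu.2.2
    have hd : ∀ b ∈ S, Disjoint (N w) (N b) := by
      intro b hb
      rw [disjoint_left]
      intro u hu hub
      exact h5 u hu (mem_biUnion.2 ⟨b, hb, hub⟩)
    have hpk : Pk N Z (insert w S) := by
      refine ⟨?_, ?_⟩
      · intro x hx
        rcases mem_insert.1 hx with h | h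
        · rw [h]; exact hw
        · exact hSZ h
      · intro a ha b hb hab
        rcases mem_insert.1 ha with h | h <;> rcases mem_insert.1 hb with h' | h'
        · exact absurd (h.trans h'.symm) hab
        · rw [h]; exact hd b h'
        · rw [h']; exact (hd a h).symm
        · exact hdis a h b h' hab
    have := hmax _ hpk
    rw [card_insert_of_notMem hwS] at this
    omega
  have hor : ∀ w ∈ Z, w ∉ S → (N w ∩ Un N Z S).card = 1 ∨ (N w ∩ Un N Z S).card = 2 := by
    intro w hw hwS
    have := hpos w hw hwS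
    have := hle w hw hwS
    omega
  refine ⟨hor, h0, hUn, ?_⟩
  have hc1 : ∑ w ∈ Z \ S, (N w ∩ Un N Z S).card = (Z \ S).card + (E2 N Z S).card := by
    unfold E2
    rw [card_filter, card_eq_sum_ones (Z \ S), ← sum_add_distrib]
    apply sum_congr rfl
    intro w hw
    rw [mem_sdiff] at hw
    rcases hor w hw.1 hw.2 with h | h
    · rw [h]; simp
    · rw [h]; simp
  have hc2 : ∑ w ∈ Z \ S, (N w ∩ Un N Z S).card = ∑ u ∈ Un N Z S, (N u).card := by
    have e1 : ∀ w ∈ Z \ S, (N w ∩ Un N Z S).card =
        ∑ u ∈ Un N Z S, if u ∈ N w then 1 else 0 := by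
      intro w _
      rw [← card_filter]
      congr 1
      ext u
      rw [mem_inter, mem_filter]
      tauto
    rw [sum_congr rfl e1, sum_comm]
    apply sum_congr rfl
    intro u hu
    rw [hmemUn] at hu
    rw [← card_filter]
    congr 1
    ext w
    rw [mem_filter, mem_sdiff]
    constructor
    · rintro ⟨_, h⟩
      exact hT.symm w u h
    · intro h
      refine ⟨⟨hT.closed u hu.1 h, ?_⟩, hT.symm u w h⟩
      intro hwS
      exact hu.2 (mem_biUnion.2 ⟨w, hwS, hT.symm u w h⟩)
  have hc3 : ∑ u ∈ Un N Z S, (N u).card = 3 * (Un N Z S).card := by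
    rw [sum_congr rfl (fun u hu => hT.three u ((hmemUn u).1 hu).1), sum_const, smul_eq_mul, mul_comm]
  have hc4 : (Z \ S).card + S.card = Z.card := card_sdiff_add_card_eq_card hSZ
  omega

end Pool.Agent.Work.MP_1ce445_n32
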