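import Pool.Agent.Work.MP_1ce445_n32.Interface

set_option autoImplicit false

namespace Pool.Agent.Work.MP_1ce445_n32

open Finset Pool.Agent.Work.MP_1ce445_co_56 Pool.Agent.Work.MP_1ce445_lin

/-- In a factorization of the complete graph on `4 q + 2` points into `4 q - 1` factors all degrees are at most three,
and the total excess of a vertex is two. -/
theorem UPO_deg {q : ℕ} (h2 : 2 ≤ q) {G : Fin (4 * q - 1) → SimpleGraph (Fin (4 * q + 2))} (hG : IsFactorization G)
    (v : Fin (4 * q + 2)) : (∀ j, 1 ≤ dg (G j) v ∧ dg (G j) v ≤ 3) ∧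
      ∑ j, (dg (G j) v - 1) = 2 := by
  classical
  have hsum : ∑ j, dg (G j) v = 4 * q + 2 - 1 := by
    have h := sum_degree hG v
    rw [Fintype.card_fin] at h
    rw [← h]
    refine sum_congr rfl fun j _ => ?_
    unfold dg
    congr
  have h1 : ∀ j, 1 ≤ dg (G j) v := by
    intro j
    obtain ⟨w, hw⟩ := hG.minDeg j v
    unfold dg
    rw [Nat.one_le_iff_ne_zero, ← Nat.pos_iff_ne_zero, card_pos]
    exact ⟨w, by simpa using hw⟩
  have hsum1 : ∑ j, (dg (G j) v - 1) = 2 := by
    have h2 : ∑ j, (dg (G j) v - 1) + ∑ _j : Fin (4 * q - 1), 1 = ∑ j, dg (G j) v := by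
      rw [← sum_add_distrib]
      refine sum_congr rfl fun j _ => ?_
      have := h1 j
      omega
    rw [hsum, sum_const, card_univ, Fintype.card_fin, smul_eq_mul, mul_one] at h2
    omega
  have h2 : ∀ j, dg (G j) v ≤ 3 := by
    intro j
    have h3 : dg (G j) v - 1 ≤ ∑ j, (dg (G j) v - 1) :=
      single_le_sum (f := fun j => dg (G j) v - 1) (fun _ _ => Nat.zero_le _) (mem_univ j)
    omega
  exact ⟨fun j => ⟨h1 j, h2 j⟩, hsum1⟩

/-- UPO. -/
theorem stmt_UPO (h1 : Pool.Agent.Work.MP_1ce445_n3.Stmt_LO3) (h2 : Pool.Agent.Work.MP_1ce445_n3.Stmt_TWO)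
    (h4 : Stmt_PAR) (h3 : Stmt_OPO) : Stmt_UPO := by
  classical
  intro q hq
  refine P_le fun G hG => ?_
  refine h3 q (fun j => ∑ v, (dg (G j) v - 1)) (fun j => gammaT (G j)) (by omega) ?_ ?_ ?_ ?_
  · intro j
    have h := h1 (G j) (fun v => (UPO_deg hq hG v).1 j)
    rw [Fintype.card_fin] at h
    exact h
  · intro j hj
    have hev : Even (Fintype.card (Fin (4 * q + 2))) := by
      rw [Fintype.card_fin]
      exact ⟨2 * q + 1, by ring⟩
    have hex : ∃ v, 2 ≤ dg (G j) v := by
      by_contra hcon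
      push Not at hcon
      have h0 : ∑ v, (dg (G j) v - 1) = 0 := by
        refine sum_eq_zero fun v _ => ?_
        have := hcon v
        omega
      have hj2 : 0 < ∑ v, (dg (G j) v - 1) := hj
      omega
    have h := h2 (G j) (fun v => (UPO_deg hq hG v).1 j) hev hex
    rw [Fintype.card_fin] at h
    exact h
  · intro j hj
    have h := h4 (G j) (fun v => (UPO_deg hq hG v).1 j) (by rw [Fintype.card_fin]; exact hj)
    rw [Fintype.card_fin] at h
    exact h
  · calc ∑ j, ∑ v, (dg (G j) v - 1)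
        = ∑ v, ∑ j, (dg (G j) v - 1) := sum_comm
      _ = ∑ _v : Fin (4 * q + 2), 2 := sum_congr rfl fun v _ => (UPO_deg hq hG v).2
      _ = 2 * (4 * q + 2) := by
          rw [sum_const, card_univ, Fintype.card_fin, smul_eq_mul, mul_comm]

end Pool.Agent.Work.MP_1ce445_n32
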