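import Pool.Agent.Work.MP_1ce445_n3.End
import Pool.Agent.Work.MP_1ce445_n32.PKF
import Pool.Agent.Work.MP_1ce445_n32.MMC
import Pool.Agent.Work.MP_1ce445_n32.MMB
import Pool.Agent.Work.MP_1ce445_n32.DTL
import Pool.Agent.Work.MP_1ce445_n32.EXA
import Pool.Agent.Work.MP_1ce445_n32.EXB
import Pool.Agent.Work.MP_1ce445_n32.CHA
import Pool.Agent.Work.MP_1ce445_n32.CHB
import Pool.Agent.Work.MP_1ce445_n32.CUB
import Pool.Agent.Work.MP_1ce445_n32.EQX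
import Pool.Agent.Work.MP_1ce445_n32.PAR
import Pool.Agent.Work.MP_1ce445_n32.OPO
import Pool.Agent.Work.MP_1ce445_n32.UPO
import Pool.Agent.Work.MP_1ce445_n32.DTC
import Pool.Agent.Work.MP_1ce445_n32.OUO
import Pool.Agent.Work.MP_1ce445_n32.OUE
import Pool.Agent.Work.MP_1ce445_n32.ASB
import Pool.Agent.Work.MP_1ce445_n32.LOO
import Pool.Agent.Work.MP_1ce445_n32.EN2

/-!
The exact value of `P n (n - 3)` for `n % 4 = 2`: all blocks together.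
-/

namespace Pool.Agent.Work.MP_1ce445_n32

theorem hDTL : Stmt_DTL := stmt_DTL stmt_PKF (stmt_MMB stmt_MMC)

theorem hEXB : Stmt_EXB := stmt_EXB (stmt_EXA stmt_PKF hDTL)

theorem hCUB : Stmt_CUB := stmt_CUB stmt_PKF hDTL (stmt_CHB hEXB (stmt_CHA hEXB))

theorem hPAR : Stmt_PAR := stmt_PAR (stmt_EQX Pool.Agent.Work.MP_1ce445_n3.hCMA) hCUB

theorem hUPO : Stmt_UPO :=
  stmt_UPO Pool.Agent.Work.MP_1ce445_n3.hLO3 Pool.Agent.Work.MP_1ce445_n3.hTWO hPAR stmt_OPO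

theorem hLOO : Stmt_LOO := stmt_LOO stmt_OUO stmt_OUE (stmt_ASB stmt_DTC)

/-- the exact value -/
theorem hEN2 : Stmt_EN2 := stmt_EN2 hUPO hLOO

end Pool.Agent.Work.MP_1ce445_n32
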