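import Pool.Agent.Work.MP_1ce445_n32.Interface

/-!
Block EQX: sets in a graph with degrees 1, 2, 3 whose total domination number attains the bound.
-/

set_option autoImplicit false

namespace Pool.Agent.Work.MP_1ce445_n32

open Finset Pool.Agent.Work.MP_1ce445_co_56 Pool.Agent.Work.MP_1ce445_lin

theorem EQX_mem {V : Type} [Fintype V] (G : SimpleGraph V) (v w : V) :
    w ∈ Nb G v ↔ G.Adj v w := by
  unfold Nb
  simp

theorem EQX_card {V : Type} [Fintype V] (G : SimpleGraph V) (v : V) :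
    (Nb G v).card = dg G v := by
  unfold Nb dg
  rfl

theorem stmt_EQX (h1 : Pool.Agent.Work.MP_1ce445_n3.Stmt_CMA) : Stmt_EQX := by
  intro V _ _ G h heq X
  obtain ⟨S, hS, hle⟩ := h1 V V (Nb G) (univ \ X.biUnion (Nb G))
    (fun v _ => by rw [EQX_card]; exact h v)
  have hT : IsTDS G (X ∪ S) := by
    intro v
    by_cases hv : v ∈ X.biUnion (Nb G)
    · obtain ⟨x, hx, hvx⟩ := mem_biUnion.1 hv
      rw [EQX_mem] at hvx
      exact ⟨x, mem_union_left _ hx, hvx.symm⟩
    · obtain ⟨w, hw⟩ := hS v (mem_sdiff.2 ⟨mem_univ v, hv⟩)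
      rw [mem_inter, EQX_mem] at hw
      exact ⟨w, mem_union_right _ hw.2, hw.1⟩
  have h2 := gammaT_le_card hT
  have h3 := card_union_le X S
  have h4 : ((univ \ X.biUnion (Nb G)).biUnion (Nb G)).card +
      (univ.filter (fun w => Nb G w ⊆ X.biUnion (Nb G))).card ≤ Fintype.card V := by
    rw [← card_union_of_disjoint]
    · exact card_le_univ _
    · rw [disjoint_left]
      intro w hw hw2
      obtain ⟨v, hv, hwv⟩ := mem_biUnion.1 hw
      rw [EQX_mem] at hwv
      exact (mem_sdiff.1 hv).2 ((mem_filter.1 hw2).2 ((EQX_mem G w v).2 hwv.symm))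
  have h5 : ∑ v ∈ univ \ X.biUnion (Nb G), (4 - (Nb G v).card) +
      ∑ v ∈ X.biUnion (Nb G), (4 - dg G v) = ∑ v, (4 - dg G v) := by
    simp only [EQX_card]
    exact sum_sdiff (subset_univ _)
  have h6 : ∑ v, (dg G v - 1) + ∑ v, (4 - dg G v) = 3 * Fintype.card V := by
    rw [← sum_add_distrib]
    have : ∀ v ∈ (univ : Finset V), (dg G v - 1) + (4 - dg G v) = 3 := by
      intro v _
      have := h v
      omega
    rw [sum_congr rfl this, sum_const, card_univ, smul_eq_mul, mul_comm]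
  omega

end Pool.Agent.Work.MP_1ce445_n32
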