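import Pool.Agent.Work.MP_1ce445_n3.Interface
import Pool.Agent.Work.MP_1ce445_low.Interface

/-!
MP_1ce445_co: the exact value of `P n (n - 3)` for all `n` with `n % 4 = 2`, `n ≥ 18`:
`P n (n - 3) = n ^ (n - 4 - n / 4) * (n - 2) ^ (n / 4 + 1)`. Statements of the blocks, with complete proofs in the docstrings.
Blocks: PKF MMC MMB DTL EXA EXB CHA CHB CUB EQX PAR OPO UPO DTC OUO OUE ASB LOO EN2.

One file `Pool/Agent/Work/MP_1ce445_n32/<ID>.lean` per block, `import Pool.Agent.Work.MP_1ce445_n32.Interface`,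
same `open` lines, theorem `stmt_<ID>` with exactly the statements of the column `uses` as hypotheses, in this
order; auxiliary lemmas with the name of the block in front (`MMC_aux`).

Overview. UPPER BOUND. `n = 4 q + 2`, `n - 3` factors, total excess `∑_j ∑_v (dg (G j) v - 1) = 2 n = 8 q + 4`, a factor of loss
`l = n - gammaT` has excess `≤ 4 l` (LO3), so the sum of the losses is `≥ 2 q + 1`, and it is `≥ 2 q + 2` unless all factors are
tight (excess `= 4 l`); PAR: the loss of a tight factor is even. PAR follows from CUB: a cubic graph with `gammaT = m / 2` has `4 ∣ m`.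
LOWER BOUND. `n = 4 m + 6`, classes: `m` of size 4 and one of size 6; an explicit outline (numbers of the edges of every colour
between the classes), detachment, and union of colours inside the classes: `m` factors with a `K_4`, two with a 6-cycle.
-/

namespace Pool.Agent.Work.MP_1ce445_n32

open Finset Pool.Agent.Work.MP_1ce445_co_56 Pool.Agent.Work.MP_1ce445_lin

/-! ### Tight cubic systems -/

/-- `N v` = neighbours of `v`; `Z` is closed, cubic, and no set `X` covers too much (`star`). -/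
structure Tgt {V : Type} [DecidableEq V] (N : V → Finset V) (Z : Finset V) : Prop where
  symm : ∀ v w, w ∈ N v → v ∈ N w
  irr : ∀ v, v ∉ N v
  closed : ∀ v ∈ Z, N v ⊆ Z
  three : ∀ v ∈ Z, (N v).card = 3
  star : ∀ X ⊆ Z, (X.biUnion N).card + (Z.filter (fun w => N w ⊆ X.biUnion N)).card ≤ 4 * X.card

/-- packing: the neighbourhoods of the elements of `S` are disjoint -/
def Pk {V : Type} [DecidableEq V] (N : V → Finset V) (Z S : Finset V) : Prop :=
  S ⊆ Z ∧ ∀ a ∈ S, ∀ b ∈ S, a ≠ b → Disjoint (N a) (N b)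

/-- a packing of maximal cardinality -/
def MaxPk {V : Type} [DecidableEq V] (N : V → Finset V) (Z S : Finset V) : Prop :=
  Pk N Z S ∧ ∀ S', Pk N Z S' → S'.card ≤ S.card

/-- the vertices without a neighbour in `S` -/
def Un {V : Type} [DecidableEq V] (N : V → Finset V) (Z S : Finset V) : Finset V := Z \ S.biUnion N

/-- the vertices outside `S` with exactly two neighbours in `Un` (the edges of a multigraph on `Un`) -/
def E2 {V : Type} [DecidableEq V] (N : V → Finset V) (Z S : Finset V) : Finset V :=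
  (Z \ S).filter (fun w => (N w ∩ Un N Z S).card = 2)

/-- NO TWINS (used everywhere): `v ≠ v'` in `Z` have `N v ≠ N v'`: `star` for `X = {v}` gives `3 + 2 ≤ 4`. The filter in `star`
contains `X`.

PKF (150 lines). `star` for `S`: `|S.biUnion N| = 3 |S|` (disjoint), so at most `|S|` elements `w ∈ Z` have `N w ⊆ S.biUnion N`, these are
the elements of `S`; so `w ∈ Z \ S` has a neighbour in `Un`. If all three neighbours of `w` were in `Un` then `insert w S` would be
a packing. So the trace `N w ∩ Un` has 1 or 2 elements. Counting of the pairs `(w, u)`, `w ∈ Z \ S`, `u ∈ N w ∩ Un`: every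
`u ∈ Un` has its 3 neighbours in `Z \ S` (a neighbour in `S` would put `u` in `S.biUnion N`), so
`3 |Un| = |Z \ S| + |E2|`, and `|Un| = |Z| - 3 |S|`. -/
def Stmt_PKF : Prop :=
  ∀ {V : Type} [DecidableEq V] (N : V → Finset V) (Z S : Finset V), Tgt N Z → MaxPk N Z S →
    (∀ w ∈ Z, w ∉ S → (N w ∩ Un N Z S).card = 1 ∨ (N w ∩ Un N Z S).card = 2) ∧
    (S.biUnion N).card = 3 * S.card ∧ (Un N Z S).card + 3 * S.card = Z.card ∧
    (E2 N Z S).card + 8 * S.card = 2 * Z.card

/-! ### Matchings in multigraphs of maximum degree 3 -/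

/-- `M` is a matching (`e i` = the set of the two ends of the edge `i`) -/
def Mg {X ι : Type} [DecidableEq X] (e : ι → Finset X) (M : Finset ι) : Prop :=
  ∀ i ∈ M, ∀ j ∈ M, i ≠ j → Disjoint (e i) (e j)

/-- a double triangle which is a component of `J`: `p, q` from `u1` to `u2`, `x` from `u1` to `u3`, `y` from `u2` to `u3` -/
structure DTr {X ι : Type} [DecidableEq X] (e : ι → Finset X) (J : Finset ι) (u1 u2 u3 : X) (p q x y : ι) : Prop where
  mp : p ∈ J
  mq : q ∈ J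
  mx : x ∈ J
  my : y ∈ J
  pq : p ≠ q
  u12 : u1 ≠ u2
  u13 : u1 ≠ u3
  u23 : u2 ≠ u3
  ep : e p = {u1, u2}
  eq : e q = {u1, u2}
  ex : e x = {u1, u3}
  ey : e y = {u2, u3}
  all : ∀ j ∈ J, (u1 ∈ e j ∨ u2 ∈ e j ∨ u3 ∈ e j) → j = p ∨ j = q ∨ j = x ∨ j = y

/-- every edge is in a component which is a double triangle -/
def DTU {X ι : Type} [DecidableEq X] (e : ι → Finset X) (J : Finset ι) : Prop :=
  ∀ i ∈ J, ∃ u1 u2 u3 p q x y, DTr e J u1 u2 u3 p q x y ∧ (i = p ∨ i = q ∨ i = x ∨ i = y)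

/-- MMC (300 lines). A simple cubic graph has a matching with more than `|J| / 4` edges. Let `M ⊆ J` be a matching with the largest
number of edges, `A = M.biUnion e` (`|A| = 2 |M|`), `B` = the other vertices of `J.biUnion e`. Both ends of an edge are not in `B`
(otherwise `insert j M`). Call `j ∈ J` a B-edge if it has an end in `B`; then the other end is in `A`, and `j ∉ M`.
(a) Let `i ∈ M`, `e i = {u, v}`, `j`, `j'` B-edges with the ends `u, b` and `v, b'`. Then `b = b'` (otherwise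
`insert j (insert j' (M.erase i))` is a larger matching). So if `u` and `v` both have B-edges, each has exactly one (the graph is
simple), to the same `b`; in all cases at most 2 B-edges meet `e i` (`u` has degree 3 and `i` itself is not a B-edge).
(b) So `3 |B| ≤ 2 |M|` (every `b ∈ B` is on three B-edges, every B-edge meets exactly one `e i`), and `2 |J| = 3 (|A| + |B|)` gives
`|J| ≤ 4 |M|`. Suppose equality; then exactly 2 B-edges meet `e i`, for every `i ∈ M` (and `M` is not empty).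
(c) Let `i, i' ∈ M`, `i ≠ i'`, `e i = {u, v}`, `e i' = {g, h}`, `j ∈ J` with `e j = {v, g}`, and B-edges `k` at `u` with end `b` and `k'` at `h`
with end `b'`. Then `b = b'` (otherwise `k, j, k'` instead of `i, i'`: a larger matching).
(d) Take `i ∈ M`, `e i = {u, v}`. Case 1: `u` has two B-edges (to `b1 ≠ b2`), `v` has none. `v` has an edge `j ≠ i`, `e j = {v, g}`, `g ≠ u`
(simple), `g ∈ A`, `g ∈ e i'`, `e i' = {g, h}`, `i' ≠ i`. By (c) `h` has no B-edge. So `g` has two B-edges, and `i'`, `j`: degree 4,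
contradiction. Case 2: `u` and `v` have one B-edge each, to the same `b`. Let `j` be the third edge at `v`, `e j = {v, g}`, `g ∈ A` (`v`
has only one B-edge), `g ∈ e i'`, `e i' = {g, h}`, `i' ≠ i` (`g ≠ u`: simple). B-edges at `h` go to `b` (c). `g` has at most one
B-edge (`i'`, `j` are at `g`), so `h` has one (total 2), only one because simple, so `g` has exactly one; by (a) they have the same end `b`.
So `b` is on edges to `u, v, g, h`: degree 4, contradiction. -/
def Stmt_MMC : Prop :=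
  ∀ {X ι : Type} [DecidableEq X] [DecidableEq ι] (e : ι → Finset X) (J : Finset ι), J.Nonempty →
    (∀ i ∈ J, (e i).card = 2) → (∀ i ∈ J, ∀ x ∈ e i, (J.filter (fun j => x ∈ e j)).card = 3) →
    (∀ i ∈ J, ∀ j ∈ J, e i = e j → i = j) →
    ∃ M ⊆ J, Mg e M ∧ J.card < 4 * M.card

/-- MMB (300 lines; uses MMC). Multigraph without triple edges, degrees at most 3. Strong induction on `|J|` with the stronger second
alternative: `|J| = 4 |M|`, `DTU e J`, and every `x ∈ e i`, `i ∈ M`, has degree 3 in `J` (`M` consists of doubled edges). `J` empty: `M`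
empty. For `i ∈ J`, `e i = {u, v}`, let `L` = the set of the `j ∈ J` which meet `{u, v}`, `|L| = deg u + deg v - mult i`, `J' = J \ L` (it
inherits the hypotheses), `M'` for `J'`; `insert i M'` is a matching. (A) Some `i` has `|L| ≤ 3`: `M = insert i M'`,
`|J| ≤ |J'| + 3 ≤ 4 |M'| + 3 < 4 |M|`. (B) Some `i` has `|L| = 4`: if `|J'| < 4 |M'|` then `insert i M'`. Otherwise `|J| = 4 (|M'| + 1)`. As
`|L| = 4` and the degrees are `≤ 3`, some `j1 ∈ L` has `e j1 = {u, s}`, `s ≠ v`, and some `j2 ∈ L` has `e j2 = {v, s'}`, `s' ≠ u`. If they can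
be chosen with `s ≠ s'`: `M = M' ∪ {j1, j2}` (`s` has degree at most 2 in `J'`, so it is not covered by `M'`, the same for `s'`; `u`,
`v` are in no edge of `J'`): `4 |M| = 4 |M'| + 8 > |J|`. Otherwise all edges of `L` are between `u`, `v` and one `s`, with
multiplicities `a, b, c ≥ 1` (`uv`, `us`, `vs`), `a + b + c = 4`: one is 2, the others 1 (`L` is a double triangle). `s` has degree at
least 2 in `L`, so at most 1 in `J'`, but in a `DTU` all covered vertices have degree at least 2: `s` is in no edge of `J'`. So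
`DTU e J`, with `M = insert d M'`, `d` one of the two doubled edges (its ends have degree 3 in `L`); the vertices covered by `M'`
keep their degree 3. (C) Otherwise all `|L| ≥ 5`: all degrees are 3 and `mult i = 1` for all `i`: MMC. -/
def Stmt_MMB : Prop :=
  ∀ {X ι : Type} [DecidableEq X] [DecidableEq ι] (e : ι → Finset X) (J : Finset ι),
    (∀ i ∈ J, (e i).card = 2) → (∀ x, (J.filter (fun j => x ∈ e j)).card ≤ 3) →
    (∀ i ∈ J, (J.filter (fun j => e j = e i)).card ≤ 2) →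
    ∃ M ⊆ J, Mg e M ∧ (J.card < 4 * M.card ∨ (J.card = 4 * M.card ∧ DTU e J))

/-! ### Double triangles -/

/-- a double triangle of the multigraph `E2` on `Un`, for the maximal packing `S` (a component; `z` has only `u3` in `Un`) -/
structure DT {V : Type} [DecidableEq V] (N : V → Finset V) (Z S : Finset V) (u1 u2 u3 p q x y z : V) : Prop where
  hS : MaxPk N Z S
  m1 : u1 ∈ Un N Z S
  m2 : u2 ∈ Un N Z S
  m3 : u3 ∈ Un N Z S
  u12 : u1 ≠ u2
  u13 : u1 ≠ u3
  u23 : u2 ≠ u3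
  n1 : N u1 = {p, q, x}
  n2 : N u2 = {p, q, y}
  n3 : N u3 = {x, y, z}
  pq : p ≠ q
  xy : x ≠ y
  tp : N p ∩ Un N Z S = {u1, u2}
  tq : N q ∩ Un N Z S = {u1, u2}
  tx : N x ∩ Un N Z S = {u1, u3}
  ty : N y ∩ Un N Z S = {u2, u3}
  tz : N z ∩ Un N Z S = {u3}

/-- `p, q` is the doubled edge of a double triangle for some maximal packing -/
def Good {V : Type} [DecidableEq V] (N : V → Finset V) (Z : Finset V) (p q : V) : Prop :=
  ∃ S u1 u2 u3 x y z, DT N Z S u1 u2 u3 p q x y z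

/-- DTL (250 lines; uses PKF MMB). MMB for `e w = N w ∩ Un`, `J = E2`: degrees `≤ 3` (the `j ∈ E2` with `u ∈ e j` are in `N u`), no
triple edge (if `e i = {u, v}` and three `j` have `e j = e i` then they are the elements of `N u` and of `N v`: twins). Let `M` be the
matching. Choose for every `u ∈ Un \ M.biUnion e` a neighbour, `T` = set of these; `X = S ∪ M ∪ T` has `X.biUnion N = Z`, so `star`
gives `2 |Z| ≤ 4 (|S| + |M| + |Un| - 2 |M|)`, with PKF: `4 |M| ≤ |E2|`. So the second alternative: `DTU`. For `i ∈ E2` let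
`u1 u2 u3 p q x y` be its double triangle. `p, q, x ∈ N u1` are different, so `N u1 = {p, q, x}`, and `N u2 = {p, q, y}`; `x, y ∈ N u3`,
let `z` be the third element. `z ∉ S` (`u3` has no neighbour in `S`). If the trace of `z` had two elements then `z ∈ E2` and
`u3 ∈ e z`, so `z ∈ {p, q, x, y}` by `all`, but `u3 ∉ e p = e q = {u1, u2}`. So the trace is `{u3}` (PKF). -/
def Stmt_DTL : Prop :=
  ∀ {V : Type} [DecidableEq V] (N : V → Finset V) (Z S : Finset V), Tgt N Z → MaxPk N Z S → ∀ i ∈ E2 N Z S,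
    ∃ u1 u2 u3 p q x y z, DT N Z S u1 u2 u3 p q x y z ∧ (i = p ∨ i = q ∨ i = x ∨ i = y)

/-- EXA (250 lines; uses PKF DTL). `N p = {u1, u2, p3}`, `p3 ∉ Un`, so `p3 ∈ N a` for some `a ∈ S`; `N q = {u1, u2, q3}`, `q3 ∉ Un`,
`p3 ≠ q3` (no twins). `p, q ∉ S` (they have neighbours in `Un`). `S1 = insert p (S.erase a)` is a packing (`u1, u2` are in no
`N b`, `b ∈ S`; `p3` is only in `N a`) of the same cardinality, so `MaxPk`. `Un1 = Un N Z S1 = (Un \ {u1, u2}) ∪ (N a \ {p3})`. PKF for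
`S1` and `q ∉ S1`: `N q ∩ Un1` is not empty, so `q3 ∈ Un1`, `q3 ∉ Un`, so `q3 ∈ N a`: `N a = {p3, q3, r}`, `N a ∩ Un1 = {q3, r}`,
`a ∈ E2 N Z S1`, `N q ∩ Un1 = {q3}`. DTL for `S1` and `a`: `DT N Z S1 v1 v2 v3 p' q' x' y' z'`, `a ∈ {p', q', x', y'}`; `q3` is in the trace
of `a`, so `q3 ∈ {v1, v2, v3}`. `q ∈ N q3` has the trace `{q3}` with one element, but all elements of `N v1`, `N v2` have traces with
two elements: so `q3 = v3`, and `q = z'` (`x', y'` have traces with two elements). `a ∈ {x', y'}` (the trace of `a` contains `v3`), by the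
symmetry `DT .. v1 v2 v3 p' q' x' y' z' → DT .. v2 v1 v3 p' q' y' x' z'` we may take `a = x'`; trace `{q3, r} = {v1, v3}`, so `r = v1`. Put
`g = v2`, `w = y'`. `g ∈ Un1`, `g ≠ q3`, `g ≠ r`, so `g ∈ Un \ {u1, u2}`. -/
def Stmt_EXA : Prop :=
  ∀ {V : Type} [DecidableEq V] (N : V → Finset V) (Z S : Finset V) (u1 u2 u3 p q x y z : V), Tgt N Z →
    DT N Z S u1 u2 u3 p q x y z →
    ∃ a p3 q3 r g w p' q', a ∈ S ∧ N p = {u1, u2, p3} ∧ N q = {u1, u2, q3} ∧ N a = {p3, q3, r} ∧
      p3 ∉ Un N Z S ∧ q3 ∉ Un N Z S ∧ r ∉ Un N Z S ∧ p3 ≠ q3 ∧ p3 ≠ r ∧ q3 ≠ r ∧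
      g ∈ Un N Z S ∧ g ≠ u1 ∧ g ≠ u2 ∧ DT N Z (insert p (S.erase a)) r g q3 p' q' a w q

/-- The local structure at a good pair: three consecutive blocks `p q | u1 u2`, `a w | p3 q3`, `p' q' | r g`. -/
structure Lk {V : Type} [DecidableEq V] (N : V → Finset V) (p q u1 u2 x y p3 q3 a w r g p' q' : V) : Prop where
  np : N p = {u1, u2, p3}
  nq : N q = {u1, u2, q3}
  nu1 : N u1 = {p, q, x}
  nu2 : N u2 = {p, q, y}
  np3 : N p3 = {p, a, w}
  nq3 : N q3 = {q, a, w}
  na : N a = {p3, q3, r}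
  nw : N w = {p3, q3, g}
  nr : N r = {a, p', q'}
  ng : N g = {w, p', q'}
  xy : x ≠ y
  pq3 : p3 ≠ q3
  rg : r ≠ g
  d1 : a ≠ x ∧ a ≠ y ∧ w ≠ x ∧ w ≠ y
  d2 : p ≠ p' ∧ p ≠ q' ∧ q ≠ p' ∧ q ≠ q'
  d3 : r ≠ u1 ∧ r ≠ u2 ∧ g ≠ u1 ∧ g ≠ u2

/-- EXB (200 lines; uses EXA). Take `S, u1, u2, u3, x, y, z` from `Good`. EXA gives `a, p3, q3, r, g, w, p', q'`; EXA for the pair
`q, p` (`DT .. p q x y z → DT .. q p x y z`) gives `a2 ∈ S` with `N a2 = {q3, p3, r2}` (the third neighbours of `p`, `q` are the same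
`p3, q3`: `N p \ {u1, u2}`), so `a2 = a` (packing), `r2 = r`, and `g2, w2, p2, q2` with `DT N Z (insert q (S.erase a)) r g2 p3 p2 q2 a w2 p`. From the
two: `N r = {p', q', a} = {p2, q2, a}`, so `{p', q'} = {p2, q2}` (`N r` has 3 elements); `r, g, g2 ∈ N p'` and `∈ N q'`, `r ≠ g`, `r ≠ g2`, so `g = g2` (otherwise
`N p' = N q'`, twins); `N g = {p', q', w} = {p2, q2, w2}`, so `w = w2`. `N q3 = {a, w, q}`, `N p3 = {a, w, p}`, so `p3, q3, g ∈ N w`, they are
different (`g ∈ Un`, `p3, q3 ∉ Un`). `d1`: `x, y ∉ S` (they have neighbours in `Un`), `a ∈ S`; if `w = x` then `u1 ∈ N w = {p3, q3, g}`, but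
`u1 ∈ Un`, `g ≠ u1`; if `w = y` then `u2 ∈ N w`, the same. `d2`: `r ∈ N p'`, `r ∈ N q'`, but `r ∉ N p = {u1, u2, p3}` and `r ∉ N q` (`r ∉ Un`, `u1, u2 ∈ Un`,
`r ≠ p3, q3`). `d3`: `r ∉ Un`. `Good N Z p' q'`: the `DT` of EXA. -/
def Stmt_EXB : Prop :=
  ∀ {V : Type} [DecidableEq V] (N : V → Finset V) (Z : Finset V), Tgt N Z → ∀ p q, Good N Z p q →
    ∃ u1 u2 x y p3 q3 a w r g p' q', Lk N p q u1 u2 x y p3 q3 a w r g p' q' ∧ Good N Z p' q'

/-- CHA (200 lines; uses EXB). Every good pair has a predecessor. Let `pv A = ((Z.filter (fun u => A ⊆ N u)).biUnion N) \ A` for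
`A : Finset V`. If `Lk N p q .. p' q'` and `Good N Z p q`, `Good N Z p' q'`: the `u` with `{p', q'} ⊆ N u` are the elements of `N p' ∩ N q'`, these are
exactly `r, g` (two elements, a third one would give `N p' = N q'`, twins), so `pv {p', q'} = {a, w}` (`N r`, `N g` have 3 elements), and
`pv {a, w} = {p, q}` (`N a ∩ N w = {p3, q3}`). So `{p, q} = pv (pv {p', q'})`. All vertices are in `Z` (`p ∈ Z`: `p ∈ N u1`, `u1 ∈ Un ⊆ Z`; `closed`).
Let `Gd` = the set of the `{p, q}` with `Good N Z p q` (a finite set, `Z.powerset.filter ..`). By EXB there is for every `A ∈ Gd` some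
`f A ∈ Gd` with `A = pv (pv (f A))` and a link from `A` to `f A`; `f` is injective, `Gd` is finite, so `f` is surjective
(`Finset.surj_on_of_inj_on_of_card_le` or `Finite.injective_iff_surjective`). So for `Good N Z p q` there is `Good N Z p0 q0` with a link from
`{p0, q0}` to `{p, q}`; the order of `p, q` does not matter (`Lk .. p' q' → Lk .. q' p'`), nor that of `p0, q0`
(`Lk N p q u1 u2 x y p3 q3 a w r g p' q' → Lk N q p u1 u2 x y q3 p3 a w r g p' q'`). -/
def Stmt_CHA : Prop :=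
  ∀ {V : Type} [DecidableEq V] (N : V → Finset V) (Z : Finset V), Tgt N Z → ∀ p q, Good N Z p q →
    ∃ p0 q0 u1 u2 x y p3 q3 a w r g, Good N Z p0 q0 ∧ Lk N p0 q0 u1 u2 x y p3 q3 a w r g p q

/-- CHB (350 lines; uses EXB CHA). Let `Bl` = the family of all sets `{p, q, u1, u2}` and `{a, w, p3, q3}` for all good `p, q` and all
`Lk N p q u1 u2 x y p3 q3 a w r g p' q'` with `Good N Z p' q'` (a filter of `Z.powerset`), `T = Bl.biUnion id`.
(1) CLOSED. `N p, N q, N p3, N q3` are in the union of the two blocks of the same link. `N a = {p3, q3, r}`, `N w = {p3, q3, g}`: EXB for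
`p', q'` gives a link with `u1', u2'`, and `N p' ∩ N q' = {u1', u2'}` contains `r, g` (no twins: the intersection has at most two
elements), so `r, g ∈ T`. `N u1 = {p, q, x}`: CHA gives a link from `p0, q0` to `p, q`, with `N r0 = {a0, p, q}`, `N g0 = {w0, p, q}`,
`r0 ≠ g0`, `r0, g0 ∈ N p ∩ N q = {u1, u2}`, so `u1` is `r0` or `g0` and `x` is `a0` or `w0`, in `T`. The same for `u2`.
(2) MATES. `v'` is a mate of `v` if `v' ≠ v` and `(N v ∩ N v').card = 2`. The only mate of `p` in `Z` is `q`, of `u1` it is `u2`, of `a` it is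
`w`, of `p3` it is `q3` (and conversely, by the symmetries `(p,p3)(q,q3)`; `(u1,x)(u2,y)`; `(a,r)(w,g)` of `Lk`). Indeed a mate `v'` of `v`
is in `N s ∩ N t` for two elements `s ≠ t` of `N v`. `v = p`: `N u1 ∩ N u2 = {p, q}`; `N u1 ∩ N p3`: `{p, q, x} ∩ {p, a, w} = {p}` (`q ≠ a, w`
because `p3 ∈ N a, N w` and `p3 ∉ N q`; `d1`); `N u2 ∩ N p3 = {p}`. `v = u1`: `N p ∩ N q = {u1, u2}`; `N p ∩ N x`: `{u1, u2, p3}`, `x ∉ N u2`,
`x ∉ N p3` (`d1`); `N q ∩ N x` the same. `v = a`: `N p3 ∩ N q3 = {a, w}`; `N p3 ∩ N r = {p, a, w} ∩ {a, p', q'} = {a}` (`d2`; `w ≠ p', q'` from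
`N g`); `N q3 ∩ N r = {a}`. `v = p3`: `N a ∩ N w = {p3, q3}`; `N p ∩ N a = {u1, u2, p3} ∩ {p3, q3, r} = {p3}` (`d3`; `u1, u2 ≠ q3` from `N q`); `N p ∩ N w = {p3}`.
(3) Every block has the form `{v, v', s, s'}`, `v'` = the only mate of `v`, `{s, s'} = N v ∩ N v'`, for EACH of its elements `v`; so two blocks
with a common element are equal. Every block has 4 elements (`N p`: `u1 ≠ u2`; `irr`: `p ≠ u1` and so on). So `|T| = 4 |Bl|`
(`Finset.card_biUnion`). -/
def Stmt_CHB : Prop :=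
  ∀ {V : Type} [DecidableEq V] (N : V → Finset V) (Z : Finset V), Tgt N Z → (∃ p q, Good N Z p q) →
    ∃ T ⊆ Z, T.Nonempty ∧ (∀ v ∈ T, N v ⊆ T) ∧ 4 ∣ T.card

/-- CUB (80 lines; uses PKF DTL CHB). Strong induction on `|Z|`. Take a packing `S` of maximal cardinality. If `E2` is empty, PKF gives
`8 |S| = 2 |Z|`. Otherwise DTL gives a good pair, CHB a set `T`; `Tgt N (Z \ T)`: `closed`: if `v ∈ Z \ T`, `w ∈ N v`, `w ∈ T` then
`v ∈ N w ⊆ T`; `star`: the filter becomes smaller. So `4 ∣ |Z \ T|`, `4 ∣ |T|`. -/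
def Stmt_CUB : Prop :=
  ∀ {V : Type} [DecidableEq V] (N : V → Finset V) (Z : Finset V), Tgt N Z → 4 ∣ Z.card

/-! ### Upper bound -/

open Classical in
/-- the set of the neighbours -/
noncomputable def Nb {V : Type} [Fintype V] (G : SimpleGraph V) (v : V) : Finset V := univ.filter (fun w => G.Adj v w)

/-- EQX (120 lines; uses CMA = `Pool.Agent.Work.MP_1ce445_n3.Stmt_CMA`; model n3/LO3.lean). `NX = X.biUnion (Nb G)` = the set of the vertices
with a neighbour in `X`. CMA for `e = Nb G`, `J = univ \ NX`: `S` meets all `Nb G v`, `v ∈ J`, and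
`4 |S| ≤ |J.biUnion e| + ∑_{v ∈ J} (4 - dg v)`. If `w ∈ J.biUnion e` then `Nb G w` contains some `v ∉ NX`: so
`|J.biUnion e| ≤ |V| - #{w | Nb G w ⊆ NX}`. `X ∪ S` is a total dominating set, `gammaT ≤ |X| + |S|` (`gammaT_le_card`). The hypothesis is
`4 gammaT = |V| + ∑_v (4 - dg v)` (as `1 ≤ dg v ≤ 3`). Subtract. -/
def Stmt_EQX : Prop :=
  ∀ {V : Type} [Fintype V] [DecidableEq V] (G : SimpleGraph V),
    (∀ v, 1 ≤ dg G v ∧ dg G v ≤ 3) → ∑ v, (dg G v - 1) + 4 * gammaT G = 4 * Fintype.card V →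
    ∀ X : Finset V, ∑ v ∈ X.biUnion (Nb G), (4 - dg G v) +
      (univ.filter (fun w => Nb G w ⊆ X.biUnion (Nb G))).card ≤ 4 * X.card

/-- PAR (150 lines; uses EQX CUB). EQX for `X = {v}`: the filter contains `v`, so `∑_{u ∈ Nb G v} (4 - dg u) ≤ 3`, all terms are `≥ 1`.
If `dg v = 3`: all neighbours have degree 3. If `dg v = 2`: some neighbour `u` has `4 - dg u = 1`, so `dg u = 3`, and then its neighbour
`v` has degree 3, a contradiction. So all degrees are 1 or 3; `Z = {v | dg v = 3}`, `Tgt (Nb G) Z` (`star`: EQX, for `X ⊆ Z` all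
elements of `X.biUnion` are in `Z` and have `4 - dg = 1`; the filter over `Z` is contained in the filter over `univ`). CUB: `4 ∣ |Z|`. The sum
`∑ (dg v - 1)` is `2 |Z|`, so `4 (|V| - gammaT) = 2 |Z|` and `|V| - gammaT = |Z| / 2` is even (`gammaT ≤ |V|`). -/
def Stmt_PAR : Prop :=
  ∀ {V : Type} [Fintype V] [DecidableEq V] (G : SimpleGraph V),
    (∀ v, 1 ≤ dg G v ∧ dg G v ≤ 3) → ∑ v, (dg G v - 1) + 4 * gammaT G = 4 * Fintype.card V →
    Even (Fintype.card V - gammaT G)

/-- OPO (150 lines; model n3/OPT3.lean), real numbers. `n = 4 q + 2`, `x = 1 - 2/n`. Let `l j = n - g j` if `e j > 0` and `l j = 0` if `e j = 0`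
(natural numbers); `e j ≤ 4 l j`, and `l j ≥ 2` if `e j > 0`. `8 q + 4 = ∑ e j ≤ 4 ∑ l j`, so `∑ l j ≥ 2 q + 1`. If `∑ l j = 2 q + 1`
then `e j = 4 l j` for all `j`; then all `l j` are even (for `e j > 0` this is the last hypothesis on `j`), but `2 q + 1` is odd. So
`∑ l j ≥ 2 q + 2`. `g j / n ≤ x ^ (l j / 2)` (real power; `l j = 0`: `g j ≤ n`; `l j ≥ 2`: Bernoulli with the exponent `l j / 2 ≥ 1`), product
`∏ g j ≤ n^(4q-1) x^(q+1) = n^(3q-2) (n-2)^(q+1)` (`0 < x ≤ 1`; `4 q - 1 = (3 q - 2) + (q + 1)`; `n x = n - 2 = 4 q`). -/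
def Stmt_OPO : Prop :=
  ∀ (q : ℕ) (e g : Fin (4 * q - 1) → ℕ), 1 ≤ q → (∀ j, e j + 4 * g j ≤ 4 * (4 * q + 2)) →
    (∀ j, 0 < e j → g j + 2 ≤ 4 * q + 2) →
    (∀ j, e j + 4 * g j = 4 * (4 * q + 2) → Even (4 * q + 2 - g j)) → ∑ j, e j = 2 * (4 * q + 2) →
    ∏ j, g j ≤ (4 * q + 2) ^ (3 * q - 2) * (4 * q) ^ (q + 1)

/-- UPO (100 lines; uses LO3 TWO PAR OPO, LO3 and TWO = `Pool.Agent.Work.MP_1ce445_n3.Stmt_LO3` and `.Stmt_TWO`; model n3/UPT.lean, word by word with
`Fin (4 * q - 1)`, `Fin (4 * q + 2)`). `n - 3 = 4 q - 1`, every vertex has total excess `n - 1 - (n - 3) = 2`. -/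
def Stmt_UPO : Prop :=
  ∀ q : ℕ, 2 ≤ q → P (4 * q + 2) (4 * q - 1) ≤ (4 * q + 2) ^ (3 * q - 2) * (4 * q) ^ (q + 1)

/-! ### Lower bound -/

/-- a realization of an outline with the right numbers for every colour -/
structure RlC {C : Type} [Fintype C] [DecidableEq C] {V : Type} [Fintype V] [DecidableEq V] (k : ℕ) (η : C → ℕ)
    (M : Fin k → C → C → ℕ) (cl : V → C) (μ : Fin k → V → V) : Prop where
  card : ∀ a, (univ.filter (fun v => cl v = a)).card = η a
  inv : ∀ i v, μ i (μ i v) = v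
  ne : ∀ i v, μ i v ≠ v
  dis : ∀ i j v, μ i v = μ j v → i = j
  cnt : ∀ i a b, (univ.filter (fun v => cl v = a ∧ cl (μ i v) = b)).card = M i a b

/-- DTC (200 lines). Every outline has a realization with the right numbers for every colour. Copy of
`Pool/Agent/Work/MP_1ce445_low/DET.lean` and `BAS0.lean` without the sum over the colours in `cnt` (the proofs in the docstrings of
`MP_1ce445_low.Stmt_BAS0` and `Stmt_DET` are already per colour). `Stmt_STE` is proved: `stmt_STE p_INT` in `MP_1ce445_low/AllLow.lean`. -/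
def Stmt_DTC : Prop :=
  ∀ (C : Type) [Fintype C] [DecidableEq C] (k : ℕ) (η : C → ℕ) (M : Fin k → C → C → ℕ),
    Pool.Agent.Work.MP_1ce445_low.Outline k η M →
    ∃ (V : Type) (_ : Fintype V) (_ : DecidableEq V) (cl : V → C) (μ : Fin k → V → V), RlC k η M cl μ

/-- sizes of the classes: `m` classes of size 4 and one of size 6 -/
def sz {m : ℕ} (a : Option (ZMod m)) : ℕ := if a = none then 6 else 4

/-- The outline on `m` classes of size 4 and the class `none` of size 6, colours `Fin 5 ⊕ (Fin 4 × ZMod m)`. -/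
structure O6 (m : ℕ) [NeZero m] (O : Fin 5 ⊕ (Fin 4 × ZMod m) → Option (ZMod m) → Option (ZMod m) → ℕ) : Prop where
  symm : ∀ c a b, O c a b = O c b a
  even : ∀ c a, Even (O c a a)
  row : ∀ c a, ∑ b, O c a b = sz a
  off : ∀ a b, a ≠ b → ∑ c, O c a b = sz a * sz b
  diag : ∀ a, ∑ c, O c a a = sz a * (sz a - 1)
  w0 : ∀ a, O (.inl 0) a a = sz a
  w1 : ∀ a, O (.inl 1) a a = sz a
  s2 : O (.inl 2) none none = 6
  s3 : O (.inl 3) none none = 6
  s4 : O (.inl 4) none none = 6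
  st : ∀ t, O (.inr (0, t)) (some t) (some t) = 4

/-- OUO (200 lines), `m` odd. `O (inl 0) = O (inl 1)`: `sz a` on the diagonal, `0` otherwise. `O (inl j)`, `j = 2, 3, 4`: `none none ↦ 6`, `none` and
`some a ↦ 0`, `some a, some b ↦ 2` if `a - b = 2` or `b - a = 2`, otherwise `0` (`2 ≠ -2`, `m` odd `≥ 3`). `O (inr (0, t))`, with `x = a - t`, `y = b - t`:
`some a, some b ↦` (if `x + y ≠ 0`: `0`; if `x = 1` or `x = -1`: `1`; otherwise `4`); `none, some a ↦ 3` if `x = 1` or `x = -1`, otherwise `0`;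
`none none ↦ 0`. `O (inr (j, t))`, `j = 1, 2, 3`: `some a, some b ↦` (if `x + y ≠ 0`: `0`; if `x = 0`: `0`; if `x = 1` or `x = -1`: `3`; otherwise
`4`); `none, some a ↦` (if `x = 0`: `4`; if `x = 1` or `x = -1`: `1`; otherwise `0`); `none none ↦ 0`.
Rows: clear (`y = -x` is the only possibility; `1 ≠ -1`). `off`, `some a, some b`: exactly one `t` has `x + y = 0`, then `2 x = a - b ≠ 0`; if
`x = 1` or `x = -1` (iff `a - b = 2` or `b - a = 2`): `1 + 3 * 3 + 3 * 2 = 16`; otherwise `4 + 3 * 4 = 16`. `none, some a`: `3 + 3 + 3 (4 + 1 + 1) = 24`. `diag`: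
`some a`: `4 + 4 + 4` (`x + x = 0` only for `x = 0`), `none`: `5 * 6`. -/
def Stmt_OUO : Prop :=
  ∀ (m : ℕ) [NeZero m], 3 ≤ m → Odd m → ∃ O, O6 m O

/-- OUE (300 lines), `m = 2 h` even, `h ≥ 2` (so `h + h = 0`, and `x + x = 0` iff `x = 0` or `x = h` in `ZMod m`). `O (inl 0) = O (inl 1)`: `sz a` on the
diagonal, `0` otherwise. `O (inl j)`, `j = 2, 3, 4`: `none none ↦ 6`, `none` and `some a ↦ 0`, `some a, some b ↦ 2` if `a - b = 1` or `b - a = 1`, otherwise
`0`. With `x = a - t`, `y = b - t`: `O (inr (0, t))`: `some a, some b ↦` (if `x = 0` and `y = 0`: `4`; if `x + y = 0` and `x + x ≠ 0`: `2`; if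
`x + y = 1`: (if `x = 0` or `y = 0`: `0`; if `x = h` or `y = h`: `1`; otherwise `2`); otherwise `0`); `none, some a ↦` (if `x = h`: `3`; if `x = 1`: `2`;
if `x = h + 1`: `1`; otherwise `0`); `none none ↦ 0`. `O (inr (j, t))`, `j = 1, 2, 3`: `some a, some b ↦` (if `x + y = 0` and `x + x ≠ 0`: `2`; if
`x + y = 1`: (if `x = 0` or `y = 0`: `1`; otherwise `2`); otherwise `0`); `none, some a ↦` (if `x = 0`: `3`; if `x = 1`: `1`; if `x = h`: `2`; otherwise
`0`); `none none ↦ 0`. Rows, colour `(0, t)`: `x = 0`: `4`; `x = h`: `1 + 3`; `x = 1`: `2 + 0 + 2`; `x = h + 1`: `2 + 1 + 1`; other `x`: `2 + 2`; `none`: `6`. Colour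
`(j, t)`: `x = 0`: `1 + 3`; `x = 1`: `2 + 1 + 1`; `x = h`: `2 + 2`; other `x`: `2 + 2`; `none`: `6`. `off`, `some a, some b`, `d = a - b ≠ 0`: if `a + b` is
even (`a + b = 2 t` for exactly two `t`, differing by `h`): `2 (2 + 3 * 2) = 16`; if `a + b` is odd (`a + b = 2 t + 1` for exactly two `t`, differing by
`h`) and `d ≠ 1, -1`: the same; if `d = 1` or `d = -1`: the two `t` have `{x, y} = {0, 1}` and `{x, y} = {h, h + 1}`: `(0 + 1) + 3 (1 + 2) + 3 * 2 = 16`. `none, some a`: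
`6 + 3 * 6 = 24`. `diag`: `some a`: `4 + 4 + 4`; `none`: `5 * 6`. -/
def Stmt_OUE : Prop :=
  ∀ (m : ℕ) [NeZero m], 4 ≤ m → Even m → ∃ O, O6 m O

/-- ASB (300 lines; uses DTC). Colours `c`; by any bijection of the colours with `Fin (4 m + 5)` the outline `O` is an `Outline`
(`η = sz`); DTC gives `V`, `|V| = 4 m + 6`, `cl`, and matchings `μ c`; write `F = {v | cl v = none}` (6 points), `K t = {v | cl v = some t}`
(4 points). For every `v` the `4 m + 5 = |V| - 1` vertices `μ c v` are different and `≠ v`, so every `w ≠ v` is `μ c v` for exactly one `c`.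
`μ (inl 0)` and `μ (inl 1)` preserve all classes (`w0`, `w1`: the set in `cnt` is the whole class), `μ (inl 2)`, `μ (inl 3)`, `μ (inl 4)` preserve
`F`, `μ (inr (0, t))` preserves `K t`. Factors (index type `Fin 3 ⊕ (Fin 4 × ZMod m)`, `4 m + 3` elements): `G (inl 0)`: `μ (inl 2) v = w`, or `v ∈ F` and
`μ (inl 0) v = w`; `G (inl 1)`: `μ (inl 3) v = w`, or `v ∈ F` and `μ (inl 1) v = w`; `G (inl 2)`: `μ (inl 4) v = w`; `G (inr (0, t))`: `μ (inr (0, t)) v = w`, or
`v ∈ K t` and (`μ (inl 0) v = w` or `μ (inl 1) v = w`); `G (inr (j, t))`, `j ≠ 0`: `μ (inr (j, t)) v = w`. `IsFactorization.of_adj`; `le_P`.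
`gammaT`: the `3 m + 1` perfect matchings: `≥ n` (`card_le_gammaT`, `f = id`, `g = μ c`). `G (inr (0, t))`: `S` a minimal total dominating set
(`exists_tds`), `R = univ \ S`; `R ⊆ K t` (if `v ∈ R`, `v ∉ K t`, then `μ (inr (0, t)) v ∉ K t` has the only neighbour `v`). If `|R| ≥ 3` then some `v ∈ K t`
has `K t \ {v} ⊆ R`, but all its neighbours are in `K t \ {v}`. So `gammaT ≥ n - 2`. `G (inl 0)` (and `G (inl 1)` in the same way): `R ⊆ F`; every
`v ∈ F` has exactly the two neighbours `μ (inl 2) v ≠ μ (inl 0) v`, not both in `R`, so `2 |R| ≤ 6` (double counting), and if `|R| = 3` then every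
`v ∈ F` has exactly one neighbour in `R`; for `v ∈ R` this is a fixed-point free involution of `R`, impossible for `|R| = 3`. -/
def Stmt_ASB : Prop :=
  ∀ (m : ℕ) [NeZero m] (O : Fin 5 ⊕ (Fin 4 × ZMod m) → Option (ZMod m) → Option (ZMod m) → ℕ), O6 m O →
    (4 * m + 6) ^ (3 * m + 1) * (4 * m + 4) ^ (m + 2) ≤ P (4 * m + 6) (4 * m + 3)

/-- LOO (30 lines; uses OUO OUE ASB): `m = q - 1 ≥ 3`. -/
def Stmt_LOO : Prop :=
  ∀ q : ℕ, 4 ≤ q → (4 * q + 2) ^ (3 * q - 2) * (4 * q) ^ (q + 1) ≤ P (4 * q + 2) (4 * q - 1)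

/-- EN2 (20 lines; uses UPO LOO): `n = 4 q + 2`, `n / 4 = q`. -/
def Stmt_EN2 : Prop :=
  ∀ n : ℕ, n % 4 = 2 → 18 ≤ n → P n (n - 3) = n ^ (n - 4 - n / 4) * (n - 2) ^ (n / 4 + 1)

end Pool.Agent.Work.MP_1ce445_n32
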